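import Pool.Agent.P.MP_c77070_an.Basic

/-! Glue between the parts. -/

noncomputable section

namespace Pool.Agent.P.MP_c77070_an

open Filter Topology Finset
open scoped Classical ComplexConjugate

universe u

section Banach

variable (𝕜 : Type) [RCLike 𝕜] (X : Type u) [NormedAddCommGroup X] [NormedSpace 𝕜 X]

theorem normFacts [CompleteSpace X] (hU : S_Ultra 𝕜 X) (h1 : S_It1 𝕜 X) (h2 : S_It2 𝕜 X)
    (hR : S_Real 𝕜 X) (h : ¬ Function.Surjective (NormedSpace.inclusionInDoubleDual 𝕜 X)) :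
    NormFacts 𝕜 X := by
  let _ : NormedSpace ℝ X := NormedSpace.restrictScalars ℝ 𝕜 X
  have _ : IsScalarTower ℝ 𝕜 X := IsScalarTower.restrictScalars ℝ 𝕜 X
  obtain ⟨U, z, δ, ρ, hG⟩ := hU h
  have hI := h1 U ρ hG.ball
  obtain ⟨hM, hL⟩ := h2 U z δ ρ hG hI
  refine ⟨fun l => itN U l (0 : X), ⟨?_, ?_, ?_, ?_, ?_, ?_⟩, hR U z δ ρ hG hI hL⟩
  · intro l l' hl
    simpa using hI.sub l l' 0 0 hl
  · intro c l
    simpa using hI.smul c l 0
  · intro l
    exact hI.nonneg l 0
  · intro l₁ l₂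
    exact hI.zero l₁ l₂ 0
  · intro l₁ a b l₂
    exact hM l₁ a b l₂ 0
  · have := hL [1] [-1] 0
    simp only [List.sum_cons, List.sum_nil, add_zero, norm_neg, norm_one, mul_one] at this
    exact lt_of_lt_of_le hG.pos this

theorem sysFin (hG : S_Glue 𝕜 X) (hA : S_Alg) (hT : S_Tr) (s : Sys) (hF : FunFacts 𝕜 X s) :
    BadSub 𝕜 X := by
  obtain ⟨J, cost, hJ, hn, hf, hs⟩ := hF
  have hIn0 : ∀ (g : s.Pt 0) (v : s.W), s.FIn 0 g v = 0 := by
    intro g v; simp [Sys.FIn]
  have hOut : ∀ i (g : s.Pt i) (c : ℂ) (v : s.W), s.FOut i g (c • v) = c * s.FOut i g v := by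
    intro i g c v
    unfold Sys.FOut
    split_ifs
    · rw [mul_left_comm c, ← Dig.S_mul_left _ _ _ _ c]
      congr 1
      refine Dig.S_congr _ _ _ _ fun ω k _ e _ => ?_
      simp only [DFinsupp.smul_apply, Pi.smul_apply, smul_eq_mul]; ring
    · simp
  have hIn : ∀ i (g : s.Pt i) (c : ℂ) (v : s.W), s.FIn i g (c • v) = c * s.FIn i g v := by
    intro i g c v
    unfold Sys.FIn
    split_ifs
    · rw [mul_left_comm c, ← Dig.S_mul_left _ _ _ _ c]
      congr 1
      refine Dig.S_congr _ _ _ _ fun ω k _ e _ => ?_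
      simp only [DFinsupp.smul_apply, Pi.smul_apply, smul_eq_mul]; ring
    · simp
  refine hG s.W J s.Pt s.yfam
    (fun i g j g' => s.FOut i g (s.yfam j g') - s.FIn i g (s.yfam j g')) cost 9 hJ hn ?_ hs ?_ ?_
  · intro i g l hl
    obtain ⟨f, h1, h2⟩ := hf i g l hl
    refine ⟨f, h1, fun j g' c => ?_⟩
    rw [h2, hOut, hIn]
    congr 2
    ring
  · intro j g'
    have key : ∀ n, ∑ i ∈ range (n + 1), ∑ g, (s.FOut i g (s.yfam j g') -
        s.FIn i g (s.yfam j g')) • s.yfam i g = ∑ g, s.FOut n g (s.yfam j g') • s.yfam n g := by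
      intro n
      induction n with
      | zero => simp [hIn0]
      | succ n ih =>
        rw [sum_range_succ, ih, hA s n j g']
        simp only [sub_smul, sum_sub_distrib]
        abel
    filter_upwards [eventually_ge_atTop (j + 3)] with n hn'
    obtain ⟨m, rfl⟩ : ∃ m, n = m + 1 := ⟨n - 1, by omega⟩
    rw [key]
    refine sum_eq_zero fun g _ => ?_
    have : s.FOut m g (s.yfam j g') = 0 := by
      unfold Sys.FOut
      rw [s.yfam_other j m g' (by omega) (by omega) (by omega)]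
      simp [Dig.S_zero]
    rw [this]
    exact zero_smul ℂ (s.yfam m g)
  · have key : ∀ n, ∑ i ∈ range (n + 1), ∑ g, (s.FOut i g (s.yfam i g) -
        s.FIn i g (s.yfam i g)) = ∑ g, s.FOut n g (s.yfam n g) := by
      intro n
      induction n with
      | zero => simp [hIn0]
      | succ n ih =>
        rw [sum_range_succ, ih, ← (hT s n).2, sum_sub_distrib]
        abel
    intro hlim
    have h1 : Tendsto (fun n => (1 - 1 / (Fintype.card (s.K (n + 2)) : ℝ)) *
        (1 - 1 / (Fintype.card (s.K (n + 3)) : ℝ)) * ∑ ξ, s.ϱ n ξ) atTop (𝓝 0) := by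
      have := (tendsto_add_atTop_iff_nat 1).2 hlim
      refine this.congr fun n => ?_
      rw [key, (hT s n).1, Complex.ofReal_re]
    have hK := s.s3.tendsto_atTop_zero
    have hK2 := (tendsto_add_atTop_iff_nat 2).2 hK
    have hK3 := (tendsto_add_atTop_iff_nat 3).2 hK
    have hr : Tendsto (fun n => ∑ ξ, s.ϱ n ξ) atTop (𝓝 1) := by
      have := (tendsto_const_nhds (x := (1 : ℝ))).sub s.s2.tendsto_atTop_zero
      simpa using this
    have h2 := (((tendsto_const_nhds (x := (1 : ℝ))).sub hK2).mul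
      ((tendsto_const_nhds (x := (1 : ℝ))).sub hK3)).mul hr
    have := tendsto_nhds_unique h1 h2
    norm_num at this

end Banach

theorem gadget (hP : S_Pen) (hK : S_Kill) (hC : S_LinCell)
    (hL : ∀ (d : Dig) (q τ τ' : ℕ) (ν ν' : d.Dg → ℕ), Lin d q τ ν → Pen d q τ' ν' →
      Nonempty (Lin d q (τ + τ') (fun k => ν k + ν' k))) : S_Gadget := by
  intro t b ht hb
  let F : Type := GaloisField 3 b
  let _ : Fintype F := Fintype.ofFinite F
  have hb0 : b ≠ 0 := by omega
  have hq : Fintype.card F = 3 ^ b := by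
    rw [← Nat.card_eq_fintype_card]; exact GaloisField.card 3 b hb0
  have hπ : Nonempty (F ≃+ KB b) := by
    have hr : Module.finrank (ZMod 3) F = b := GaloisField.finrank 3 hb0
    exact ⟨((Module.finBasisOfFinrankEq (ZMod 3) F hr).equivFun).toAddEquiv⟩
  obtain ⟨π⟩ := hπ
  obtain ⟨Dg, iF, iL, Act, hA, ν, hcard, hDg, hν, ⟨p0⟩, ⟨p1⟩⟩ := hP F b t ht
  obtain ⟨hK1, hK2⟩ := hK F b Dg Act hA
  obtain ⟨l0⟩ := hK1 π
  set d := fieldDig F b Dg Act hA with hd
  have hiter : ∀ (n τ₁ : ℕ) (p : Pen d (Fintype.card F) τ₁ ν) (τ : ℕ) (ν₀ : d.Dg → ℕ),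
      Lin d (Fintype.card F) τ ν₀ →
      Nonempty (Lin d (Fintype.card F) (τ + n * τ₁) (fun k => ν₀ k + n * ν k)) := by
    intro n τ₁ p
    induction n with
    | zero => intro τ ν₀ l; simpa using ⟨l⟩
    | succ n ih =>
      intro τ ν₀ l
      obtain ⟨l'⟩ := ih τ ν₀ l
      obtain ⟨l''⟩ := hL d _ _ _ _ _ l' p
      have e1 : τ + n * τ₁ + τ₁ = τ + (n + 1) * τ₁ := by ring
      have e2 : (fun k => ν₀ k + n * ν k + ν k) = fun k => ν₀ k + (n + 1) * ν k := by
        funext k; ring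
      rw [e1, e2] at l''
      exact ⟨l''⟩
  have h3 : (3 : F) = 0 := by simpa using CharP.cast_eq_zero F 3
  have hex : ∃ c : F, c ≠ 0 ∧ c ≠ 1 ∧ c ≠ -1 := by
    by_contra hcon
    push Not at hcon
    have hsub : (univ : Finset F) ⊆ {0, 1, -1} := by
      intro c _
      by_cases h0 : c = 0
      · simp [h0]
      by_cases h1 : c = 1
      · simp [h1]
      simp [hcon c h0 h1]
    have h4 := card_le_card hsub
    have h5 : ({0, 1, -1} : Finset F).card ≤ 3 := card_le_three
    rw [card_univ, hq] at h4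
    have h6 : 3 ^ 2 ≤ 3 ^ b := Nat.pow_le_pow_right (by norm_num) hb
    omega
  obtain ⟨c, hc⟩ := hex
  refine ⟨d, fun k => past d k + ((2 * Fintype.card Dg - 1) + t * ν k), rfl, hcard, ?_, ?_, ?_⟩
  · intro k
    have h1 : past d k ≤ Fintype.card Dg := card_le_univ _
    have h2 : t * ν k ≤ t * (10 * t ^ 3) := Nat.mul_le_mul_left _ (hν k)
    have h4 : t * (10 * t ^ 3) = 10 * t ^ 4 := by ring
    show past d k + ((2 * Fintype.card Dg - 1) + t * ν k) ≤ 40 * t ^ 4
    omega
  · refine hK2.trans ?_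
    rw [hq]
    push_cast
    have : (Fintype.card Dg : ℝ) ≤ 9 * (t : ℝ) ^ 4 := by exact_mod_cast hDg
    exact div_le_div_of_nonneg_right (by linarith) (by positivity)
  · intro τ hτ
    obtain ⟨l1⟩ := hiter τ 1 p1 _ _ l0
    obtain ⟨l2⟩ := hiter (t - τ) 0 p0 _ _ l1
    have e1 : 0 + τ * 1 + (t - τ) * 0 = τ := by ring
    have e2 : (fun k => 2 * Fintype.card Dg - 1 + τ * ν k + (t - τ) * ν k) =
        fun k => (2 * Fintype.card Dg - 1) + t * ν k := by
      funext k
      rw [add_assoc, ← add_mul, Nat.add_sub_cancel' hτ]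
    rw [e1, e2, hq] at l2
    refine hC d (3 ^ b) τ _ hq one_ne_zero ?_ ?_ ?_ l2
    · intro h
      have h' : (1 : F) = -1 := h
      have : (1 : F) = 0 := by linear_combination h3 - h'
      exact one_ne_zero this
    · intro k e e' hee hg k' hk'
      rw [← hee k' hk']
      exact hg k' hk'
    · intro k _
      exact ⟨fun _ => c, fun _ _ => hc⟩

end Pool.Agent.P.MP_c77070_an
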