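import Pool.Agent.P.MP_c77070_an.Defs

/-! Small API shared by all parts. -/

noncomputable section

namespace Pool.Agent.P.MP_c77070_an

open Filter Topology Finset
open scoped Classical ComplexConjugate

/-! ### Averages and characters -/

section Avg

variable {K : Type} [Fintype K]

theorem avg_const [Nonempty K] (c : ℂ) : avg (fun _ : K => c) = c := by
  have h : (Fintype.card K : ℂ) ≠ 0 := by exact_mod_cast Fintype.card_ne_zero
  simp only [avg, sum_const, card_univ, nsmul_eq_mul]
  field_simp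

theorem avg_congr {f g : K → ℂ} (h : ∀ κ, f κ = g κ) : avg f = avg g := by
  rw [funext h]

theorem avg_zero : avg (fun _ : K => (0 : ℂ)) = 0 := by simp [avg]

theorem avg_mul_left (c : ℂ) (f : K → ℂ) : avg (fun κ => c * f κ) = c * avg f := by
  simp only [avg, ← mul_sum, mul_div_assoc]

theorem avg_mul_right (c : ℂ) (f : K → ℂ) : avg (fun κ => f κ * c) = avg f * c := by
  simp only [avg, ← sum_mul]; ring

theorem avg_add (f g : K → ℂ) : avg (fun κ => f κ + g κ) = avg f + avg g := by
  simp only [avg, sum_add_distrib, add_div]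

theorem avg_sub (f g : K → ℂ) : avg (fun κ => f κ - g κ) = avg f - avg g := by
  simp only [avg, sum_sub_distrib, sub_div]

theorem avg_sum {ι : Type} (s : Finset ι) (f : ι → K → ℂ) :
    avg (fun κ => ∑ i ∈ s, f i κ) = ∑ i ∈ s, avg (f i) := by
  simp only [avg]; rw [sum_comm, sum_div]

theorem avg_equiv {K' : Type} [Fintype K'] (e : K ≃ K') (f : K' → ℂ) :
    avg (fun κ => f (e κ)) = avg f := by
  simp only [avg]; rw [e.sum_comp f, Fintype.card_congr e]

theorem avg_prod {K' : Type} [Fintype K'] (f : K × K' → ℂ) :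
    avg f = avg (fun a => avg (fun b => f (a, b))) := by
  simp only [avg, Fintype.sum_prod_type, Fintype.card_prod, ← sum_div, Nat.cast_mul]
  rw [div_div, mul_comm]

end Avg

section Chars

variable {G : Type} [AddCommGroup G] [Fintype G]

theorem ch_norm (χ : Ch G) (a : G) : ‖χ a‖ = 1 := AddChar.norm_apply χ a

theorem ch_conj_mul (χ : Ch G) (a : G) : conj (χ a) * χ a = 1 := by
  rw [Complex.conj_mul', ch_norm]; simp

theorem ch_conj (χ : Ch G) (a : G) : conj (χ a) = χ (-a) := by
  rw [AddChar.map_neg_eq_conj]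

theorem ch_card : Fintype.card (Ch G) = Fintype.card G := AddChar.card_eq

/-- Orthogonality of characters. -/
theorem avg_ch (η ζ : Ch G) : avg (fun κ => conj (η κ) * ζ κ) = if η = ζ then 1 else 0 := by
  have h : ∀ κ, conj (η κ) * ζ κ = (ζ - η) κ := by
    intro κ
    rw [AddChar.sub_apply, ch_conj, mul_comm]
  have hc : (Fintype.card G : ℂ) ≠ 0 := by exact_mod_cast Fintype.card_ne_zero
  simp only [avg, h]
  rw [AddChar.sum_eq_ite]
  by_cases hh : η = ζ
  · simp [hh]
  · have : ζ - η ≠ 0 := fun h' => hh (sub_eq_zero.1 h').symm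
    simp [hh, this]

theorem avg_ch_conj (η : Ch G) (h : η ≠ 0) : avg (fun κ => conj (η κ)) = 0 := by
  have := avg_ch η 0
  simpa [h] using this

/-- Dual orthogonality. -/
theorem sum_ch (a b : G) :
    ∑ γ : Ch G, conj (γ a) * γ b = if a = b then (Fintype.card G : ℂ) else 0 := by
  have h : ∀ γ : Ch G, conj (γ a) * γ b = γ (b - a) := by
    intro γ
    rw [ch_conj, ← AddChar.map_add_eq_mul]; congr 1; abel
  simp only [h]
  rw [AddChar.sum_apply_eq_ite]
  by_cases hh : a = b
  · simp [hh]
  · have : b - a ≠ 0 := fun h' => hh (sub_eq_zero.1 h').symm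
    simp [hh, this]

/-- The uniform law is pushed to the uniform law by a surjective homomorphism. -/
theorem avg_comp_surj {H : Type} [AddCommGroup H] [Fintype H] (π : G →+ H)
    (hπ : Function.Surjective π) (f : H → ℂ) : avg (fun a => f (π a)) = avg f := by
  have hG : (Fintype.card G : ℂ) ≠ 0 := by exact_mod_cast Fintype.card_ne_zero
  have hH : (Fintype.card H : ℂ) ≠ 0 := by exact_mod_cast Fintype.card_ne_zero
  choose σ hσ using hπ
  have h1 : ∀ h : H, ∑ a : G, f (π a) = ∑ a : G, f (π a + h) := by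
    intro h
    rw [← Equiv.sum_comp (Equiv.addRight (σ h))]
    simp [hσ]
  have h2 : (Fintype.card H : ℂ) * ∑ a : G, f (π a) = (Fintype.card G : ℂ) * ∑ h, f h := by
    calc (Fintype.card H : ℂ) * ∑ a : G, f (π a) = ∑ h : H, ∑ a : G, f (π a + h) := by
          rw [← sum_congr rfl (fun h _ => h1 h)]; simp
      _ = ∑ a : G, ∑ h : H, f (π a + h) := sum_comm
      _ = ∑ a : G, ∑ h : H, f h := by
          refine sum_congr rfl fun a _ => ?_
          exact Equiv.sum_comp (Equiv.addLeft (π a)) f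
      _ = _ := by simp
  simp only [avg]
  field_simp
  linear_combination h2

theorem card_range_of_ker {W O : Type} [AddCommGroup W] [Fintype W] [AddCommGroup O]
    (T : W →+ O) (m : ℕ) (h : Nat.card T.ker * m = Nat.card W) : Nat.card T.range = m := by
  have h1 : Nat.card W = Nat.card (W ⧸ T.ker) * Nat.card T.ker :=
    AddSubgroup.card_eq_card_quotient_mul_card_addSubgroup _
  have h2 : Nat.card (W ⧸ T.ker) = Nat.card T.range :=
    Nat.card_congr (QuotientAddGroup.quotientKerEquivRange T).toEquiv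
  have h3 : 0 < Nat.card T.ker := Nat.card_pos
  rw [h2] at h1
  rw [h1, mul_comm] at h
  exact (Nat.eq_of_mul_eq_mul_right h3 h).symm

end Chars

/-! ### Affine maps -/

section Aff

variable {E A B : Type} [AddCommGroup E] [AddCommGroup A] [AddCommGroup B]

theorem IsAff.const (c : A) : IsAff (fun _ : E => c) := ⟨c, 0, by simp⟩

theorem IsAff.id : IsAff (fun e : E => e) := ⟨0, AddMonoidHom.id E, by simp⟩

theorem IsAff.hom (l : E →+ A) : IsAff (fun e : E => l e) := ⟨0, l, by simp⟩

theorem IsAff.prod {f : E → A} {g : E → B} (hf : IsAff f) (hg : IsAff g) :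
    IsAff (fun e => (f e, g e)) := by
  obtain ⟨c, l, h⟩ := hf
  obtain ⟨c', l', h'⟩ := hg
  exact ⟨(c, c'), l.prod l', fun e => by simp [h, h']⟩

theorem IsAff.map {f : E → A} (hf : IsAff f) (l : A →+ B) : IsAff (fun e => l (f e)) := by
  obtain ⟨c, l', h⟩ := hf
  exact ⟨l c, l.comp l', fun e => by simp [h]⟩

theorem IsAff.add {f g : E → A} (hf : IsAff f) (hg : IsAff g) : IsAff (fun e => f e + g e) := by
  obtain ⟨c, l, h⟩ := hf
  obtain ⟨c', l', h'⟩ := hg
  exact ⟨c + c', l + l', fun e => by simp only [h, h', AddMonoidHom.add_apply]; abel⟩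

theorem IsAff.pi {ι : Type} {f : E → ι → A} (h : ∀ i, IsAff (fun e => f e i)) : IsAff f := by
  choose c l hl using h
  exact ⟨c, AddMonoidHom.pi l, fun e => funext fun i => by simp [hl]⟩

theorem IsAff.sum {ι : Type} (s : Finset ι) {f : ι → E → A} (h : ∀ i ∈ s, IsAff (f i)) :
    IsAff (fun e => ∑ i ∈ s, f i e) := by
  induction s using Finset.induction_on with
  | empty => simpa using IsAff.const (0 : A)
  | insert a s ha ih =>
    simp only [sum_insert ha]
    exact (h a (mem_insert_self _ _)).add (ih fun i hi => h i (mem_insert_of_mem hi))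

/-- A character of an affine function times a constant is of the form required in `IsCh`. -/
theorem IsAff.ch [Fintype A] {f : E → A} (hf : IsAff f) (γ : Ch A) (c : ℂ) (hc : ‖c‖ ≤ 1) :
    ∃ (c' : ℂ) (χ : Ch E), ‖c'‖ ≤ 1 ∧ ∀ e, γ (f e) * c = c' * χ e := by
  obtain ⟨a, l, h⟩ := hf
  refine ⟨γ a * c, γ.compAddMonoidHom l, by simpa [ch_norm] using hc, fun e => ?_⟩
  simp only [h, AddChar.map_add_eq_mul, AddChar.compAddMonoidHom_apply]; ring

end Aff

/-! ### The expectation operator -/

namespace Dig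

variable (d : Dig) {Ω : Type} [Fintype Ω]

theorem act_pos : (0 : ℝ) < d.Act.card := by exact_mod_cast d.hAct.card_pos

theorem den_pos : 0 < d.den := by
  have : (0 : ℝ) < Fintype.card d.E := by exact_mod_cast Fintype.card_pos
  exact mul_pos d.act_pos this

theorem S_congr (p : Ω → ℝ) (g : Ω → d.Dg → d.E → Prop) (s : d.D) {F G : Ω → d.E → ℂ}
    (h : ∀ ω, ∀ k ∈ d.Act, ∀ e, g ω k e → F ω (d.tr k s e) = G ω (d.tr k s e)) :
    d.S p g s F = d.S p g s G := by
  refine sum_congr rfl fun ω _ => sum_congr rfl fun k hk => sum_congr rfl fun e _ => ?_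
  split_ifs with hg
  · rw [h ω k hk e hg]
  · rfl

theorem S_zero (p : Ω → ℝ) (g : Ω → d.Dg → d.E → Prop) (s : d.D) :
    d.S p g s (fun _ _ => 0) = 0 := by simp [S]

theorem S_mul_left (p : Ω → ℝ) (g : Ω → d.Dg → d.E → Prop) (s : d.D) (c : ℂ)
    (F : Ω → d.E → ℂ) : d.S p g s (fun ω e => c * F ω e) = c * d.S p g s F := by
  simp only [S, mul_sum]
  refine sum_congr rfl fun ω _ => sum_congr rfl fun k _ => sum_congr rfl fun e _ => ?_
  split_ifs
  · ring
  · simp

theorem S_add (p : Ω → ℝ) (g : Ω → d.Dg → d.E → Prop) (s : d.D) (F G : Ω → d.E → ℂ) :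
    d.S p g s (fun ω e => F ω e + G ω e) = d.S p g s F + d.S p g s G := by
  simp only [S, ← sum_add_distrib]
  refine sum_congr rfl fun ω _ => sum_congr rfl fun k _ => sum_congr rfl fun e _ => ?_
  split_ifs
  · ring
  · simp

theorem S_add_not (p : Ω → ℝ) (g : Ω → d.Dg → d.E → Prop) (s : d.D) (F : Ω → d.E → ℂ) :
    d.S p g s F + d.S p (fun ω k e => ¬ g ω k e) s F = d.S p (fun _ _ _ => True) s F := by
  simp only [S, ← sum_add_distrib]
  refine sum_congr rfl fun ω _ => sum_congr rfl fun k _ => sum_congr rfl fun e _ => ?_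
  by_cases h : g ω k e <;> simp [h]

theorem S_one (p : Ω → ℝ) (g : Ω → d.Dg → d.E → Prop) (s : d.D) :
    d.S p g s (fun _ _ => 1) = (d.mass p g : ℝ) := by
  simp only [S, mass, Complex.ofReal_sum]
  refine sum_congr rfl fun ω _ => sum_congr rfl fun k _ => sum_congr rfl fun e _ => ?_
  split_ifs <;> simp

theorem mass_nonneg {p : Ω → ℝ} (hp : ∀ ω, 0 ≤ p ω) (g : Ω → d.Dg → d.E → Prop) :
    0 ≤ d.mass p g := by
  refine sum_nonneg fun ω _ => sum_nonneg fun k _ => sum_nonneg fun e _ => ?_
  split_ifs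
  · exact div_nonneg (hp ω) d.den_pos.le
  · exact le_rfl

theorem mass_true (p : Ω → ℝ) : d.mass p (fun _ _ _ => True) = ∑ ω, p ω := by
  have h1 := d.act_pos
  have h2 : (0 : ℝ) < Fintype.card d.E := by exact_mod_cast Fintype.card_pos
  simp only [mass, if_true, sum_const, card_univ, nsmul_eq_mul, den]
  refine sum_congr rfl fun ω _ => ?_
  field_simp

theorem mass_add_not (p : Ω → ℝ) (g : Ω → d.Dg → d.E → Prop) :
    d.mass p g + d.mass p (fun ω k e => ¬ g ω k e) = ∑ ω, p ω := by
  rw [← d.mass_true p]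
  simp only [mass, ← sum_add_distrib]
  refine sum_congr rfl fun ω _ => sum_congr rfl fun k _ => sum_congr rfl fun e _ => ?_
  by_cases h : g ω k e <;> simp [h]

theorem bad_nonneg : 0 ≤ d.bad := by
  refine sum_nonneg fun k _ => sum_nonneg fun e _ => ?_
  split_ifs
  · exact le_rfl
  · exact div_nonneg zero_le_one d.den_pos.le

theorem mass_not_ge (p : Ω → ℝ) :
    d.mass p (fun _ k e => ¬ d.ge k e) = (∑ ω, p ω) * d.bad := by
  rw [sum_mul]
  simp only [mass, bad, mul_sum]
  refine sum_congr rfl fun ω _ => sum_congr rfl fun k _ => sum_congr rfl fun e _ => ?_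
  by_cases h : d.ge k e <;> simp [h, div_eq_mul_inv]

theorem mass_ge (p : Ω → ℝ) :
    d.mass p (fun _ => d.ge) = (∑ ω, p ω) * (1 - d.bad) := by
  have h1 := d.mass_add_not p (fun _ => d.ge)
  rw [d.mass_not_ge] at h1
  linarith

theorem bad_le_one : d.bad ≤ 1 := by
  have h := d.mass_ge (Ω := Unit) (fun _ => 1)
  have h2 := d.mass_nonneg (Ω := Unit) (p := fun _ => 1) (fun _ => zero_le_one) (fun _ => d.ge)
  simp at h
  linarith

theorem tr_lt (k : d.Dg) (s : d.D) (e : d.E) {k' : d.Dg} (h : k' < k) : d.tr k s e k' = e k' := by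
  simp [tr, h]

theorem tr_self (k : d.Dg) (s : d.D) (e : d.E) : d.tr k s e k = s := by simp [tr]

theorem tr_gt (k : d.Dg) (s : d.D) (e : d.E) {k' : d.Dg} (h : k < k') : d.tr k s e k' = 0 := by
  simp [tr, h.le.not_gt, h.ne']

end Dig

/-! ### Cells -/

theorem Cell.mass_gI {d : Dig} (c : Cell d) :
    (∑ n, if c.gI n then c.win n else 0) = 1 - d.bad := by
  have h := c.lawI (fun _ _ _ => 1)
  rw [d.S_one, d.mass_ge, c.pw1, one_mul] at h
  have h2 : ∀ n, (if c.gI n then (c.win n : ℂ) * avg (fun _ : KB d.b => (1 : ℂ)) else 0) =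
      ((if c.gI n then c.win n else 0 : ℝ) : ℂ) := by
    intro n; split_ifs <;> simp [avg_const]
  simp only [h2, ← Complex.ofReal_sum] at h
  exact (Complex.ofReal_injective h).symm

theorem Cell.mass_gO {d : Dig} (c : Cell d) :
    (∑ o, if c.gO o then c.wout o else 0) = 1 - d.bad := by
  have h := c.lawO (fun _ _ _ => 1)
  rw [d.S_one, d.mass_ge, c.pw1, one_mul] at h
  have h2 : ∀ n, (if c.gO n then (c.wout n : ℂ) * avg (fun _ : KB d.b => (1 : ℂ)) else 0) =
      ((if c.gO n then c.wout n else 0 : ℝ) : ℂ) := by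
    intro n; split_ifs <;> simp [avg_const]
  simp only [h2, ← Complex.ofReal_sum] at h
  exact (Complex.ofReal_injective h).symm

/-- Two weighted finite sets with the same profile are isomorphic. -/
theorem exists_equiv_of_prof {A B : Type} [Fintype A] [Fintype B] (f : A → ℝ) (g : B → ℝ)
    (h : ∀ F : ℝ → ℝ, ∑ a, F (f a) = ∑ b, F (g b)) : ∃ Ψ : A ≃ B, ∀ a, g (Ψ a) = f a := by
  have hc : ∀ r : ℝ, Fintype.card {a // f a = r} = Fintype.card {b // g b = r} := by
    intro r
    have h1 := h (fun x => if x = r then 1 else 0)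
    simp only [sum_boole] at h1
    rw [Fintype.card_subtype, Fintype.card_subtype]
    exact_mod_cast h1
  let e : ∀ r : ℝ, {a // f a = r} ≃ {b // g b = r} := fun r => Fintype.equivOfCardEq (hc r)
  exact ⟨Equiv.ofFiberEquiv e, fun a => Equiv.ofFiberEquiv_map e a⟩

theorem link_of_prof {d d' : Dig} (c : Cell d) (c' : Cell d')
    (h : ∀ F : ℝ → ℝ, ∑ o, F (c.wout o) = ∑ n, F (c'.win n)) : Link c c' :=
  exists_equiv_of_prof _ _ h

/-! ### Components of the generators -/

namespace Sys

variable (s : Sys)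

theorem yfam_self (i : ℕ) (g : s.Pt i) : s.yfam i g i = s.own i g := by
  cases i with
  | zero => simp [yfam]
  | succ i => simp [yfam]

theorem yfam_succ (i : ℕ) (g : s.Pt i) : s.yfam i g (i + 1) = s.bwc i g := by
  cases i with
  | zero => simp [yfam]
  | succ i =>
    simp only [yfam, DFinsupp.add_apply]
    rw [DFinsupp.single_eq_of_ne (by omega), DFinsupp.single_eq_same,
      DFinsupp.single_eq_of_ne (by omega), zero_add, add_zero]

theorem yfam_pred (i : ℕ) (g : s.Pt (i + 1)) : s.yfam (i + 1) g i = s.fwc i g := by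
  simp [yfam]

theorem yfam_other (i j : ℕ) (g : s.Pt i) (h1 : j ≠ i) (h2 : j ≠ i + 1) (h3 : j + 1 ≠ i) :
    s.yfam i g j = 0 := by
  cases i with
  | zero =>
    simp only [yfam, DFinsupp.add_apply]
    rw [DFinsupp.single_eq_of_ne (by omega), DFinsupp.single_eq_of_ne (by omega), add_zero]
  | succ i =>
    simp only [yfam, DFinsupp.add_apply]
    rw [DFinsupp.single_eq_of_ne (by omega), DFinsupp.single_eq_of_ne (by omega),
      DFinsupp.single_eq_of_ne (by omega), add_zero, add_zero]

theorem card_Pt (i : ℕ) : Fintype.card (s.Pt i) = Fintype.card (s.A (i + 1)) *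
    (Fintype.card (s.K (i + 1)) * (Fintype.card (s.K (i + 2)) * Fintype.card (s.K (i + 3)))) := by
  simp only [Pt, Fintype.card_prod, ch_card]

theorem mass_gout (i : ℕ) : (s.d i).mass (s.p i) (s.gout i) = ∑ ξ, s.ϱ i ξ := by
  have h := s.lawOut i (fun _ _ _ _ => 1)
  rw [Dig.S_one] at h
  simp only [avg_const, mul_one, ← Complex.ofReal_sum] at h
  exact Complex.ofReal_injective h

theorem mass_gin (i : ℕ) :
    (s.d (i + 1)).mass (s.p (i + 1)) (s.gin (i + 1)) = ∑ ξ, s.ϱ i ξ := by
  have h := s.lawIn i (fun _ _ _ _ => 1)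
  rw [Dig.S_one] at h
  simp only [avg_const, mul_one, ← Complex.ofReal_sum] at h
  exact Complex.ofReal_injective h

end Sys

end Pool.Agent.P.MP_c77070_an
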