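import Pool.Agent.P.MP_c77070_an.Basic

/-! Cheap functionals on the blocks attached to digit frames. -/

noncomputable section

namespace Pool.Agent.P.MP_c77070_an

open Filter Topology Finset
open scoped Classical ComplexConjugate

universe u

namespace BlkA

variable {𝕜 : Type} [RCLike 𝕜] {X : Type u} [NormedAddCommGroup X] [NormedSpace 𝕜 X]

/-- constant extension to blocks of length one -/
def cst (C : Type) : (C → ℂ) →+ (C → Fin 1 → ℂ) where
  toFun z c _ := z c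
  map_zero' := rfl
  map_add' _ _ := rfl

theorem emb2 (h : EmbCFacts 𝕜 X) (B B' : Type) [Countable B] [Countable B'] (C : B → Type)
    [∀ b, Fintype (C b)] (C' : B' → Type) [∀ b, Fintype (C' b)] (p : ∀ b, C b → ℝ)
    (p' : ∀ b, C' b → ℝ) (L : B → ℕ) (hp : ∀ b c, 0 ≤ p b c) (hp' : ∀ b c, 0 ≤ p' b c) :
    ∃ (J : ∀ b, (C b → Fin (L b) → ℂ) →+ X) (J' : ∀ b, (C' b → ℂ) →+ X),
      (∀ b, RLin 𝕜 X (J b)) ∧ (∀ b, RLin 𝕜 X (J' b)) ∧
      (∀ b (t : C b → Fin (L b)) (z : C b → ℂ), (∀ c, ‖z c‖ ≤ 1) →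
        ‖J b (fun c t' => if t' = t c then z c else 0)‖ ≤ 1) ∧
      (∀ b (z : C' b → ℂ), (∀ c, ‖z c‖ ≤ 1) → ‖J' b z‖ ≤ 1) ∧
      (∀ b (a : C b → ℂ) (s : C b → ℕ), (∀ c, ‖a c‖ ≤ 1) → ∃ f : StrongDual 𝕜 X,
        ‖f‖ ≤ 512 * ∑ c, p b c ∧
        (∀ w, f (J b w) = (((∑ c, (p b c : ℂ) * a c *
          ∑ t : Fin (L b), (if (t : ℕ) < s c then w c t else 0)).re : ℝ) : 𝕜)) ∧
        (∀ b', b' ≠ b → ∀ w, f (J b' w) = 0) ∧ ∀ b' w, f (J' b' w) = 0) ∧
      ∀ b (a : C' b → ℂ), (∀ c, ‖a c‖ ≤ 1) → ∃ f : StrongDual 𝕜 X,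
        ‖f‖ ≤ 512 * ∑ c, p' b c ∧
        (∀ w, f (J' b w) = (((∑ c, (p' b c : ℂ) * a c * w c).re : ℝ) : 𝕜)) ∧
        (∀ b', b' ≠ b → ∀ w, f (J' b' w) = 0) ∧ ∀ b' w, f (J b' w) = 0 := by
  obtain ⟨J, h1, h2, h3⟩ := @h (B ⊕ B') _ (fun x => Sum.rec C C' x)
    (fun x => match x with
      | .inl b => inferInstanceAs (Fintype (C b))
      | .inr b => inferInstanceAs (Fintype (C' b)))
    (fun x => match x with
      | .inl b => p b
      | .inr b => p' b)
    (fun x => Sum.rec L (fun _ => 1) x)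
    (fun x => match x with
      | .inl b => hp b
      | .inr b => hp' b)
  refine ⟨fun b => J (.inl b), fun b => (J (.inr b)).comp (cst (C' b)), fun b => h1 (.inl b),
    fun b r w => h1 (.inr b) r (cst _ w), fun b => h2 (.inl b), fun b z hz => ?_,
    fun b a s ha => ?_, fun b a ha => ?_⟩
  · have := h2 (.inr b) (fun _ => (0 : Fin 1)) z hz
    refine le_of_eq_of_le (congrArg (fun w => ‖J (.inr b) w‖) ?_) this
    funext c t
    exact (if_pos (Subsingleton.elim (α := Fin 1) _ _)).symm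
  · obtain ⟨f, a1, a2, a3⟩ := h3 (.inl b) a s ha
    exact ⟨f, a1, a2, fun b' hb => a3 (.inl b') fun e => hb (Sum.inl_injective e),
      fun b' w => a3 (.inr b') Sum.inr_ne_inl _⟩
  · obtain ⟨f, a1, a2, a3⟩ := h3 (.inr b) a (fun _ => 1) ha
    refine ⟨f, a1, fun w => (a2 (cst _ w)).trans ?_,
      fun b' hb w => a3 (.inr b') (fun e => hb (Sum.inr_injective e)) _,
      fun b' w => a3 (.inl b') Sum.inl_ne_inr _⟩
    change (((∑ c, (p' b c : ℂ) * a c *
      ∑ t : Fin 1, (if (t : ℕ) < 1 then w c else 0)).re : ℝ) : 𝕜) = _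
    simp

section Fourier

variable {G : Type} [AddCommGroup G] [Fintype G]

def hat (v : G → ℂ) (χ : Ch G) : ℂ := avg fun e => conj (χ e) * v e

theorem inv (v : G → ℂ) (x : G) : v x = ∑ χ, hat v χ * χ x := by
  have hc : (Fintype.card G : ℂ) ≠ 0 := by exact_mod_cast Fintype.card_ne_zero
  have : ∀ χ : Ch G, hat v χ * χ x = ∑ e, v e / Fintype.card G * (conj (χ e) * χ x) := by
    intro χ
    rw [hat, avg, sum_div, sum_mul]
    exact sum_congr rfl fun e _ => by ring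
  simp only [this]
  rw [sum_comm]
  simp only [← mul_sum, sum_ch, mul_ite, mul_zero, sum_ite_eq', mem_univ, if_true]
  field_simp

theorem hat_ch {v : G → ℂ} {c : ℂ} {χ₀ : Ch G} (h : ∀ e, v e = c * χ₀ e) (χ : Ch G) :
    hat v χ = if χ = χ₀ then c else 0 := by
  have : hat v χ = c * avg fun e => conj (χ e) * χ₀ e := by
    simp only [hat, avg, h, ← mul_div_assoc, mul_sum]
    congr 1
    exact sum_congr rfl fun e _ => by ring
  rw [this, avg_ch]
  split_ifs <;> simp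

end Fourier

theorem sg_sum {L : ℕ} (w : Fin L → ℂ) (a : Fin L) : ∑ t, w t * sg t a =
    ∑ t : Fin L, (if (t : ℕ) < L then w t else 0) -
      ∑ t : Fin L, (if (t : ℕ) < a + 1 then w t else 0) -
      ∑ t : Fin L, (if (t : ℕ) < a then w t else 0) := by
  rw [← sum_sub_distrib, ← sum_sub_distrib]
  refine sum_congr rfl fun t _ => ?_
  have := t.2
  simp only [sg, Fin.lt_def]
  split_ifs <;> first | omega | simp

variable (d : Dig) {Ω : Type} [Fintype Ω] {L : ℕ}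

/-- the image in the main block -/
def mn (Ω : Type) (pos : Fin 3 × Bool → Ch d.E → Fin L) :
    (Ω → d.E → ℂ) →ₗ[ℂ] (Ω × (Fin 3 × Bool) → Fin L → ℂ) where
  toFun v c t := ∑ χ, if pos c.2 χ = t then hat (v c.1) χ else 0
  map_add' v v' := by
    funext c t
    simp only [Pi.add_apply, ← sum_add_distrib]
    refine sum_congr rfl fun χ _ => ?_
    split_ifs
    · simp [hat, avg, mul_add, sum_add_distrib, add_div]
    · simp
  map_smul' r v := by
    funext c t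
    simp only [Pi.smul_apply, smul_eq_mul, RingHom.id_apply, mul_sum]
    refine sum_congr rfl fun χ _ => ?_
    split_ifs
    · simp only [hat, avg, Pi.smul_apply, smul_eq_mul, ← mul_div_assoc, mul_sum]
      congr 1
      exact sum_congr rfl fun e _ => by ring
    · simp

/-- the image in the short blocks -/
def sh (Ω : Type) : (Ω → d.E → ℂ) →ₗ[ℂ] (Ω × d.Dg × d.E × Bool → ℂ) where
  toFun v c := v c.1 (d.tr c.2.1 (cond c.2.2.2 d.u (-d.u)) c.2.2.1)
  map_add' _ _ := rfl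
  map_smul' _ _ := rfl

theorem ker_one {pos : Fin 3 × Bool → Ch d.E → Fin L} {c₀ : ℂ}
    (h : ∀ χ χ' : Ch d.E, ∑ k ∈ d.Act, avg (fun e : d.E =>
        conj (χ (d.tr k (-d.u) e)) * χ' (d.tr k (-d.u) e) -
          conj (χ (d.tr k d.u e)) * χ' (d.tr k d.u e)) = c₀ * ∑ π, sg (pos π χ') (pos π χ))
    (v : d.E → ℂ) (χ : Ch d.E) :
    ∑ k ∈ d.Act, ∑ e : d.E, (conj (χ (d.tr k (-d.u) e)) * v (d.tr k (-d.u) e) -
      conj (χ (d.tr k d.u e)) * v (d.tr k d.u e)) =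
    Fintype.card d.E * c₀ * ∑ π, ∑ t,
      (∑ χ', if pos π χ' = t then hat v χ' else 0) * sg t (pos π χ) := by
  have hc : (Fintype.card d.E : ℂ) ≠ 0 := by exact_mod_cast Fintype.card_ne_zero
  have e1 : ∀ π, ∑ t, (∑ χ', if pos π χ' = t then hat v χ' else 0) * sg t (pos π χ) =
      ∑ χ', hat v χ' * sg (pos π χ') (pos π χ) := by
    intro π
    simp only [sum_mul]
    rw [sum_comm]
    simp
  have e2 : ∀ k e, conj (χ (d.tr k (-d.u) e)) * v (d.tr k (-d.u) e) -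
      conj (χ (d.tr k d.u e)) * v (d.tr k d.u e) =
      ∑ χ', hat v χ' * (conj (χ (d.tr k (-d.u) e)) * χ' (d.tr k (-d.u) e) -
        conj (χ (d.tr k d.u e)) * χ' (d.tr k d.u e)) := by
    intro k e
    rw [inv v (d.tr k (-d.u) e), inv v (d.tr k d.u e), mul_sum, mul_sum, ← sum_sub_distrib]
    exact sum_congr rfl fun χ' _ => by ring
  simp only [e1, e2]
  rw [sum_congr rfl fun k _ => sum_comm, sum_comm, sum_comm (s := univ (α := Fin 3 × Bool)),
    mul_sum]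
  refine sum_congr rfl fun χ' _ => ?_
  have := h χ χ'
  simp only [avg, ← sum_div] at this
  rw [div_eq_iff hc] at this
  simp only [← mul_sum]
  rw [this]
  ring

theorem main_eq {pos : Fin 3 × Bool → Ch d.E → Fin L} {c₀ : ℂ}
    (h : ∀ χ χ' : Ch d.E, ∑ k ∈ d.Act, avg (fun e : d.E =>
        conj (χ (d.tr k (-d.u) e)) * χ' (d.tr k (-d.u) e) -
          conj (χ (d.tr k d.u e)) * χ' (d.tr k d.u e)) = c₀ * ∑ π, sg (pos π χ') (pos π χ))
    (p : Ω → ℝ) {o : Ω → d.E → ℂ} {c : Ω → ℂ} {χ : Ω → Ch d.E} (ho : ∀ ω e, o ω e = c ω * χ ω e)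
    (l : ℂ) (v : Ω → d.E → ℂ) :
    l * (d.S p (fun _ _ _ => True) (-d.u) (fun ω e => conj (o ω e) * v ω e) -
      d.S p (fun _ _ _ => True) d.u (fun ω e => conj (o ω e) * v ω e)) =
    ((1 / (d.Act.card : ℝ) : ℝ) : ℂ) * ∑ x : Ω × (Fin 3 × Bool),
      (p x.1 : ℂ) * (l * conj (c x.1) * c₀) * ∑ t, mn d Ω pos v x t * sg t (pos x.2 (χ x.1)) := by
  have hc : (Fintype.card d.E : ℂ) ≠ 0 := by exact_mod_cast Fintype.card_ne_zero
  have ha : (d.Act.card : ℂ) ≠ 0 := by exact_mod_cast d.hAct.card_pos.ne'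
  rw [Fintype.sum_prod_type, Dig.S, Dig.S, ← sum_sub_distrib, mul_sum, mul_sum]
  refine sum_congr rfl fun ω _ => ?_
  have e := ker_one d h (v ω) (χ ω)
  have e1 : ∑ k ∈ d.Act, ∑ e : d.E, ((p ω / d.den : ℝ) : ℂ) *
        (conj (o ω (d.tr k (-d.u) e)) * v ω (d.tr k (-d.u) e)) -
      ∑ k ∈ d.Act, ∑ e : d.E, ((p ω / d.den : ℝ) : ℂ) *
        (conj (o ω (d.tr k d.u e)) * v ω (d.tr k d.u e)) =
      ((p ω / d.den : ℝ) : ℂ) * conj (c ω) * ∑ k ∈ d.Act, ∑ e : d.E,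
        (conj (χ ω (d.tr k (-d.u) e)) * v ω (d.tr k (-d.u) e) -
          conj (χ ω (d.tr k d.u e)) * v ω (d.tr k d.u e)) := by
    simp only [← sum_sub_distrib, mul_sum, ho, map_mul]
    exact sum_congr rfl fun k _ => sum_congr rfl fun e _ => by ring
  simp only [if_true]
  rw [e1, e, ← mul_sum, Dig.den]
  simp only [mn, LinearMap.coe_mk, AddHom.coe_mk]
  push_cast
  field_simp

theorem sum_sh {M : Type} [AddCommMonoid M] (F : Ω × d.Dg × d.E × Bool → M)
    (hF : ∀ c, c.2.1 ∉ d.Act → F c = 0) :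
    ∑ c, F c = ∑ ω, ∑ k ∈ d.Act, ∑ e, (F (ω, k, e, true) + F (ω, k, e, false)) := by
  rw [Fintype.sum_prod_type]
  refine sum_congr rfl fun ω _ => ?_
  rw [Fintype.sum_prod_type, ← sum_subset (subset_univ d.Act)
    fun k _ hk => sum_eq_zero fun y _ => hF (ω, k, y) hk]
  refine sum_congr rfl fun k _ => ?_
  rw [Fintype.sum_prod_type]
  exact sum_congr rfl fun e _ => Fintype.sum_bool _

/-- weights in the short blocks -/
def wt (p : Ω → ℝ) (gp gm : Ω → d.Dg → d.E → Prop) (c : Ω × d.Dg × d.E × Bool) : ℝ :=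
  if c.2.1 ∈ d.Act ∧ cond c.2.2.2 gp gm c.1 c.2.1 c.2.2.1 then p c.1 / d.den else 0

omit [Fintype Ω] in
theorem wt_nonneg {p : Ω → ℝ} (hp : ∀ ω, 0 ≤ p ω) (gp gm : Ω → d.Dg → d.E → Prop)
    (c : Ω × d.Dg × d.E × Bool) : 0 ≤ wt d p gp gm c := by
  unfold wt
  split_ifs
  · exact div_nonneg (hp _) d.den_pos.le
  · exact le_rfl

theorem wt_sum (p : Ω → ℝ) (gp gm : Ω → d.Dg → d.E → Prop) :
    ∑ c, wt d p gp gm c = d.mass p gp + d.mass p gm := by
  rw [sum_sh d (wt d p gp gm) fun c hc => if_neg fun h => hc h.1]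
  simp only [Dig.mass, ← sum_add_distrib]
  refine sum_congr rfl fun ω _ => sum_congr rfl fun k hk => sum_congr rfl fun e _ => ?_
  by_cases h1 : gp ω k e <;> by_cases h2 : gm ω k e <;> simp [wt, hk, h1, h2]

/-- coefficients in the short blocks -/
def cf (hp hm : Ω → d.Dg → d.E → Prop) (l : ℂ) (o : Ω → d.E → ℂ)
    (c : Ω × d.Dg × d.E × Bool) : ℂ :=
  if cond c.2.2.2 hp hm c.1 c.2.1 c.2.2.1 then
    cond c.2.2.2 (-l) l * conj (sh d Ω o c) else 0

omit [Fintype Ω] in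
theorem sh_norm {o : Ω → d.E → ℂ} (ho : IsCh o) (c : Ω × d.Dg × d.E × Bool) :
    ‖sh d Ω o c‖ ≤ 1 := by
  obtain ⟨a, χ, h1, h2⟩ := ho c.1
  change ‖o c.1 _‖ ≤ 1
  rwa [h2, norm_mul, ch_norm, mul_one]

omit [Fintype Ω] in
theorem cf_norm (hp hm : Ω → d.Dg → d.E → Prop) {l : ℂ} (hl : ‖l‖ ≤ 1) {o : Ω → d.E → ℂ}
    (ho : IsCh o) (c : Ω × d.Dg × d.E × Bool) : ‖cf d hp hm l o c‖ ≤ 1 := by
  unfold cf
  split_ifs
  · rw [norm_mul, RCLike.norm_conj]
    refine mul_le_one₀ ?_ (norm_nonneg _) (sh_norm d ho c)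
    cases c.2.2.2 <;> simpa using hl
  · simp

theorem short_eq (p : Ω → ℝ) {gp gm hp hm : Ω → d.Dg → d.E → Prop}
    (h1 : ∀ ω k e, hp ω k e → gp ω k e) (h2 : ∀ ω k e, hm ω k e → gm ω k e) (l : ℂ)
    (o v : Ω → d.E → ℂ) :
    ∑ c, (wt d p gp gm c : ℂ) * cf d hp hm l o c * sh d Ω v c =
      l * (d.S p hm (-d.u) (fun ω e => conj (o ω e) * v ω e) -
        d.S p hp d.u (fun ω e => conj (o ω e) * v ω e)) := by
  rw [sum_sh d _ fun c hc => by rw [wt, if_neg fun h => hc h.1]; simp]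
  simp only [Dig.S, ← sum_sub_distrib, mul_sum]
  refine sum_congr rfl fun ω _ => sum_congr rfl fun k hk => sum_congr rfl fun e _ => ?_
  have a1 := h1 ω k e
  have a2 := h2 ω k e
  simp only [wt, cf, sh, LinearMap.coe_mk, AddHom.coe_mk, cond_true, cond_false, hk, true_and]
  by_cases b1 : hp ω k e <;> by_cases b2 : hm ω k e
  · simp only [b1, b2, a1 b1, a2 b2, if_true]
    ring
  · simp only [b1, b2, a1 b1, if_true, if_false]
    ring
  · simp only [b1, b2, a2 b2, if_true, if_false]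
    ring
  · simp only [b1, b2, if_false]
    ring

theorem S_and (p : Ω → ℝ) (g : Ω → d.Dg → d.E → Prop) (P : Prop) (s : d.D)
    (F : Ω → d.E → ℂ) :
    d.S p (fun ω k e => g ω k e ∧ ¬ P) s F = d.S p g s F - if P then d.S p g s F else 0 := by
  by_cases h : P <;> simp [h, Dig.S]

end BlkA

open BlkA in
theorem blk (𝕜 : Type) [RCLike 𝕜] (X : Type u) [NormedAddCommGroup X] [NormedSpace 𝕜 X] :
    S_Blk 𝕜 X := by
  intro hK hE B _ d Ω _ p gp gm hp hp1
  choose L pos c₀ hc₀ hker using fun b => hK (d b)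
  obtain ⟨J, J', r1, r2, n1, n2, F1, F2⟩ := emb2 hE B (B × Bool)
    (fun b => Ω b × (Fin 3 × Bool)) (fun x => Ω x.1 × (d x.1).Dg × (d x.1).E × Bool)
    (fun b c => p b c.1)
    (fun x => wt (d x.1) (p x.1) (fun ω k e => x.2 → ¬ gp x.1 ω k e)
      fun ω k e => x.2 → ¬ gm x.1 ω k e) L (fun b c => hp b c.1)
    fun x => wt_nonneg _ (hp x.1) _ _
  refine ⟨fun b => (J b).comp (mn (d b) (Ω b) (pos b)).toAddMonoidHom +
    (J' (b, true)).comp (sh (d b) (Ω b)).toAddMonoidHom +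
    (J' (b, false)).comp (sh (d b) (Ω b)).toAddMonoidHom, fun b r w => ?_, fun b v hv => ?_,
    fun b o l P Q ho hl => ?_⟩
  · simp only [AddMonoidHom.add_apply, AddMonoidHom.comp_apply, LinearMap.toAddMonoidHom_coe,
      map_smul, smul_add]
    rw [r1 b, r2 (b, true), r2 (b, false)]
  · have a1 := n2 (b, true) _ (sh_norm (d b) hv)
    have a2 := n2 (b, false) _ (sh_norm (d b) hv)
    choose c χ hc hv using hv
    have a3 := n1 b (fun x => pos b x.2 (χ x.1)) (fun x => c x.1) fun x => hc x.1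
    have e : mn (d b) (Ω b) (pos b) v =
        fun x t' => if t' = pos b x.2 (χ x.1) then c x.1 else 0 := by
      funext x t
      simp only [mn, LinearMap.coe_mk, AddHom.coe_mk, hat_ch (hv x.1)]
      rw [sum_eq_single (χ x.1) (fun χ' _ h => by simp [h]) (by simp)]
      simp only [if_true, eq_comm]
    rw [← e] at a3
    exact (norm_add₃_le).trans (le_of_le_of_eq (add_le_add_three a3 a1 a2) (by norm_num))
  obtain ⟨fb, b1, b2, b3, b4⟩ := F2 (b, true) _
    (cf_norm (d b) (fun ω k e => ¬ gp b ω k e) (fun ω k e => ¬ gm b ω k e) hl ho)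
  obtain ⟨fa, a1, a2, a3, a4⟩ : ∃ f : StrongDual 𝕜 X,
      ‖f‖ ≤ 1024 * ((if P then 0 else 1) + (if Q then 0 else 1)) ∧
      (∀ v, f (J' (b, false) (sh (d b) (Ω b) v)) = (((l *
        ((d b).S (p b) (fun ω k e => gm b ω k e ∧ ¬ P) (-(d b).u)
            (fun ω e => conj (o ω e) * v ω e) -
          (d b).S (p b) (fun ω k e => gp b ω k e ∧ ¬ Q) (d b).u
            (fun ω e => conj (o ω e) * v ω e))).re : ℝ) : 𝕜)) ∧
      (∀ b', b' ≠ (b, false) → ∀ w, f (J' b' w) = 0) ∧ ∀ b' w, f (J b' w) = 0 := by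
    by_cases h : P ∧ Q
    · exact ⟨0, by simp [h.1, h.2], fun v => by rw [S_and, S_and]; simp [h.1, h.2], fun _ _ _ => rfl,
        fun _ _ => rfl⟩
    obtain ⟨f, a1, a2, a3, a4⟩ := F2 (b, false) _ (cf_norm (d b)
      (fun ω k e => gp b ω k e ∧ ¬ Q) (fun ω k e => gm b ω k e ∧ ¬ P) hl ho)
    refine ⟨f, a1.trans ?_, fun v => ?_, a3, a4⟩
    · rw [wt_sum]
      simp only [Bool.false_eq_true, false_implies, Dig.mass_true, hp1]
      by_cases hP : P <;> by_cases hQ : Q <;> simp [hP, hQ] at h ⊢ <;> norm_num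
    · rw [a2, short_eq _ _ (fun _ _ _ _ h => by simp at h) fun _ _ _ _ h => by simp at h]
  choose c χ hc ho' using ho
  have hco : ∀ x : Ω b × (Fin 3 × Bool), ‖l * conj (c x.1) * c₀ b‖ ≤ 1 := fun x => by
    rw [norm_mul, norm_mul, RCLike.norm_conj]
    exact mul_le_one₀ (mul_le_one₀ hl (norm_nonneg _) (hc _)) (norm_nonneg _) (hc₀ b)
  obtain ⟨f1, c1, c2, c3, c4⟩ := F1 b _ (fun _ => L b) hco
  obtain ⟨f2, d1, d2, d3, d4⟩ := F1 b _ (fun x => pos b x.2 (χ x.1) + 1) hco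
  obtain ⟨f3, e1, e2, e3, e4⟩ := F1 b _ (fun x => pos b x.2 (χ x.1)) hco
  have hh := (d b).act_pos
  refine ⟨((1 / ((d b).Act.card : ℝ) : ℝ) : 𝕜) • (f1 - f2 - f3) - fb - fa, ?_, fun v => ?_,
    fun b' hb v => ?_⟩
  · have t : ∑ x : Ω b × (Fin 3 × Bool), p b x.1 = 6 := by
      rw [Fintype.sum_prod_type]
      simp [← mul_sum, hp1]
    rw [t] at c1 d1 e1
    rw [wt_sum] at b1
    simp only [forall_const] at b1
    have m1 := (d b).mass_nonneg (hp b) fun ω k e => ¬ gp b ω k e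
    have m2 := (d b).mass_nonneg (hp b) fun ω k e => ¬ gm b ω k e
    have m3 : ‖f1 - f2 - f3‖ ≤ 10000 :=
      (norm_sub_le _ _).trans (by linarith [norm_sub_le f1 f2])
    have m4 : ‖((1 / ((d b).Act.card : ℝ) : ℝ) : 𝕜) • (f1 - f2 - f3)‖ ≤
        1 / ((d b).Act.card : ℝ) * 10000 := by
      rw [norm_smul, RCLike.norm_ofReal, abs_of_nonneg (by positivity)]
      gcongr
    have m5 : (0 : ℝ) ≤ (if P then 0 else 1) + (if Q then 0 else 1) := by positivity
    refine (norm_sub_le _ _).trans ?_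
    linarith [norm_sub_le (((1 / ((d b).Act.card : ℝ) : ℝ) : 𝕜) • (f1 - f2 - f3)) fb]
  · simp only [AddMonoidHom.add_apply, AddMonoidHom.comp_apply, LinearMap.toAddMonoidHom_coe,
      sub_apply, smul_apply, map_add, c2, d2, e2, c4, d4,
      e4, b2, b4, a2, a4, b3 (b, false) (by simp), a3 (b, true) (by simp), sub_zero, mul_zero,
      zero_sub, ← sub_eq_add_neg, smul_eq_mul]
    rw [short_eq _ _ (fun _ _ _ h _ => h) fun _ _ _ h _ => h]
    have m := main_eq (d b) (hker b) (p b) ho' l v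
    simp only [sg_sum, mul_sub (_ * (l * _ * _)), sum_sub_distrib] at m
    rw [← (d b).S_add_not (p b) (gm b), ← (d b).S_add_not (p b) (gp b)] at m
    rw [← RCLike.ofReal_sub, ← RCLike.ofReal_sub, ← RCLike.ofReal_mul, ← RCLike.ofReal_sub,
      ← RCLike.ofReal_sub, ← Complex.sub_re, ← Complex.sub_re, ← Complex.re_ofReal_mul,
      ← Complex.sub_re, ← Complex.sub_re, ← m, S_and, S_and]
    congr 2
    ring
  · simp only [AddMonoidHom.add_apply, AddMonoidHom.comp_apply, sub_apply,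
      smul_apply, map_add, c3 b' hb, d3 b' hb, e3 b' hb, c4, d4, e4, b4, a4,
      b3 (b', true) (by simp [hb]), b3 (b', false) (by simp), a3 (b', true) (by simp),
      a3 (b', false) (by simp [hb])]
    simp

end Pool.Agent.P.MP_c77070_an
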