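import Pool.Agent.P.MP_c77070_an.Basic

/-! Blocks with the triangular pattern from a spreading subadditive norm. -/

noncomputable section

namespace Pool.Agent.P.MP_c77070_an

open Filter Topology Finset
open scoped Classical ComplexConjugate

universe u

namespace Block1A

variable {𝕜 : Type} [RCLike 𝕜] {N : List 𝕜 → ℝ}

/-- Each entry `a` is replaced by the pair `a, -a`. -/
def dl (l : List 𝕜) : List 𝕜 := l.flatMap (fun a => [a, -a])

theorem dl_nil : dl ([] : List 𝕜) = [] := rfl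

theorem dl_cons (a : 𝕜) (l : List 𝕜) : dl (a :: l) = a :: -a :: dl l := by simp [dl]

theorem dl_append (l l' : List 𝕜) : dl (l ++ l') = dl l ++ dl l' := by simp [dl]

theorem dl_length (l : List 𝕜) : (dl l).length = 2 * l.length := by
  induction l with
  | nil => rfl
  | cons a l ih => rw [dl_cons]; simp only [List.length_cons, ih]; ring

theorem dl_zip (l l' : List 𝕜) (h : l.length = l'.length) :
    dl (List.zipWith (· + ·) l l') = List.zipWith (· + ·) (dl l) (dl l') := by
  induction l generalizing l' with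
  | nil => cases l' with
    | nil => rfl
    | cons b l' => simp at h
  | cons a l ih => cases l' with
    | nil => simp at h
    | cons b l' =>
      simp only [List.length_cons, Nat.add_right_cancel_iff] at h
      rw [List.zipWith_cons_cons, dl_cons, dl_cons, dl_cons, List.zipWith_cons_cons,
        List.zipWith_cons_cons, ih l' h, neg_add]

theorem dl_map (c : 𝕜) (l : List 𝕜) : dl (l.map (c * ·)) = (dl l).map (c * ·) := by
  induction l with
  | nil => rfl
  | cons a l ih => rw [List.map_cons, dl_cons, dl_cons, ih]; simp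

theorem N_zeros (h : ESA N) (k : ℕ) (l₁ l₂ : List 𝕜) :
    N (l₁ ++ (List.replicate k 0 ++ l₂)) = N (l₁ ++ l₂) := by
  induction k with
  | zero => simp
  | succ k ih => rw [List.replicate_succ, List.cons_append, h.zero, ih]

theorem N_merge (h : ESA N) (l : List 𝕜) : ∀ l₀ l₁ : List 𝕜,
    N (l₀ ++ l.sum :: l₁) ≤ N (l₀ ++ (l ++ l₁)) := by
  induction l with
  | nil => intro l₀ l₁; simp [h.zero]
  | cons a l ih =>
    intro l₀ l₁
    have h1 := h.merge l₀ a l.sum l₁
    have h2 := ih (l₀ ++ [a]) l₁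
    simp only [List.append_assoc, List.cons_append, List.nil_append] at h2
    rw [List.sum_cons, List.cons_append]
    exact h1.trans h2

theorem N_block (h : ESA N) (l : List 𝕜) (s : ℕ) (l₀ l₁ : List 𝕜) :
    N (l₀ ++ (l.take s).sum :: -(l.take s).sum :: l₁) ≤ N (l₀ ++ ((l ++ [-l.sum]) ++ l₁)) := by
  have e1 : (l.drop s ++ [-l.sum]).sum = -(l.take s).sum := by
    have := List.sum_take_add_sum_drop l s
    rw [List.sum_append, List.sum_singleton, ← this]; ring
  have h1 := N_merge h (l.take s) l₀ (-(l.take s).sum :: l₁)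
  have h2 := N_merge h (l.drop s ++ [-l.sum]) (l₀ ++ l.take s) l₁
  rw [e1] at h2
  refine h1.trans ?_
  rw [← List.append_assoc l₀]
  refine h2.trans (le_of_eq ?_)
  congr 1
  simp only [List.append_assoc]
  rw [← List.append_assoc (l.take s), List.take_append_drop]

theorem N_single (h : ESA N) (α : 𝕜) : ∀ (L : ℕ) (t : Fin L) (l₀ l₁ : List 𝕜),
    N (l₀ ++ (List.ofFn (fun t' : Fin L => if t' = t then α else 0) ++ l₁)) =
      N (l₀ ++ α :: l₁) := by
  intro L
  induction L with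
  | zero => intro t; exact t.elim0
  | succ L ih =>
    intro t l₀ l₁
    rw [List.ofFn_succ]
    refine Fin.cases ?_ (fun j => ?_) t
    · have : (fun i : Fin L => if i.succ = (0 : Fin (L + 1)) then α else 0) = fun _ => 0 := by
        funext i; simp [Fin.succ_ne_zero]
      rw [this, List.ofFn_const, if_pos rfl]
      have h2 := N_zeros h L (l₀ ++ [α]) l₁
      simpa only [List.append_assoc, List.cons_append, List.nil_append] using h2
    · have : (fun i : Fin L => if i.succ = j.succ then α else 0) =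
          fun i => if i = j then α else 0 := by
        funext i; simp [Fin.succ_inj]
      rw [this, if_neg (Fin.succ_ne_zero j).symm, List.cons_append, h.zero, ih]

/-- The norm of the doubled list. -/
def M (N : List 𝕜 → ℝ) (l : List 𝕜) : ℝ := N (dl l)

theorem M_add (h : ESA N) (l l' : List 𝕜) (e : l.length = l'.length) :
    M N (List.zipWith (· + ·) l l') ≤ M N l + M N l' := by
  unfold M
  rw [dl_zip l l' e]
  exact h.add _ _ (by rw [dl_length, dl_length, e])

theorem M_smul (h : ESA N) (c : 𝕜) (l : List 𝕜) : M N (l.map (c * ·)) = ‖c‖ * M N l := by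
  unfold M; rw [dl_map, h.smul]

theorem M_zero (h : ESA N) (l₁ l₂ : List 𝕜) : M N (l₁ ++ 0 :: l₂) = M N (l₁ ++ l₂) := by
  unfold M
  rw [dl_append, dl_append, dl_cons, neg_zero, h.zero, h.zero]

theorem M_drop (h : ESA N) (l₁ : List 𝕜) (a : 𝕜) (l₂ : List 𝕜) :
    M N (l₁ ++ l₂) ≤ M N (l₁ ++ a :: l₂) := by
  unfold M
  rw [dl_append, dl_append, dl_cons]
  have := h.merge (dl l₁) a (-a) (dl l₂)
  rwa [add_neg_cancel, h.zero] at this

theorem M_zeros (h : ESA N) (k : ℕ) (l₁ l₂ : List 𝕜) :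
    M N (l₁ ++ (List.replicate k 0 ++ l₂)) = M N (l₁ ++ l₂) := by
  induction k with
  | zero => simp
  | succ k ih => rw [List.replicate_succ, List.cons_append, M_zero h, ih]

theorem M_dropl (h : ESA N) (l : List 𝕜) (l₁ l₂ : List 𝕜) :
    M N (l₁ ++ l₂) ≤ M N (l₁ ++ (l ++ l₂)) := by
  induction l with
  | nil => simp
  | cons a l ih => exact ih.trans (M_drop h l₁ a (l ++ l₂))

theorem zip_zero_right (l : List 𝕜) :
    List.zipWith (· + ·) l (List.replicate l.length 0) = l := by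
  induction l with
  | nil => rfl
  | cons a l ih => simp [List.replicate_succ, ih]

theorem zip_zero_left (l : List 𝕜) :
    List.zipWith (· + ·) (List.replicate l.length 0) l = l := by
  induction l with
  | nil => rfl
  | cons a l ih => simp [List.replicate_succ, ih]

theorem M_append (h : ESA N) (l₁ l₂ : List 𝕜) : M N (l₁ ++ l₂) ≤ M N l₁ + M N l₂ := by
  have e : l₁ ++ l₂ = List.zipWith (· + ·) (l₁ ++ List.replicate l₂.length 0)
      (List.replicate l₁.length 0 ++ l₂) := by
    rw [List.zipWith_append (by simp), zip_zero_right, zip_zero_left]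
  have h1 := M_add h (l₁ ++ List.replicate l₂.length 0) (List.replicate l₁.length 0 ++ l₂)
    (by simp)
  have h2 := M_zeros h l₂.length l₁ []
  have h3 := M_zeros h l₁.length [] l₂
  simp only [List.append_nil, List.nil_append] at h2 h3
  rw [← e, h2, h3] at h1
  exact h1

theorem M_rot (h : ESA N) (l : List 𝕜) (r : ℕ) : M N (l.rotate r) ≤ 2 * M N l := by
  rw [List.rotate_eq_drop_append_take_mod]
  set k := r % l.length
  have h1 := M_append h (l.drop k) (l.take k)
  have h2 := M_dropl h (l.take k) [] (l.drop k)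
  have h3 := M_dropl h (l.drop k) (l.take k) []
  simp only [List.append_nil, List.nil_append, List.take_append_drop] at h2 h3
  linarith

theorem zip_conv (t : 𝕜) (l : List 𝕜) :
    List.zipWith (· + ·) (l.map (t * ·)) (l.map ((1 - t) * ·)) = l := by
  induction l with
  | nil => rfl
  | cons a l ih =>
    rw [List.map_cons, List.map_cons, List.zipWith_cons_cons, ih]
    congr 1; ring

theorem M_one (h : ESA N) (t : ℝ) (h0 : 0 ≤ t) (h1 : t ≤ 1) (l₀ : List 𝕜) (a : 𝕜) (l : List 𝕜) :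
    M N (l₀ ++ ((t : 𝕜) * a) :: l) ≤ M N (l₀ ++ a :: l) := by
  have e : l₀ ++ ((t : 𝕜) * a) :: l = List.zipWith (· + ·)
      ((l₀ ++ a :: l).map ((t : 𝕜) * ·)) ((l₀ ++ 0 :: l).map ((1 - (t : 𝕜)) * ·)) := by
    rw [List.map_append, List.map_append, List.zipWith_append (by simp), zip_conv,
      List.map_cons, List.map_cons, List.zipWith_cons_cons, zip_conv]
    simp
  have h2 := M_add h ((l₀ ++ a :: l).map ((t : 𝕜) * ·)) ((l₀ ++ 0 :: l).map ((1 - (t : 𝕜)) * ·))
    (by simp)
  rw [← e, M_smul h, M_smul h, M_zero h] at h2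
  have n1 : ‖(t : 𝕜)‖ = t := by rw [RCLike.norm_ofReal, abs_of_nonneg h0]
  have n2 : ‖(1 - (t : 𝕜))‖ = 1 - t := by
    rw [show (1 - (t : 𝕜)) = ((1 - t : ℝ) : 𝕜) by push_cast; ring, RCLike.norm_ofReal,
      abs_of_nonneg (by linarith)]
  rw [n1, n2] at h2
  have h3 := M_drop h l₀ a l
  nlinarith

theorem M_mul (h : ESA N) : ∀ (m : ℕ) (θ : Fin m → ℝ) (a : Fin m → 𝕜) (l₀ : List 𝕜),
    (∀ c, 0 ≤ θ c) → (∀ c, θ c ≤ 1) →
    M N (l₀ ++ List.ofFn (fun c => (θ c : 𝕜) * a c)) ≤ M N (l₀ ++ List.ofFn a) := by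
  intro m
  induction m with
  | zero => intro θ a l₀ _ _; simp
  | succ m ih =>
    intro θ a l₀ h0 h1
    rw [List.ofFn_succ, List.ofFn_succ]
    have h2 := ih (fun c => θ c.succ) (fun c => a c.succ) (l₀ ++ [(θ 0 : 𝕜) * a 0])
      (fun c => h0 _) (fun c => h1 _)
    simp only [List.append_assoc, List.cons_append, List.nil_append] at h2
    exact h2.trans (M_one h _ (h0 0) (h1 0) _ _ _)

/-- The seminorm on finite tuples. -/
def D (N : List 𝕜 → ℝ) {m : ℕ} (a : Fin m → 𝕜) : ℝ := M N (List.ofFn a)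

theorem D_add (h : ESA N) {m : ℕ} (a b : Fin m → 𝕜) :
    D N (fun c => a c + b c) ≤ D N a + D N b := by
  unfold D
  have e : List.ofFn (fun c => a c + b c) = List.zipWith (· + ·) (List.ofFn a) (List.ofFn b) := by
    apply List.ext_getElem <;> simp
  rw [e]
  exact M_add h _ _ (by simp)

theorem D_smul (h : ESA N) {m : ℕ} (z : 𝕜) (a : Fin m → 𝕜) :
    D N (fun c => z * a c) = ‖z‖ * D N a := by
  unfold D
  rw [← M_smul h, List.map_ofFn]
  rfl

theorem D_nonneg (h : ESA N) {m : ℕ} (a : Fin m → 𝕜) : 0 ≤ D N a := h.nonneg _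

theorem D_sum (h : ESA N) {m : ℕ} {ι : Type} (s : Finset ι) (f : ι → Fin m → 𝕜) :
    D N (fun c => ∑ r ∈ s, f r c) ≤ ∑ r ∈ s, D N (f r) := by
  induction s using Finset.induction_on with
  | empty =>
    have := D_smul h 0 (fun _ : Fin m => (0 : 𝕜))
    simp only [zero_mul, norm_zero] at this
    simp [this]
  | insert r s hr ih =>
    simp only [Finset.sum_insert hr]
    exact (D_add h _ _).trans (by linarith)

theorem D_mul (h : ESA N) {m : ℕ} (θ : Fin m → ℝ) (a : Fin m → 𝕜) (hθ : ∀ c, |θ c| ≤ 1) :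
    D N (fun c => (θ c : 𝕜) * a c) ≤ 2 * D N a := by
  have h1 := M_mul h m (fun c => max (θ c) 0) a [] (fun c => le_max_right _ _)
    (fun c => max_le (le_of_abs_le (hθ c)) zero_le_one)
  have h2 := M_mul h m (fun c => max (-θ c) 0) a [] (fun c => le_max_right _ _)
    (fun c => max_le (by have := neg_le_of_abs_le (hθ c); linarith) zero_le_one)
  simp only [List.nil_append] at h1 h2
  have h3 := D_add h (fun c => ((max (θ c) 0 : ℝ) : 𝕜) * a c)
    (fun c => (-1 : 𝕜) * (((max (-θ c) 0 : ℝ) : 𝕜) * a c))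
  have h4 := D_smul h (-1 : 𝕜) (fun c => ((max (-θ c) 0 : ℝ) : 𝕜) * a c)
  have e : (fun c => ((max (θ c) 0 : ℝ) : 𝕜) * a c +
      (-1 : 𝕜) * (((max (-θ c) 0 : ℝ) : 𝕜) * a c)) = fun c => (θ c : 𝕜) * a c := by
    funext c
    have : θ c = max (θ c) 0 - max (-θ c) 0 := (max_zero_sub_max_neg_zero_eq_self _).symm
    conv_rhs => rw [this]
    push_cast; ring
  rw [e, h4, norm_neg, norm_one, one_mul] at h3
  unfold D at *
  linarith

theorem D_rot (h : ESA N) {n : ℕ} (a : Fin (n + 1) → 𝕜) (r : Fin (n + 1)) :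
    D N (fun c => a (c + r)) ≤ 2 * D N a := by
  unfold D
  have e : List.ofFn (fun c => a (c + r)) = (List.ofFn a).rotate r := by
    apply List.ext_getElem
    · simp
    · intro i h1 h2
      rw [List.getElem_rotate, List.getElem_ofFn, List.getElem_ofFn]
      congr 1
      apply Fin.ext
      simp [Fin.val_add]
  rw [e]
  exact M_rot h _ _

theorem D_total (h : ESA N) {n : ℕ} (a : Fin (n + 1) → 𝕜) :
    ‖∑ c, a c‖ * D N (fun _ : Fin (n + 1) => (1 : 𝕜)) ≤ 2 * (n + 1 : ℕ) * D N a := by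
  rw [← D_smul h]
  have e : (fun _ : Fin (n + 1) => (∑ c, a c) * 1) = fun c => ∑ r, a (c + r) := by
    funext c
    rw [mul_one]
    exact (Equiv.sum_comp (Equiv.addLeft c) a).symm
  rw [e]
  refine (D_sum h Finset.univ (fun r c => a (c + r))).trans ?_
  refine (Finset.sum_le_sum (fun r _ => D_rot h a r)).trans (le_of_eq ?_)
  simp only [Finset.sum_const, Finset.card_univ, Fintype.card_fin, nsmul_eq_mul]
  ring

theorem D_pos (h : ESA N) {n : ℕ} : 0 < D N (fun _ : Fin (n + 1) => (1 : 𝕜)) := by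
  unfold D
  rw [List.ofFn_succ]
  have h1 := M_dropl h (List.ofFn (fun _ : Fin n => (1 : 𝕜))) [1] []
  simp only [List.append_nil, List.cons_append, List.nil_append] at h1
  refine lt_of_lt_of_le ?_ h1
  unfold M
  rw [dl_cons, dl_nil]
  exact h.pos

/-- The blocks of coefficients. -/
def blocks {m L : ℕ} (ξ : Fin m → Fin L → 𝕜) : List 𝕜 :=
  (List.ofFn fun c => List.ofFn (ξ c) ++ [-∑ t, ξ c t]).flatten

theorem blocks_succ {m L : ℕ} (ξ : Fin (m + 1) → Fin L → 𝕜) :
    blocks ξ = (List.ofFn (ξ 0) ++ [-∑ t, ξ 0 t]) ++ blocks (fun c => ξ c.succ) := by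
  unfold blocks
  rw [List.ofFn_succ, List.flatten_cons]

theorem blocks_lower (h : ESA N) {L : ℕ} : ∀ (m : ℕ) (ξ : Fin m → Fin L → 𝕜) (s : Fin m → ℕ)
    (l₀ : List 𝕜),
    N (l₀ ++ dl (List.ofFn fun c => ∑ t : Fin L, if (t : ℕ) < s c then ξ c t else 0)) ≤
      N (l₀ ++ blocks ξ) := by
  intro m
  induction m with
  | zero => intro ξ s l₀; simp [blocks, dl]
  | succ m ih =>
    intro ξ s l₀
    rw [blocks_succ, List.ofFn_succ, dl_cons]
    have e : (∑ t : Fin L, if (t : ℕ) < s 0 then ξ 0 t else 0) =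
        ((List.ofFn (ξ 0)).take (s 0)).sum := by
      rw [List.sum_take_ofFn, Finset.sum_filter]
    have h1 := ih (fun c => ξ c.succ) (fun c => s c.succ)
      (l₀ ++ [((List.ofFn (ξ 0)).take (s 0)).sum, -((List.ofFn (ξ 0)).take (s 0)).sum])
    simp only [List.append_assoc, List.cons_append, List.nil_append] at h1
    rw [e]
    refine h1.trans ?_
    have h2 := N_block h (List.ofFn (ξ 0)) (s 0) l₀ (blocks fun c => ξ c.succ)
    rwa [List.sum_ofFn] at h2

theorem blocks_single (h : ESA N) {L : ℕ} : ∀ (m : ℕ) (α : Fin m → 𝕜) (t : Fin m → Fin L)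
    (l₀ : List 𝕜),
    N (l₀ ++ blocks (fun c t' => if t' = t c then α c else 0)) = N (l₀ ++ dl (List.ofFn α)) := by
  intro m
  induction m with
  | zero => intro α t l₀; simp [blocks, dl]
  | succ m ih =>
    intro α t l₀
    rw [blocks_succ, List.ofFn_succ, dl_cons, List.append_assoc, N_single h]
    have h1 := ih (fun c => α c.succ) (fun c => t c.succ) (l₀ ++ [α 0, -α 0])
    simp only [List.append_assoc, List.cons_append, List.nil_append] at h1
    rw [← h1]
    simp

/-- Coefficients on the long index set. -/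
def coef {m L : ℕ} (ξ : Fin m → Fin L → 𝕜) (i : Fin (m * (L + 1))) : 𝕜 :=
  (Fin.snoc (α := fun _ => 𝕜) (ξ (finProdFinEquiv.symm i).1)
    (-∑ t, ξ (finProdFinEquiv.symm i).1 t)) (finProdFinEquiv.symm i).2

theorem coef_apply {m L : ℕ} (ξ : Fin m → Fin L → 𝕜) (c : Fin m) (t : Fin (L + 1)) :
    coef ξ (finProdFinEquiv (c, t)) =
      (Fin.snoc (α := fun _ => 𝕜) (ξ c) (-∑ t, ξ c t)) t := by
  unfold coef
  rw [Equiv.symm_apply_apply]

theorem ofFn_coef {m L : ℕ} (ξ : Fin m → Fin L → 𝕜) : List.ofFn (coef ξ) = blocks ξ := by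
  rw [List.ofFn_mul]
  unfold blocks
  congr 1
  congr 1
  funext c
  have e : ∀ (j : Fin (L + 1)) (p : (c : ℕ) * (L + 1) + j < m * (L + 1)),
      coef ξ ⟨c * (L + 1) + j, p⟩ = (Fin.snoc (α := fun _ => 𝕜) (ξ c) (-∑ t, ξ c t)) j := by
    intro j p
    rw [← coef_apply]
    congr 1
    apply Fin.ext
    simp only [finProdFinEquiv_apply_val]
    ring
  simp only [e]
  rw [List.ofFn_succ_last]
  simp

theorem sum_coef {X : Type u} [NormedAddCommGroup X] [NormedSpace 𝕜 X] {m L : ℕ}
    (ξ : Fin m → Fin L → 𝕜) (y : Fin (m * (L + 1)) → X) :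
    ∑ i, coef ξ i • y i = ∑ c, ∑ t, ξ c t •
      (y (finProdFinEquiv (c, Fin.castSucc t)) - y (finProdFinEquiv (c, Fin.last L))) := by
  rw [← finProdFinEquiv.sum_comp, Fintype.sum_prod_type]
  refine Finset.sum_congr rfl fun c _ => ?_
  simp only [coef_apply]
  rw [Fin.sum_univ_castSucc]
  simp only [Fin.snoc_castSucc, Fin.snoc_last, smul_sub, Finset.sum_sub_distrib, neg_smul,
    Finset.sum_smul]
  abel

end Block1A

open Block1A in
theorem block1 (𝕜 : Type) [RCLike 𝕜] (X : Type u) [NormedAddCommGroup X] [NormedSpace 𝕜 X] :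
    S_Block1 𝕜 X := by
  rintro ⟨N, h, hR⟩ Φ m L
  rcases m with _ | n
  · refine ⟨fun c => c.elim0, fun _ _ c => c.elim0, ?_, ?_⟩
    · intro α t _; simp
    · intro ξ a s _; simp
  obtain ⟨y, hy1, hy2⟩ := hR Φ ((n + 1) * (L + 1))
  set φ : ℝ := D N (fun _ : Fin (n + 1) => (1 : 𝕜)) with hφ
  have hpos : 0 < φ := D_pos h
  set z : 𝕜 := (((4 * φ)⁻¹ : ℝ) : 𝕜) with hz
  have nz : ‖z‖ = (4 * φ)⁻¹ := by
    rw [hz, RCLike.norm_ofReal, abs_of_pos (by positivity)]
  set w : Fin (n + 1) → Fin L → X := fun c t =>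
    y (finProdFinEquiv (c, Fin.castSucc t)) - y (finProdFinEquiv (c, Fin.last L)) with hw
  have key : ∀ ξ : Fin (n + 1) → Fin L → 𝕜,
      ‖∑ c, ∑ t, ξ c t • (z • w c t)‖ = (4 * φ)⁻¹ * ‖∑ i, coef ξ i • y i‖ := by
    intro ξ
    rw [sum_coef, ← nz, ← norm_smul, Finset.smul_sum]
    congr 1
    refine Finset.sum_congr rfl fun c _ => ?_
    rw [Finset.smul_sum]
    exact Finset.sum_congr rfl fun t _ => smul_comm _ _ _
  refine ⟨fun c t => z • w c t, ?_, ?_, ?_⟩
  · intro ψ hψ c t
    simp only [hw, map_smul, map_sub]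
    rw [hy1 ψ hψ _ (finProdFinEquiv (c, Fin.last L)), sub_self, smul_zero]
  · intro α t hα
    have e : ∑ c, ((α c : ℝ) : 𝕜) • (z • w c (t c)) =
        ∑ c, ∑ t', (if t' = t c then ((α c : ℝ) : 𝕜) else 0) • (z • w c t') := by
      refine Finset.sum_congr rfl fun c _ => ?_
      simp [ite_smul]
    rw [e, key]
    have h1 := (hy2 (coef fun c t' => if t' = t c then ((α c : ℝ) : 𝕜) else 0)).2
    rw [ofFn_coef] at h1
    have h2 := blocks_single h (n + 1) (fun c => ((α c : ℝ) : 𝕜)) t []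
    simp only [List.nil_append] at h2
    rw [h2] at h1
    have h3 := D_mul h α (fun _ => (1 : 𝕜)) hα
    simp only [mul_one] at h3
    have h4 : N (dl (List.ofFn fun c => ((α c : ℝ) : 𝕜))) ≤ 2 * φ := h3
    rw [inv_mul_le_iff₀ (by positivity)]
    linarith
  · intro ξ a s ha
    rw [key]
    have h1 := (hy2 (coef ξ)).1
    rw [ofFn_coef] at h1
    have h2 := blocks_lower h (n + 1) ξ s []
    simp only [List.nil_append] at h2
    have h3 := D_mul h a (fun c => ∑ t : Fin L, if (t : ℕ) < s c then ξ c t else 0) ha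
    have h4 := D_total h
      (fun c => ((a c : ℝ) : 𝕜) * ∑ t : Fin L, if (t : ℕ) < s c then ξ c t else 0)
    have h5 : D N (fun c => ∑ t : Fin L, if (t : ℕ) < s c then ξ c t else 0) ≤
        2 * ‖∑ i, coef ξ i • y i‖ := h2.trans h1
    have hm : (0 : ℝ) ≤ ((n + 1 : ℕ) : ℝ) := by positivity
    have h6 : ‖∑ c, ((a c : ℝ) : 𝕜) * ∑ t : Fin L, if (t : ℕ) < s c then ξ c t else 0‖ * φ ≤
        8 * ((n + 1 : ℕ) : ℝ) * ‖∑ i, coef ξ i • y i‖ := by
      refine h4.trans ?_
      nlinarith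
    have e : 32 * ((n + 1 : ℕ) : ℝ) * ((4 * φ)⁻¹ * ‖∑ i, coef ξ i • y i‖) =
        (8 * ((n + 1 : ℕ) : ℝ) * ‖∑ i, coef ξ i • y i‖) / φ := by
      field_simp
      ring
    rw [e, le_div_iff₀ hpos]
    exact h6

end Pool.Agent.P.MP_c77070_an
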