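import Pool.Agent.P.MP_c77070_an.Basic

/-! An infinite chain of linked cells. -/

noncomputable section

namespace Pool.Agent.P.MP_c77070_an

open Filter Topology Finset
open scoped Classical ComplexConjugate

namespace ChainA

def Step (d : Dig) (P P' : (ℝ → ℝ) → ℝ) : Prop :=
  ∃ c : Cell d, (∀ F : ℝ → ℝ, ∑ n, F (c.win n) = P F) ∧ (∀ F : ℝ → ℝ, ∑ o, F (c.wout o) = P' F)

def nxt (T : ℕ → ℕ) (s : ℕ × ℕ) : ℕ × ℕ := if s.2 + 1 < T s.1 then (s.1, s.2 + 1) else (s.1 + 1, 0)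

theorem flat (d : ℕ → Dig) (T : ℕ → ℕ) (hT : ∀ j, 0 < T j) (P : ℕ → ℕ → (ℝ → ℝ) → ℝ)
    (hs : ∀ j n, Step (d j) (P j n) (P j (n + 1))) (hl : ∀ j, P j (T j) = P (j + 1) 0) :
    ∃ (s : ℕ → ℕ) (c : ∀ m, Cell (d (s m))), (∀ m, Link (c m) (c (m + 1))) ∧
      ∀ a : ℕ → ℝ, (∀ j, 0 ≤ a j) → Summable (fun j => (T j : ℝ) * a j) →
        Summable (fun m => a (s m)) := by
  set st : ℕ → ℕ × ℕ := fun m => (nxt T)^[m] (0, 0) with hst
  have e : ∀ m, st (m + 1) = nxt T (st m) := fun m => Function.iterate_succ_apply' _ _ _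
  have inv : ∀ m, (st m).2 < T (st m).1 ∧ ∑ i ∈ range (st m).1, T i + (st m).2 = m := by
    intro m
    induction m with
    | zero => exact ⟨hT 0, rfl⟩
    | succ m ih =>
      rw [e, nxt]
      split_ifs with h
      · exact ⟨h, by simp only; omega⟩
      · exact ⟨hT _, by simp only [sum_range_succ]; omega⟩
  have hP : ∀ m, P (st (m + 1)).1 (st (m + 1)).2 = P (st m).1 ((st m).2 + 1) := by
    intro m
    have h0 := (inv m).1
    rw [e, nxt]
    split_ifs with h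
    · rfl
    · rw [show (st m).2 + 1 = T (st m).1 by omega, hl]
  choose c h1 h2 using fun m => hs (st m).1 (st m).2
  refine ⟨fun m => (st m).1, c, fun m => link_of_prof _ _ fun F => ?_, fun a ha hsum => ?_⟩
  · rw [h2, h1, hP]
  · have hG : Summable (fun x : (Σ j, Fin (T j)) => a x.1) := by
      refine (summable_sigma_of_nonneg fun x => ha _).2 ⟨fun j => Summable.of_finite, ?_⟩
      simpa [tsum_fintype] using hsum
    have hinj : Function.Injective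
        (fun m => (⟨(st m).1, ⟨(st m).2, (inv m).1⟩⟩ : Σ j, Fin (T j))) :=
      Function.LeftInverse.injective (g := fun x => ∑ i ∈ range x.1, T i + (x.2 : ℕ))
        fun m => (inv m).2
    exact hG.comp_injective hinj

def prof (d : Dig) (q : ℕ) (M : d.Dg → ℕ) {Z : Type} [Fintype Z] (N : Z → ℕ) (μ : Z → ℝ)
    (F : ℝ → ℝ) : ℝ :=
  ∑ z, ∑ k ∈ d.Act, ((N z : ℝ) * (q : ℝ) ^ M k) *
    F (μ z / ((d.Act.card : ℝ) * ((N z : ℝ) * (q : ℝ) ^ M k)))

theorem step (hm : S_Mix) {d : Dig} {q t : ℕ} {M : d.Dg → ℕ}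
    (hg : ∀ τ ≤ t, Step d (gprof d q M) (gprof d q fun k => M k + τ))
    {Z : Type} [Fintype Z] {N N' : Z → ℕ} (hN : ∀ z, 0 < N z) {μ : Z → ℝ} (h0 : ∀ z, 0 ≤ μ z)
    (h1 : ∑ z, μ z = 1) (h : ∀ z, ∃ τ ≤ t, N' z = N z * q ^ τ) :
    Step d (prof d q M N μ) (prof d q M N' μ) := by
  choose τ hτ hN' using h
  choose c c1 c2 using fun z => hg (τ z) (hτ z)
  have hN0 : ∀ z, (N z : ℝ) ≠ 0 := fun z => by exact_mod_cast (hN z).ne'
  obtain ⟨c', a1, a2⟩ := hm d (Σ z, Fin (N z)) (fun x => μ x.1 / N x.1) (fun x => c x.1)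
    (fun x => div_nonneg (h0 _) (Nat.cast_nonneg _)) (by
      rw [Fintype.sum_sigma, ← h1]
      refine sum_congr rfl fun z _ => ?_
      simp only [sum_const, card_univ, Fintype.card_fin, nsmul_eq_mul]
      exact mul_div_cancel₀ _ (hN0 z))
  refine ⟨c', fun F => ?_, fun F => ?_⟩
  · rw [a1, Fintype.sum_sigma, prof]
    refine sum_congr rfl fun z _ => ?_
    change ∑ _i : Fin (N z), ∑ n, F (μ z / N z * (c z).win n) = _
    rw [sum_const, card_univ, Fintype.card_fin, nsmul_eq_mul,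
      c1 z fun x => F (μ z / N z * x), gprof, mul_sum]
    refine sum_congr rfl fun k _ => ?_
    rw [← mul_assoc]
    congr 2
    rw [div_mul_div_comm, mul_one]
    congr 1
    ring
  · rw [a2, Fintype.sum_sigma, prof]
    refine sum_congr rfl fun z _ => ?_
    change ∑ _i : Fin (N z), ∑ n, F (μ z / N z * (c z).wout n) = _
    rw [sum_const, card_univ, Fintype.card_fin, nsmul_eq_mul,
      c2 z fun x => F (μ z / N z * x), gprof, mul_sum, hN']
    refine sum_congr rfl fun k _ => ?_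
    rw [← mul_assoc, div_mul_div_comm, mul_one]
    push_cast
    exact congrArg₂ (· * ·) (by ring) (congrArg F (congrArg _ (by ring)))

structure Junk where
  Z : Type
  [fZ : Fintype Z]
  N : Z → ℕ
  hN : ∀ z, 0 < N z
  μ : Z → ℝ
  h0 : ∀ z, 0 ≤ μ z
  h1 : ∑ z, μ z = 1

attribute [instance] Junk.fZ

def Junk.ext (J : Junk) (d : Dig) (f : d.Dg → ℕ) (hf : ∀ k, 0 < f k) : Junk where
  Z := J.Z × d.Act
  N := fun x => J.N x.1 * f x.2
  hN := fun x => Nat.mul_pos (J.hN _) (hf _)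
  μ := fun x => J.μ x.1 / d.Act.card
  h0 := fun x => div_nonneg (J.h0 _) (Nat.cast_nonneg _)
  h1 := by
    rw [Fintype.sum_prod_type, ← J.h1]
    refine sum_congr rfl fun z _ => ?_
    simp only [sum_const, card_univ, Fintype.card_coe, nsmul_eq_mul]
    exact mul_div_cancel₀ _ d.act_pos.ne'

def Junk.pr (J : Junk) (d : Dig) (q : ℕ) (M : d.Dg → ℕ) : (ℝ → ℝ) → ℝ := prof d q M J.N J.μ

theorem pr_ext (J : Junk) (d d' : Dig) (q : ℕ) (M : d.Dg → ℕ) (f : d'.Dg → ℕ)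
    (hf : ∀ k, 0 < f k) (F : ℝ → ℝ) : (J.ext d' f hf).pr d q M F =
      ∑ z, ∑ p ∈ d'.Act, ∑ k ∈ d.Act, ((J.N z : ℝ) * f p * (q : ℝ) ^ M k) *
        F (J.μ z / d'.Act.card / ((d.Act.card : ℝ) * ((J.N z : ℝ) * f p * (q : ℝ) ^ M k))) := by
  change ∑ x : J.Z × d'.Act, ∑ k ∈ d.Act, (((J.N x.1 * f x.2 : ℕ) : ℝ) * (q : ℝ) ^ M k) *
    F (J.μ x.1 / d'.Act.card /
      ((d.Act.card : ℝ) * (((J.N x.1 * f x.2 : ℕ) : ℝ) * (q : ℝ) ^ M k))) = _
  rw [Fintype.sum_prod_type]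
  refine sum_congr rfl fun z _ => ?_
  push_cast
  exact sum_coe_sort d'.Act fun p => ∑ k ∈ d.Act, ((J.N z : ℝ) * f p * (q : ℝ) ^ M k) *
    F (J.μ z / d'.Act.card / ((d.Act.card : ℝ) * ((J.N z : ℝ) * f p * (q : ℝ) ^ M k)))

theorem pr_link (J : Junk) (d d' d'' : Dig) {q q' r : ℕ} (M : d.Dg → ℕ) (M' : d'.Dg → ℕ)
    (f : d'.Dg → ℕ) (hf : ∀ k, 0 < f k) (g : d.Dg → ℕ) (hg : ∀ k, 0 < g k)
    (e : d''.Dg → ℕ) (he : ∀ k, 0 < e k) (h1 : ∀ p, f p = q' ^ M' p * (d''.Act.card * r))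
    (h2 : ∀ k, g k = q ^ M k * r) (h3 : ∀ k, e k = 1) :
    (J.ext d' f hf).pr d q M = ((J.ext d g hg).ext d'' e he).pr d' q' M' := by
  funext F
  rw [pr_ext, pr_ext]
  change _ = ∑ x : J.Z × d.Act, ∑ s ∈ d''.Act, ∑ p ∈ d'.Act,
    (((J.N x.1 * g x.2 : ℕ) : ℝ) * e s * (q' : ℝ) ^ M' p) *
      F (J.μ x.1 / d.Act.card / d''.Act.card /
        ((d'.Act.card : ℝ) * (((J.N x.1 * g x.2 : ℕ) : ℝ) * e s * (q' : ℝ) ^ M' p)))
  rw [Fintype.sum_prod_type]
  refine sum_congr rfl fun z _ => ?_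
  rw [sum_comm, ← sum_coe_sort d.Act]
  refine sum_congr rfl fun k _ => ?_
  simp only [h1, h2, h3, sum_const, nsmul_eq_mul, mul_sum]
  refine sum_congr rfl fun p _ => ?_
  push_cast
  rw [← mul_assoc (d''.Act.card : ℝ), div_div, div_div, div_div]
  exact congrArg₂ (· * ·) (by ring) (congrArg F (congrArg _ (by ring)))

theorem b_ge (j : ℕ) : 8 * j + 8 ≤ 8 * 2 ^ j := by
  have := Nat.lt_two_pow_self (n := j)
  omega

theorem geo {a : ℕ → ℝ} (ha : ∀ j, 0 ≤ a j) (C : ℝ) (h : ∀ j, a j * 3 ^ (4 * j) ≤ C) :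
    Summable (fun j => ((6481 * (3 ^ j) ^ 3 : ℕ) : ℝ) * a j) := by
  refine Summable.of_nonneg_of_le (fun j => mul_nonneg (Nat.cast_nonneg _) (ha j)) (fun j => ?_)
    ((summable_geometric_of_lt_one (r := 1 / 3) (by norm_num) (by norm_num)).mul_left (6481 * C))
  have e : (3 : ℝ) ^ (4 * j) = (3 ^ j) ^ 3 * 3 ^ j := by ring
  have h3 : (0 : ℝ) < 3 ^ j := by positivity
  have h4 := h j
  rw [e] at h4
  rw [one_div, inv_pow, ← div_eq_mul_inv, le_div_iff₀ h3]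
  push_cast
  nlinarith

end ChainA

open ChainA in
theorem chain (hg : S_Gadget) (hm : S_Mix) : S_Chain := by
  choose d M hb hA hM hbad hc using fun j : ℕ => hg (3 ^ j) (8 * 2 ^ j)
    (Nat.one_le_pow _ _ (by norm_num)) (by have := b_ge j; omega)
  let J : ℕ → Junk := fun j => Nat.rec
    { Z := Unit, N := fun _ => 1, hN := fun _ => one_pos, μ := fun _ => 1,
      h0 := fun _ => zero_le_one, h1 := by simp }
    (fun j J => J.ext (d j) (fun k => (3 ^ (8 * 2 ^ j)) ^ M j k * 3 ^ (8 * 2 ^ j - 4 * (j + 2)))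
      fun _ => by positivity) j
  let P : ℕ → ℕ → (ℝ → ℝ) → ℝ := fun j n =>
    ((J j).ext (d (j + 1)) (fun p => (3 ^ (8 * 2 ^ j)) ^ min (2 * M (j + 1) p + 1) (n * 3 ^ j))
      fun _ => by positivity).pr (d j) (3 ^ (8 * 2 ^ j)) (M j)
  obtain ⟨s, c, h1, h2⟩ := flat d (fun j => 6481 * (3 ^ j) ^ 3) (fun j => by positivity) P
    (fun j n => by
      refine step hm (hc j) (Junk.hN _) (Junk.h0 _) (Junk.h1 _) fun x => ?_
      refine ⟨min (2 * M (j + 1) x.2 + 1) ((n + 1) * 3 ^ j) -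
        min (2 * M (j + 1) x.2 + 1) (n * 3 ^ j), ?_, ?_⟩
      · rw [Nat.add_mul, one_mul]
        generalize 3 ^ j = t
        omega
      · change (J j).N x.1 * (3 ^ (8 * 2 ^ j)) ^ min (2 * M (j + 1) x.2 + 1) ((n + 1) * 3 ^ j) =
          (J j).N x.1 * (3 ^ (8 * 2 ^ j)) ^ min (2 * M (j + 1) x.2 + 1) (n * 3 ^ j) * _
        rw [mul_assoc, ← pow_add]
        congr 2
        rw [Nat.add_mul, one_mul]
        generalize 3 ^ j = t
        omega)
    (fun j => by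
      refine pr_link (J j) (d j) (d (j + 1)) (d (j + 2)) (r := 3 ^ (8 * 2 ^ j - 4 * (j + 2)))
        (M j) (M (j + 1)) _ _ _ _ _ _ (fun p => ?_) (fun k => rfl) (fun k => by simp)
      have a1 := hM (j + 1) p
      have a2 : 0 < (3 ^ j) ^ 4 := by positivity
      have a3 : 2 * M (j + 1) p + 1 ≤ 6481 * (3 ^ j) ^ 3 * 3 ^ j := by
        have e1 : (3 ^ (j + 1)) ^ 4 = 81 * (3 ^ j) ^ 4 := by ring
        have e2 : 6481 * (3 ^ j) ^ 3 * 3 ^ j = 6481 * (3 ^ j) ^ 4 := by ring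
        omega
      have a4 := b_ge j
      rw [min_eq_left a3, hA]
      simp only [← pow_mul, ← pow_add]
      congr 1
      rw [show (j + 2) * 4 + (8 * 2 ^ j - 4 * (j + 2)) = 8 * 2 ^ j by omega]
      ring)
  have key : ∀ j : ℕ, (3 : ℝ) ^ (4 * j) * 3 ^ (4 * j) ≤ 3 ^ (8 * 2 ^ j) := fun j => by
    rw [← pow_add]
    exact pow_le_pow_right₀ (by norm_num) (by have := b_ge j; omega)
  refine ⟨fun m => d (s m), c, h1,
    h2 (fun j => 1 / ((d j).Act.card : ℝ)) (fun j => by positivity) ?_,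
    h2 (fun j => (d j).bad) (fun j => (d j).bad_nonneg) ?_,
    h2 (fun j => (1 / 3 : ℝ) ^ (d j).b) (fun j => by positivity) ?_⟩
  · refine geo (fun j => by positivity) 1 fun j => ?_
    rw [hA]
    push_cast
    rw [← pow_mul, mul_comm j, one_div, inv_mul_cancel₀ (by positivity)]
  · refine geo (fun j => (d j).bad_nonneg) 27 fun j => ?_
    have a1 := hbad j
    push_cast at a1
    rw [← pow_mul, mul_comm j, le_div_iff₀ (by positivity)] at a1
    have a2 := key j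
    have a3 := (d j).bad_nonneg
    have a4 : (0 : ℝ) < 3 ^ (4 * j) := by positivity
    have a5 := mul_le_mul_of_nonneg_left a2 a3
    refine le_of_mul_le_mul_right ?_ a4
    linarith
  · refine geo (fun j => by positivity) 1 fun j => ?_
    rw [hb, one_div, inv_pow, inv_mul_le_iff₀ (by positivity), mul_one]
    refine le_trans ?_ (key j)
    exact le_mul_of_one_le_right (by positivity) (one_le_pow₀ (by norm_num))

end Pool.Agent.P.MP_c77070_an
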