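import Pool.Agent.P.MP_c77070_an.Basic

/-! From a chain of cells to a staged system: three interleaved tracks. -/

noncomputable section

namespace Pool.Agent.P.MP_c77070_an

open Filter Topology Finset
open scoped Classical ComplexConjugate

namespace ChainSysA

/-- Restriction to the first coordinates. -/
def res (b r : ℕ) : KB b →+ KB r where
  toFun v t := if h : (t : ℕ) < b then v ⟨t, h⟩ else 0
  map_zero' := by funext t; simp
  map_add' v w := by
    funext t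
    by_cases h : (t : ℕ) < b <;> simp [h]

theorem res_surj {b r : ℕ} (h : r ≤ b) : Function.Surjective (res b r) := fun w =>
  ⟨fun s => if hs : (s : ℕ) < r then w ⟨s, hs⟩ else 0, funext fun t => by
    have h1 : (t : ℕ) < b := lt_of_lt_of_le t.2 h
    simp [res, h1]⟩

theorem fubini (d : Dig) {O W N : Type} [Fintype O] [Fintype W] [Fintype N] (a : O → ℝ)
    (pw : W → ℝ) (b : N → ℝ) (G : O → N → Prop) (s : d.D) (F : O × W × N → d.E → ℂ) :
    d.S (fun ω : O × W × N => a ω.1 * pw ω.2.1 * b ω.2.2)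
      (fun ω k e => d.ge k e ∧ G ω.1 ω.2.2) s F =
      ∑ o, ∑ n, if G o n then (a o : ℂ) * b n *
        d.S pw (fun _ => d.ge) s (fun w e => F (o, w, n) e) else 0 := by
  unfold Dig.S
  rw [Fintype.sum_prod_type]
  refine sum_congr rfl fun o _ => ?_
  rw [Fintype.sum_prod_type, sum_comm]
  refine sum_congr rfl fun n _ => ?_
  by_cases h : G o n
  · simp only [h, and_true, if_true, mul_sum]
    refine sum_congr rfl fun w _ => sum_congr rfl fun k _ => sum_congr rfl fun e _ => ?_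
    split_ifs
    · push_cast
      ring
    · simp
  · simp [h]

theorem sum_sub {α M : Type} [Fintype α] [AddCommMonoid M] (P : α → Prop) (f : α → M) :
    ∑ a : {a // P a}, f a = ∑ a, if P a then f a else 0 := by
  rw [← sum_filter]
  exact (sum_subtype _ (by simp) f).symm

theorem sum_xi {O O' N M : Type} [Fintype O] [Fintype O'] [Fintype N] [AddCommMonoid M]
    (P : O' → Prop) (Q : N → Prop) (f : O → O' → N → M) :
    ∑ ξ : O × {o // P o} × {n // Q n}, f ξ.1 ξ.2.1 ξ.2.2 =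
      ∑ o, ∑ o', ∑ n, if P o' ∧ Q n then f o o' n else 0 := by
  rw [Fintype.sum_prod_type]
  refine sum_congr rfl fun o _ => ?_
  rw [Fintype.sum_prod_type, sum_sub P fun o' => ∑ n : {n // Q n}, f o o' n]
  refine sum_congr rfl fun o' _ => ?_
  by_cases h : P o'
  · rw [if_pos h, sum_sub Q (f o o')]
    simp [h]
  · simp [h]

theorem summable_div {a : ℕ → ℝ} (h0 : ∀ n, 0 ≤ a n) (h : Summable a) :
    Summable fun m => a (m / 3) := by
  have key : ∀ n, ∑ m ∈ range (3 * n), a (m / 3) = 3 * ∑ j ∈ range n, a j := fun n => by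
    induction n with
    | zero => simp
    | succ n ih =>
      rw [show 3 * (n + 1) = 3 * n + 1 + 1 + 1 by ring, sum_range_succ, sum_range_succ,
        sum_range_succ, ih, sum_range_succ, show 3 * n / 3 = n by omega,
        show (3 * n + 1) / 3 = n by omega, show (3 * n + 1 + 1) / 3 = n by omega]
      ring
  refine summable_of_sum_range_le (c := 3 * ∑' j, a j) (fun m => h0 _) fun n => ?_
  refine (sum_le_sum_of_subset_of_nonneg (range_subset_range.2 (show n ≤ 3 * n by omega))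
    fun m _ _ => h0 _).trans ?_
  rw [key]
  exact mul_le_mul_of_nonneg_left (h.sum_le_tsum _ fun _ _ => h0 _) (by norm_num)

variable (d : ℕ → Dig) (c : ∀ m, Cell (d m)) (Ψ : ∀ m, (c m).Out ≃ (c (m + 3)).In)

/-- The rank of the killing variables. -/
def rk (m : ℕ) : ℕ := min (d (m - 1)).b (d (m + 1)).b

abbrev AA (m : ℕ) : Type := (c m).Λ × (c (m + 1)).Λ × (c (m + 2)).Λ

abbrev KK (m : ℕ) : Type := KB (rk d m)

abbrev Om (i : ℕ) : Type := (c (i + 1)).Out × (c (i + 2)).W × (c (i + 3)).In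

abbrev Xi (i : ℕ) : Type :=
  (c (i + 1)).Out × {o // (c (i + 2)).gO o} × {n // (c (i + 3)).gI n}

theorem sum_rho (i : ℕ) : ∑ ξ : Xi d c i,
    (c (i + 1)).wout ξ.1 * (c (i + 2)).wout ξ.2.1 * (c (i + 3)).win ξ.2.2 =
      (1 - (d (i + 2)).bad) * (1 - (d (i + 3)).bad) := by
  rw [sum_xi (c (i + 2)).gO (c (i + 3)).gI fun o o' n =>
    (c (i + 1)).wout o * (c (i + 2)).wout o' * (c (i + 3)).win n, ← (c (i + 2)).mass_gO,
    ← (c (i + 3)).mass_gI, ← one_mul (_ * _ : ℝ), ← (c (i + 1)).wout1, sum_mul]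
  refine sum_congr rfl fun o _ => ?_
  rw [sum_mul, mul_sum]
  refine sum_congr rfl fun o' _ => ?_
  rw [mul_sum, mul_sum]
  refine sum_congr rfl fun n _ => ?_
  by_cases h : (c (i + 2)).gO o' <;> by_cases h' : (c (i + 3)).gI n <;> simp [h, h', mul_assoc]

theorem law_out (i : ℕ) (F : AA d c i × KK d i → AA d c (i + 1) × KK d (i + 1) →
    AA d c (i + 2) × KK d (i + 4) → KK d (i + 3) → ℂ) :
    (d (i + 2)).S (fun ω : Om d c i =>
        (c (i + 1)).wout ω.1 * (c (i + 2)).pw ω.2.1 * (c (i + 3)).win ω.2.2)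
      (fun ω k e => (d (i + 2)).ge k e ∧ (c (i + 3)).gI ω.2.2) (-(d (i + 2)).u)
      (fun ω e => F
        (((c i).outl ((Ψ i).symm ω.2.2), (c (i + 1)).outl ω.1, (c (i + 2)).lab ω.2.1 e),
          res _ _ ((c (i + 1)).dO ω.1))
        (((c (i + 1)).outl ω.1, (c (i + 2)).lab ω.2.1 e, (c (i + 3)).inl ω.2.2),
          res _ _ ((c (i + 2)).kin ω.2.1))
        (((c (i + 2)).lab ω.2.1 e, (c (i + 3)).inl ω.2.2, (c (i + 4)).inl (Ψ (i + 1) ω.1)),
          res _ _ ((c (i + 3)).dI ω.2.2))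
        (res _ _ ((c (i + 2)).kout ω.2.1))) =
    ∑ ξ : Xi d c i,
      (((c (i + 1)).wout ξ.1 * (c (i + 2)).wout ξ.2.1 * (c (i + 3)).win ξ.2.2 : ℝ) : ℂ) * avg (F
        (((c i).outl ((Ψ i).symm ξ.2.2), (c (i + 1)).outl ξ.1, (c (i + 2)).outl ξ.2.1),
          res _ _ ((c (i + 1)).dO ξ.1))
        (((c (i + 1)).outl ξ.1, (c (i + 2)).outl ξ.2.1, (c (i + 3)).inl ξ.2.2),
          res _ _ ((c (i + 2)).dO ξ.2.1))
        (((c (i + 2)).outl ξ.2.1, (c (i + 3)).inl ξ.2.2, (c (i + 4)).inl (Ψ (i + 1) ξ.1)),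
          res _ _ ((c (i + 3)).dI ξ.2.2))) := by
  rw [fubini (d (i + 2)) (c (i + 1)).wout (c (i + 2)).pw (c (i + 3)).win
    (fun _ n => (c (i + 3)).gI n), sum_xi (c (i + 2)).gO (c (i + 3)).gI fun o o' n =>
      (((c (i + 1)).wout o * (c (i + 2)).wout o' * (c (i + 3)).win n : ℝ) : ℂ) * avg (F
        (((c i).outl ((Ψ i).symm n), (c (i + 1)).outl o, (c (i + 2)).outl o'),
          res _ _ ((c (i + 1)).dO o))
        (((c (i + 1)).outl o, (c (i + 2)).outl o', (c (i + 3)).inl n), res _ _ ((c (i + 2)).dO o'))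
        (((c (i + 2)).outl o', (c (i + 3)).inl n, (c (i + 4)).inl (Ψ (i + 1) o)),
          res _ _ ((c (i + 3)).dI n)))]
  refine sum_congr rfl fun o _ => ?_
  rw [sum_comm]
  refine sum_congr rfl fun n _ => ?_
  by_cases h : (c (i + 3)).gI n
  · rw [if_pos h, (c (i + 2)).lawO fun l κ κ' => F
        (((c i).outl ((Ψ i).symm n), (c (i + 1)).outl o, l), res _ _ ((c (i + 1)).dO o))
        (((c (i + 1)).outl o, l, (c (i + 3)).inl n), res _ _ κ)
        ((l, (c (i + 3)).inl n, (c (i + 4)).inl (Ψ (i + 1) o)), res _ _ ((c (i + 3)).dI n))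
        (res _ _ κ'), mul_sum]
    refine sum_congr rfl fun o' _ => ?_
    by_cases h' : (c (i + 2)).gO o'
    · rw [if_pos h', if_pos ⟨h', h⟩, avg_comp_surj (res (d (i + 2)).b (rk d (i + 3)))
        (res_surj (min_le_left _ _))]
      push_cast
      ring
    · simp [h']
  · simp [h]

theorem law_in (hΨ : ∀ m o, (c (m + 3)).win (Ψ m o) = (c m).wout o) (i : ℕ)
    (F : AA d c (i + 1) × KK d (i + 1) → AA d c (i + 2) × KK d (i + 4) →
      AA d c (i + 3) × KK d (i + 5) → KK d (i + 2) → ℂ) :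
    (d (i + 3)).S (fun ω : Om d c (i + 1) =>
        (c (i + 2)).wout ω.1 * (c (i + 3)).pw ω.2.1 * (c (i + 4)).win ω.2.2)
      (fun ω k e => (d (i + 3)).ge k e ∧ (c (i + 2)).gO ω.1) (d (i + 3)).u
      (fun ω e => F
        (((c (i + 1)).outl ((Ψ (i + 1)).symm ω.2.2), (c (i + 2)).outl ω.1,
          (c (i + 3)).lab ω.2.1 e), res _ _ ((c (i + 2)).dO ω.1))
        (((c (i + 2)).outl ω.1, (c (i + 3)).lab ω.2.1 e, (c (i + 4)).inl ω.2.2),
          res _ _ ((c (i + 3)).kout ω.2.1))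
        (((c (i + 3)).lab ω.2.1 e, (c (i + 4)).inl ω.2.2, (c (i + 5)).inl (Ψ (i + 2) ω.1)),
          res _ _ ((c (i + 4)).dI ω.2.2))
        (res _ _ ((c (i + 3)).kin ω.2.1))) =
    ∑ ξ : Xi d c i,
      (((c (i + 1)).wout ξ.1 * (c (i + 2)).wout ξ.2.1 * (c (i + 3)).win ξ.2.2 : ℝ) : ℂ) * avg (F
        (((c (i + 1)).outl ξ.1, (c (i + 2)).outl ξ.2.1, (c (i + 3)).inl ξ.2.2),
          res _ _ ((c (i + 2)).dO ξ.2.1))
        (((c (i + 2)).outl ξ.2.1, (c (i + 3)).inl ξ.2.2, (c (i + 4)).inl (Ψ (i + 1) ξ.1)),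
          res _ _ ((c (i + 3)).dI ξ.2.2))
        (((c (i + 3)).inl ξ.2.2, (c (i + 4)).inl (Ψ (i + 1) ξ.1),
          (c (i + 5)).inl (Ψ (i + 2) ξ.2.1)), res _ _ ((c (i + 4)).dI (Ψ (i + 1) ξ.1)))) := by
  rw [fubini (d (i + 3)) (c (i + 2)).wout (c (i + 3)).pw (c (i + 4)).win
    (fun o _ => (c (i + 2)).gO o), sum_xi (c (i + 2)).gO (c (i + 3)).gI fun o o' n =>
      (((c (i + 1)).wout o * (c (i + 2)).wout o' * (c (i + 3)).win n : ℝ) : ℂ) * avg (F
        (((c (i + 1)).outl o, (c (i + 2)).outl o', (c (i + 3)).inl n), res _ _ ((c (i + 2)).dO o'))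
        (((c (i + 2)).outl o', (c (i + 3)).inl n, (c (i + 4)).inl (Ψ (i + 1) o)),
          res _ _ ((c (i + 3)).dI n))
        (((c (i + 3)).inl n, (c (i + 4)).inl (Ψ (i + 1) o), (c (i + 5)).inl (Ψ (i + 2) o')),
          res _ _ ((c (i + 4)).dI (Ψ (i + 1) o)))), sum_comm]
  refine ((Ψ (i + 1)).sum_comp _).symm.trans (sum_congr rfl fun o _ => ?_)
  refine sum_congr rfl fun o' _ => ?_
  by_cases h : (c (i + 2)).gO o'
  · rw [if_pos h, (c (i + 3)).lawI fun l κ κ' => F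
        (((c (i + 1)).outl ((Ψ (i + 1)).symm (Ψ (i + 1) o)), (c (i + 2)).outl o', l),
          res _ _ ((c (i + 2)).dO o'))
        (((c (i + 2)).outl o', l, (c (i + 4)).inl (Ψ (i + 1) o)), res _ _ κ)
        ((l, (c (i + 4)).inl (Ψ (i + 1) o), (c (i + 5)).inl (Ψ (i + 2) o')),
          res _ _ ((c (i + 4)).dI (Ψ (i + 1) o)))
        (res _ _ κ'), mul_sum, Equiv.symm_apply_apply, hΨ (i + 1) o]
    refine sum_congr rfl fun n _ => ?_
    by_cases h' : (c (i + 3)).gI n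
    · rw [if_pos h', if_pos ⟨h, h'⟩, avg_comp_surj (res (d (i + 3)).b (rk d (i + 2)))
        (res_surj (min_le_right _ _))]
      push_cast
      ring
    · simp [h']
  · simp [h]

theorem sum_rk (h3 : Summable fun n => (1 / 3 : ℝ) ^ (d n).b) :
    Summable fun i => 1 / (Fintype.card (KK d i) : ℝ) := by
  have h4 : Summable fun n => (1 / 3 : ℝ) ^ (d (n - 1)).b := (summable_nat_add_iff 1).1 h3
  have h5 : Summable fun n => (1 / 3 : ℝ) ^ (d (n + 1)).b := (summable_nat_add_iff 1).2 h3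
  refine (h4.add h5).of_nonneg_of_le (fun i => by positivity) fun i => ?_
  have e : 1 / (Fintype.card (KK d i) : ℝ) = (1 / 3 : ℝ) ^ rk d i := by simp
  rw [e, rk]
  rcases min_choice (d (i - 1)).b (d (i + 1)).b with h | h <;> rw [h]
  · exact le_add_of_nonneg_right (by positivity)
  · exact le_add_of_nonneg_left (by positivity)

/-- The system attached to three interleaved tracks. -/
def sys (hΨ : ∀ m o, (c (m + 3)).win (Ψ m o) = (c m).wout o)
    (h1 : Summable fun n => 1 / ((d n).Act.card : ℝ)) (h2 : Summable fun n => (d n).bad)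
    (h3 : Summable fun n => (1 / 3 : ℝ) ^ (d n).b) : Sys where
  d i := d (i + 2)
  A := AA d c
  K := KK d
  Ω := Om d c
  Ξ := Xi d c
  p i ω := (c (i + 1)).wout ω.1 * (c (i + 2)).pw ω.2.1 * (c (i + 3)).win ω.2.2
  p0 i ω := mul_nonneg (mul_nonneg ((c _).wout0 _) ((c _).pw0 _)) ((c _).win0 _)
  p1 i := by
    simp only [Fintype.sum_prod_type, ← mul_sum, ← sum_mul, Cell.win1, Cell.pw1, Cell.wout1,
      mul_one]
  bw i ω e := ((c i).outl ((Ψ i).symm ω.2.2), (c (i + 1)).outl ω.1, (c (i + 2)).lab ω.2.1 e)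
  x i ω e := ((c (i + 1)).outl ω.1, (c (i + 2)).lab ω.2.1 e, (c (i + 3)).inl ω.2.2)
  fw i ω e := ((c (i + 2)).lab ω.2.1 e, (c (i + 3)).inl ω.2.2, (c (i + 4)).inl (Ψ (i + 1) ω.1))
  abw i ω := (IsAff.const _).prod ((IsAff.const _).prod ((c _).aff _))
  ax i ω := (IsAff.const _).prod (((c _).aff _).prod (IsAff.const _))
  afw i ω := ((c _).aff _).prod (IsAff.const _)
  cb i ω := res _ _ ((c (i + 1)).dO ω.1)
  km i ω := res _ _ ((c (i + 2)).kin ω.2.1)
  kp i ω := res _ _ ((c (i + 2)).kout ω.2.1)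
  cf i ω := res _ _ ((c (i + 3)).dI ω.2.2)
  gin i ω k e := (d (i + 2)).ge k e ∧ (c (i + 1)).gO ω.1
  gout i ω k e := (d (i + 2)).ge k e ∧ (c (i + 3)).gI ω.2.2
  ϱ i ξ := (c (i + 1)).wout ξ.1 * (c (i + 2)).wout ξ.2.1 * (c (i + 3)).win ξ.2.2
  ob i ξ := (((c i).outl ((Ψ i).symm ξ.2.2), (c (i + 1)).outl ξ.1, (c (i + 2)).outl ξ.2.1),
    res _ _ ((c (i + 1)).dO ξ.1))
  o i ξ := (((c (i + 1)).outl ξ.1, (c (i + 2)).outl ξ.2.1, (c (i + 3)).inl ξ.2.2),
    res _ _ ((c (i + 2)).dO ξ.2.1))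
  n i ξ := (((c (i + 2)).outl ξ.2.1, (c (i + 3)).inl ξ.2.2, (c (i + 4)).inl (Ψ (i + 1) ξ.1)),
    res _ _ ((c (i + 3)).dI ξ.2.2))
  nf i ξ := (((c (i + 3)).inl ξ.2.2, (c (i + 4)).inl (Ψ (i + 1) ξ.1),
    (c (i + 5)).inl (Ψ (i + 2) ξ.2.1)), res _ _ ((c (i + 4)).dI (Ψ (i + 1) ξ.1)))
  lawOut := law_out d c Ψ
  lawIn := law_in d c Ψ hΨ
  C1 := by
    rintro i ⟨o0, ⟨o1, g1⟩, ⟨n2, g2⟩⟩ ⟨o, w, n⟩ e
    simp only [Prod.mk.injEq]
    constructor
    · rintro ⟨⟨e1, e2, e3⟩, -⟩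
      obtain rfl := (c _).outl_inj e1
      obtain rfl := (c _).inl_inj e3
      exact ⟨⟨e2, rfl, rfl⟩, rfl⟩
    · rintro ⟨⟨e1, e2, e3⟩, -⟩
      obtain rfl := (Ψ _).injective ((c _).inl_inj e3)
      exact ⟨⟨rfl, e1, e2⟩, by rw [(c _).detO w e o1 g1 e1]⟩
  C2 := by
    rintro i ⟨o0, ⟨o1, g1⟩, ⟨n2, g2⟩⟩ ⟨o, w, n⟩ e
    simp only [Prod.mk.injEq]
    constructor
    · rintro ⟨⟨e1, e2, e3⟩, -⟩
      obtain rfl := (c _).outl_inj e1
      exact ⟨⟨e2, e3, by rw [Equiv.apply_symm_apply]⟩, by rw [(c _).detI w e n2 g2 e3]⟩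
    · rintro ⟨⟨e1, e2, e3⟩, -⟩
      obtain rfl := (c _).outl_inj e1
      obtain rfl := (c _).inl_inj e3
      exact ⟨⟨by rw [Equiv.symm_apply_apply], rfl, e2⟩, rfl⟩
  C3 i ξ ω e h := (c (i + 3)).disj _ _ (congrArg (fun z => z.2.1) h)
  C4 i ξ ω e h := (c (i + 3)).disj _ _ (congrArg (fun z => z.2.1) h).symm
  s1 := (summable_nat_add_iff 2).2 h1
  s2 := by
    refine (((summable_nat_add_iff 2).2 h2).add ((summable_nat_add_iff 3).2 h2)).of_nonneg_of_le
      (fun i => ?_) fun i => ?_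
    · rw [sum_rho]
      nlinarith [(d (i + 2)).bad_nonneg, (d (i + 3)).bad_nonneg, (d (i + 2)).bad_le_one,
        (d (i + 3)).bad_le_one]
    · rw [sum_rho]
      nlinarith [mul_nonneg (d (i + 2)).bad_nonneg (d (i + 3)).bad_nonneg]
  s3 := sum_rk d h3

end ChainSysA

theorem chainSys : S_ChainSys := by
  rintro ⟨d, c, hl, h1, h2, h3⟩
  have hl' : ∀ n n', n' = n + 1 → Link (c n) (c n') := by
    rintro n _ rfl
    exact hl n
  choose Ψ hΨ using fun m => hl' (m / 3) ((m + 3) / 3) (by omega)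
  exact ⟨ChainSysA.sys (fun m => d (m / 3)) (fun m => c (m / 3)) Ψ hΨ
    (ChainSysA.summable_div (a := fun n => 1 / ((d n).Act.card : ℝ)) (fun _ => by positivity) h1)
    (ChainSysA.summable_div (a := fun n => (d n).bad) (fun n => (d n).bad_nonneg) h2)
    (ChainSysA.summable_div (a := fun n => (1 / 3 : ℝ) ^ (d n).b) (fun _ => by positivity) h3)⟩

end Pool.Agent.P.MP_c77070_an
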