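import Pool.Agent.P.MP_c77070_an.Basic

/-! Consistency of the outgoing and incoming functionals, and the traces. -/

noncomputable section

namespace Pool.Agent.P.MP_c77070_an

open Filter Topology Finset
open scoped Classical ComplexConjugate

namespace ConsA

theorem outA (s : Sys) (i : ℕ) (g : s.Pt i) (v : s.W)
    (Φ : s.A i × s.K i → s.A (i + 1) × s.K (i + 1) → s.A (i + 2) × s.K (i + 4) → ℂ)
    (ζ : Ch (s.K (i + 3)))
    (h : ∀ ω e, v i g.2.2.1 ω e = Φ (s.bw i ω e, s.cb i ω) (s.x i ω e, s.km i ω)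
      (s.fw i ω e, s.cf i ω) * ζ (s.kp i ω)) :
    s.FOut i g v = (Fintype.card (s.Pt i) : ℂ)⁻¹ *
      ∑ ξ, conj (g.1 (s.o i ξ).1 * g.2.1 (s.o i ξ).2) *
        if (g.2.2.1 ≠ 0 ∧ g.2.2.2 ≠ 0) ∧ g.2.2.2 = ζ then
          (s.ϱ i ξ : ℂ) * Φ (s.ob i ξ) (s.o i ξ) (s.n i ξ) else 0 := by
  unfold Sys.FOut
  by_cases h0 : g.2.2.1 ≠ 0 ∧ g.2.2.2 ≠ 0
  · rw [if_pos h0]
    congr 1
    have := s.lawOut i fun ob o n κ =>
      (conj (g.1 o.1 * g.2.1 o.2) * Φ ob o n) * (conj (g.2.2.2 κ) * ζ κ)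
    refine Eq.trans (Dig.S_congr _ _ _ _ fun ω k _ e _ => ?_) (this.trans ?_)
    · rw [h, Sys.ownv]
      simp only [map_mul]
      ring
    · refine sum_congr rfl fun ξ _ => ?_
      rw [avg_mul_left, avg_ch]
      by_cases h1 : g.2.2.2 = ζ
      · rw [if_pos h1, if_pos ⟨h0, h1⟩]; ring
      · rw [if_neg h1, if_neg fun h2 => h1 h2.2]; ring
  · rw [if_neg h0, sum_eq_zero fun ξ _ => by rw [if_neg fun h2 => h0 h2.1, mul_zero], mul_zero]

theorem inA (s : Sys) (i : ℕ) (g : s.Pt (i + 1)) (v : s.W)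
    (Φ : s.A (i + 1) × s.K (i + 1) → s.A (i + 2) × s.K (i + 4) → s.A (i + 3) × s.K (i + 5) → ℂ)
    (ζ : Ch (s.K (i + 2)))
    (h : ∀ ω e, v (i + 1) g.2.2.1 ω e = Φ (s.bw (i + 1) ω e, s.cb (i + 1) ω)
      (s.x (i + 1) ω e, s.kp (i + 1) ω) (s.fw (i + 1) ω e, s.cf (i + 1) ω) *
        ζ (s.km (i + 1) ω)) :
    s.FIn (i + 1) g v = (Fintype.card (s.Pt (i + 1)) : ℂ)⁻¹ *
      ∑ ξ, conj (g.1 (s.n i ξ).1 * g.2.2.2 (s.n i ξ).2) *
        if (g.2.1 ≠ 0 ∧ g.2.2.1 ≠ 0) ∧ g.2.1 = ζ then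
          (s.ϱ i ξ : ℂ) * Φ (s.o i ξ) (s.n i ξ) (s.nf i ξ) else 0 := by
  unfold Sys.FIn
  by_cases h0 : g.2.1 ≠ 0 ∧ g.2.2.1 ≠ 0
  · rw [if_pos ⟨Nat.succ_ne_zero i, h0.2, h0.1⟩]
    congr 1
    have := s.lawIn i fun o n nf κ =>
      (conj (g.1 n.1 * g.2.2.2 n.2) * Φ o n nf) * (conj (g.2.1 κ) * ζ κ)
    refine Eq.trans (Dig.S_congr _ _ _ _ fun ω k _ e _ => ?_) (this.trans ?_)
    · rw [h, Sys.ownv]
      simp only [map_mul]
      ring
    · refine sum_congr rfl fun ξ _ => ?_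
      rw [avg_mul_left, avg_ch]
      by_cases h1 : g.2.1 = ζ
      · rw [if_pos h1, if_pos ⟨h0, h1⟩]; ring
      · rw [if_neg h1, if_neg fun h2 => h1 h2.2]; ring
  · rw [if_neg fun h2 => h0 ⟨h2.2.2, h2.2.1⟩,
      sum_eq_zero fun ξ _ => by rw [if_neg fun h2 => h0 h2.1, mul_zero], mul_zero]

theorem out0 (s : Sys) (i : ℕ) (g : s.Pt i) (v : s.W)
    (Φ : s.A i × s.K i → s.A (i + 1) × s.K (i + 1) → s.A (i + 2) × s.K (i + 4) → ℂ)
    (h : ∀ ω e, v i g.2.2.1 ω e = Φ (s.bw i ω e, s.cb i ω) (s.x i ω e, s.km i ω)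
      (s.fw i ω e, s.cf i ω)) : s.FOut i g v = 0 := by
  rw [outA s i g v Φ 0 fun ω e => by rw [h, AddChar.zero_apply, mul_one],
    sum_eq_zero fun ξ _ => by rw [if_neg fun h2 => h2.1.2 h2.2, mul_zero], mul_zero]

theorem in0 (s : Sys) (i : ℕ) (g : s.Pt (i + 1)) (v : s.W)
    (Φ : s.A (i + 1) × s.K (i + 1) → s.A (i + 2) × s.K (i + 4) → s.A (i + 3) × s.K (i + 5) → ℂ)
    (h : ∀ ω e, v (i + 1) g.2.2.1 ω e = Φ (s.bw (i + 1) ω e, s.cb (i + 1) ω)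
      (s.x (i + 1) ω e, s.kp (i + 1) ω) (s.fw (i + 1) ω e, s.cf (i + 1) ω)) :
    s.FIn (i + 1) g v = 0 := by
  rw [inA s i g v Φ 0 fun ω e => by rw [h, AddChar.zero_apply, mul_one],
    sum_eq_zero fun ξ _ => by rw [if_neg fun h2 => h2.1.1 h2.2, mul_zero], mul_zero]

theorem ite_aux (P Q R : Prop) (a b : ℂ) {_ : Decidable (P ∧ Q)} {_ : Decidable R}
    {_ : Decidable (P ∧ Q ∧ R)} :
    (if P ∧ Q then a * (if R then b else 0) else 0) = if P ∧ Q ∧ R then a * b else 0 := by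
  by_cases hP : P <;> by_cases hQ : Q <;> by_cases hR : R <;> simp [hP, hQ, hR]

theorem ite_aux' (P Q R : Prop) (a b : ℂ) {_ : Decidable (P ∧ Q)} {_ : Decidable R}
    {_ : Decidable (P ∧ R ∧ Q)} :
    (if P ∧ Q then a * (if R then b else 0) else 0) = if P ∧ R ∧ Q then a * b else 0 := by
  by_cases hP : P <;> by_cases hQ : Q <;> by_cases hR : R <;> simp [hP, hQ, hR]

/-- indicator of a nontrivial character -/
def nz {G : Type} [AddCommGroup G] (η : Ch G) : ℂ := if η = 0 then 0 else 1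

theorem sum_nz (G : Type) [AddCommGroup G] [Fintype G] :
    ∑ η : Ch G, nz η = (Fintype.card G : ℂ) - 1 := by
  have : ∀ η : Ch G, nz η = 1 - if η = 0 then 1 else 0 := fun η => by
    unfold nz; split_ifs <;> simp
  simp only [this, sum_sub_distrib, sum_const, card_univ, ch_card, sum_ite_eq', mem_univ, if_true,
    nsmul_eq_mul, mul_one]

theorem ite_nz {G H : Type} [AddCommGroup G] [AddCommGroup H] (η : Ch G) (η' : Ch H) (t : ℂ)
    (R : Prop) (hR : R) {_ : Decidable ((η ≠ 0 ∧ η' ≠ 0) ∧ R)} :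
    (if (η ≠ 0 ∧ η' ≠ 0) ∧ R then t else 0) = nz η * nz η' * t := by
  unfold nz
  by_cases h : η = 0 <;> by_cases h' : η' = 0 <;> simp [h, h', hR]

theorem conj_aux {G H : Type} [AddCommGroup G] [AddCommGroup H] [Fintype G] [Fintype H]
    (χ : Ch G) (ψ : Ch H) (a : G) (b : H) (t r : ℂ) :
    conj (χ a * ψ b) * (t * (r * (χ a * ψ b))) = t * r := by
  have h1 := ch_conj_mul χ a
  have h2 := ch_conj_mul ψ b
  rw [map_mul]
  linear_combination (t * r * (conj (ψ b) * ψ b)) * h1 + (t * r) * h2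

theorem trOut (s : Sys) (i : ℕ) (g : s.Pt i) : s.FOut i g (s.yfam i g) =
    nz g.2.2.1 * nz g.2.2.2 * ((Fintype.card (s.Pt i) : ℂ)⁻¹ * ∑ ξ, (s.ϱ i ξ : ℂ)) := by
  rw [outA s i g _ (fun _ o _ => g.1 o.1 * g.2.1 o.2) g.2.2.2 fun ω e => by
    rw [s.yfam_self, Sys.own, if_pos rfl, Sys.ownv]]
  rw [sum_congr rfl fun ξ _ => by rw [ite_nz _ _ _ _ rfl, conj_aux], ← mul_sum]
  ring

theorem trIn (s : Sys) (i : ℕ) (g : s.Pt (i + 1)) : s.FIn (i + 1) g (s.yfam (i + 1) g) =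
    nz g.2.1 * nz g.2.2.1 * ((Fintype.card (s.Pt (i + 1)) : ℂ)⁻¹ * ∑ ξ, (s.ϱ i ξ : ℂ)) := by
  rw [inA s i g _ (fun _ n _ => g.1 n.1 * g.2.2.2 n.2) g.2.1 fun ω e => by
    rw [s.yfam_self, Sys.own, if_pos rfl, Sys.ownv]; ring]
  rw [sum_congr rfl fun ξ _ => by rw [ite_nz _ _ _ _ rfl, conj_aux], ← mul_sum]
  ring

end ConsA

open ConsA

theorem cons : S_Cons := by
  intro s i j g'
  by_cases h1 : j = i
  · subst h1
    refine ⟨fun ξ η η' => if (η ≠ 0 ∧ η' ≠ 0) ∧ η = g'.2.2.1 ∧ η' = g'.2.2.2 then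
      (s.ϱ j ξ : ℂ) * (g'.1 (s.o j ξ).1 * g'.2.1 (s.o j ξ).2) else 0, fun g => ?_, fun g => ?_⟩
    · rw [outA s j g _ (fun _ o _ => if g.2.2.1 = g'.2.2.1 then g'.1 o.1 * g'.2.1 o.2 else 0)
        g'.2.2.2 fun ω e => by
          rw [s.yfam_self, Sys.own, Sys.ownv]; split_ifs <;> simp]
      exact congrArg _ (sum_congr rfl fun ξ _ => congrArg _ (ite_aux' _ _ _ _ _))
    · rw [inA s j g _ (fun o _ _ => if g.2.2.1 = g'.2.2.2 then g'.1 o.1 * g'.2.1 o.2 else 0)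
        g'.2.2.1 fun ω e => by
          rw [s.yfam_succ, Sys.bwc]; split_ifs <;> simp]
      exact congrArg _ (sum_congr rfl fun ξ _ => congrArg _ (ite_aux _ _ _ _ _))
  by_cases h2 : j = i + 1
  · subst h2
    refine ⟨fun ξ η η' => if (η ≠ 0 ∧ η' ≠ 0) ∧ η = g'.2.1 ∧ η' = g'.2.2.1 then
      (s.ϱ i ξ : ℂ) * (g'.1 (s.n i ξ).1 * g'.2.2.2 (s.n i ξ).2) else 0, fun g => ?_, fun g => ?_⟩
    · rw [outA s i g _ (fun _ _ n => if g.2.2.1 = g'.2.1 then g'.1 n.1 * g'.2.2.2 n.2 else 0)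
        g'.2.2.1 fun ω e => by
          rw [s.yfam_pred, Sys.fwc]; split_ifs
          · ring
          · simp]
      exact congrArg _ (sum_congr rfl fun ξ _ => congrArg _ (ite_aux' _ _ _ _ _))
    · rw [inA s i g _ (fun _ n _ => if g.2.2.1 = g'.2.2.1 then g'.1 n.1 * g'.2.2.2 n.2 else 0)
        g'.2.1 fun ω e => by
          rw [s.yfam_self, Sys.own, Sys.ownv]; split_ifs
          · ring
          · simp]
      exact congrArg _ (sum_congr rfl fun ξ _ => congrArg _ (ite_aux _ _ _ _ _))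
  refine ⟨fun _ _ _ => 0, fun g => ?_, fun g => ?_⟩
  · simp only [mul_zero, sum_const_zero]
    by_cases h3 : i = j + 1
    · subst h3
      exact out0 s (j + 1) g _ (fun ob o _ => if g.2.2.1 = g'.2.2.2 then
        g'.1 ob.1 * g'.2.1 ob.2 * g'.2.2.1 o.2 else 0) fun ω e => by rw [s.yfam_succ, Sys.bwc]
    · exact out0 s i g _ (fun _ _ _ => 0) fun ω e => by
        rw [s.yfam_other j i g' (by omega) (by omega) (by omega)]; rfl
  · simp only [mul_zero, sum_const_zero]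
    by_cases h3 : j = i + 1 + 1
    · subst h3
      exact in0 s i g _ (fun _ n nf => if g.2.2.1 = g'.2.1 then
        g'.1 nf.1 * g'.2.2.1 n.2 * g'.2.2.2 nf.2 else 0) fun ω e => by rw [s.yfam_pred, Sys.fwc]
    · exact in0 s i g _ (fun _ _ _ => 0) fun ω e => by
        rw [s.yfam_other j (i + 1) g' (by omega) (by omega) (by omega)]; rfl

theorem trS : S_Tr := by
  intro s i
  have hA : ∀ k, (Fintype.card (s.A k) : ℂ) ≠ 0 := fun k => by
    exact_mod_cast Fintype.card_ne_zero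
  have hK : ∀ k, (Fintype.card (s.K k) : ℂ) ≠ 0 := fun k => by
    exact_mod_cast Fintype.card_ne_zero
  have h1 : ∑ g, s.FOut i g (s.yfam i g) = (1 - 1 / (Fintype.card (s.K (i + 2)) : ℂ)) *
      (1 - 1 / (Fintype.card (s.K (i + 3)) : ℂ)) * ∑ ξ, (s.ϱ i ξ : ℂ) := by
    simp only [trOut, ← sum_mul, Fintype.sum_prod_type, ← mul_sum, sum_nz, sum_const, card_univ,
      ch_card, nsmul_eq_mul, s.card_Pt]
    have := hA (i + 1)
    have := hK (i + 1)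
    have := hK (i + 2)
    have := hK (i + 3)
    push_cast
    field_simp
  have h2 : ∑ g, s.FIn (i + 1) g (s.yfam (i + 1) g) =
      (1 - 1 / (Fintype.card (s.K (i + 1 + 1)) : ℂ)) *
      (1 - 1 / (Fintype.card (s.K (i + 1 + 2)) : ℂ)) * ∑ ξ, (s.ϱ i ξ : ℂ) := by
    simp only [trIn, ← sum_mul, Fintype.sum_prod_type, ← mul_sum, sum_nz, sum_const, card_univ,
      ch_card, nsmul_eq_mul, s.card_Pt]
    have := hA (i + 1 + 1)
    have := hK (i + 1 + 1)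
    have := hK (i + 1 + 2)
    have := hK (i + 1 + 3)
    push_cast
    field_simp
  refine ⟨?_, h2.trans h1.symm⟩
  rw [h1]
  push_cast
  rfl

end Pool.Agent.P.MP_c77070_an
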