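import Pool.Agent.P.MP_c77070_an.Basic

/-! The easy direction of the Grothendieck criterion for the approximation property. -/

noncomputable section

namespace Pool.Agent.P.MP_c77070_an

open Filter Topology Finset
open scoped Classical ComplexConjugate

universe u

namespace CritA

/-- A summable nonnegative sequence stays summable after division by a slowly decaying one. -/
theorem exists_eps (c : ℕ → ℝ) (h0 : ∀ i, 0 ≤ c i) (hc : Summable c) :
    ∃ e : ℕ → ℝ, (∀ i, 0 < e i) ∧ Tendsto e atTop (𝓝 0) ∧ Summable (fun i => c i / e i) := by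
  set d : ℕ → ℝ := fun i => c i + (1 / 2 : ℝ) ^ i with hd
  have hdpos : ∀ i, 0 < d i := fun i => by
    have := h0 i
    have h2 : (0 : ℝ) < (1 / 2 : ℝ) ^ i := by positivity
    simp only [hd]; linarith
  have hds : Summable d := hc.add summable_geometric_two
  set r : ℕ → ℝ := fun i => ∑' k, d (k + i) with hr
  have hrs : ∀ i, Summable (fun k => d (k + i)) := fun i => (summable_nat_add_iff i).2 hds
  have hrec : ∀ i, r i = d i + r (i + 1) := by
    intro i
    have h1 := (hrs i).tsum_eq_zero_add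
    simp only [hr]
    rw [h1, zero_add]
    congr 1
    refine tsum_congr fun k => ?_
    congr 1
    omega
  have hrnn : ∀ i, 0 ≤ r i := fun i => tsum_nonneg fun k => (hdpos _).le
  have hrpos : ∀ i, 0 < r i := fun i => by
    have := hrec i
    have := hrnn (i + 1)
    have := hdpos i
    linarith
  have hr0 : Tendsto r atTop (𝓝 0) := tendsto_sum_nat_add d
  refine ⟨fun i => Real.sqrt (r i), fun i => Real.sqrt_pos.2 (hrpos i), ?_, ?_⟩
  · have := (Real.continuous_sqrt.tendsto 0).comp hr0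
    rw [Real.sqrt_zero] at this
    exact this
  · have hstep : ∀ i, c i / Real.sqrt (r i) ≤ 2 * (Real.sqrt (r i) - Real.sqrt (r (i + 1))) := by
      intro i
      have hs : 0 < Real.sqrt (r i) := Real.sqrt_pos.2 (hrpos i)
      have hs' : 0 ≤ Real.sqrt (r (i + 1)) := Real.sqrt_nonneg _
      have e1 : Real.sqrt (r i) * Real.sqrt (r i) = r i := Real.mul_self_sqrt (hrnn i)
      have e2 : Real.sqrt (r (i + 1)) * Real.sqrt (r (i + 1)) = r (i + 1) :=
        Real.mul_self_sqrt (hrnn _)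
      have e3 : c i ≤ d i := by
        have h2 : (0 : ℝ) < (1 / 2 : ℝ) ^ i := by positivity
        simp only [hd]; linarith
      have e4 := hrec i
      rw [div_le_iff₀ hs]
      nlinarith [sq_nonneg (Real.sqrt (r i) - Real.sqrt (r (i + 1)))]
    refine summable_of_sum_range_le (c := 2 * Real.sqrt (r 0))
      (fun i => div_nonneg (h0 i) (Real.sqrt_nonneg _)) fun n => ?_
    have : ∑ i ∈ range n, c i / Real.sqrt (r i) ≤ 2 * (Real.sqrt (r 0) - Real.sqrt (r n)) := by
      induction n with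
      | zero => simp
      | succ n ih =>
        rw [sum_range_succ]
        have := hstep n
        linarith
    have h3 : 0 ≤ Real.sqrt (r n) := Real.sqrt_nonneg _
    linarith

variable {𝕜 : Type} [RCLike 𝕜] {Z : Type u} [NormedAddCommGroup Z] [NormedSpace 𝕜 Z]

/-- The rescaled family tends to zero along the cofinite filter. -/
theorem tendsto_cofinite (ι : ℕ → Type) [∀ i, Fintype (ι i)] (w : ∀ i, ι i → Z) (e : ℕ → ℝ)
    (he : Tendsto e atTop (𝓝 0)) (hw : ∀ i a, ‖w i a‖ ≤ e i) :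
    Tendsto (fun p : Σ i, ι i => w p.1 p.2) cofinite (𝓝 0) := by
  rw [tendsto_zero_iff_norm_tendsto_zero]
  have h1 : Tendsto (fun p : Σ i, ι i => p.1) cofinite atTop := by
    rw [← Nat.cofinite_eq_atTop]
    refine Tendsto.cofinite_of_finite_preimage_singleton fun i => ?_
    have : (fun p : Σ i, ι i => p.1) ⁻¹' {i} ⊆ Set.range (fun a : ι i => (⟨i, a⟩ : Σ i, ι i)) := by
      rintro ⟨j, b⟩ hj
      simp only [Set.mem_preimage, Set.mem_singleton_iff] at hj
      subst hj
      exact ⟨b, rfl⟩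
    exact ((Set.finite_range _).subset this).to_subtype
  exact squeeze_zero (fun p => norm_nonneg _) (fun p => hw p.1 p.2) (he.comp h1)

/-- Traces against a finite rank operator tend to zero. -/
theorem tendsto_finite_rank (ι : ℕ → Type) [∀ i, Fintype (ι i)] (y : ∀ i, ι i → Z)
    (f : ∀ i, ι i → StrongDual 𝕜 Z)
    (hT : ∀ z : Z, Tendsto (fun n => ∑ i ∈ range n, ∑ a, f i a z • y i a) atTop (𝓝 0))
    (R : Z →L[𝕜] Z) (hR : FiniteDimensional 𝕜 (LinearMap.range (R : Z →ₗ[𝕜] Z))) :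
    Tendsto (fun n => ∑ i ∈ range n, ∑ a, f i a (R (y i a))) atTop (𝓝 0) := by
  set M : Submodule 𝕜 Z := LinearMap.range (R : Z →ₗ[𝕜] Z) with hM
  let b := Module.finBasis 𝕜 M
  let R' : Z →L[𝕜] M := R.codRestrict M (fun z => LinearMap.mem_range_self (R : Z →ₗ[𝕜] Z) z)
  let g : Fin (Module.finrank 𝕜 M) → (Z →L[𝕜] 𝕜) := fun k =>
    (LinearMap.toContinuousLinearMap (b.coord k)).comp R'
  have hRg : ∀ z, R z = ∑ k, g k z • (b k : Z) := by
    intro z
    have h1 : R' z = ∑ k, b.repr (R' z) k • b k := (b.sum_repr (R' z)).symm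
    have h2 : R z = ((R' z : M) : Z) := rfl
    rw [h2, h1, Submodule.coe_sum]
    refine sum_congr rfl fun k _ => ?_
    rw [Submodule.coe_smul]
    congr 1
  have hform : ∀ n, ∑ i ∈ range n, ∑ a, f i a (R (y i a)) =
      ∑ k, g k (∑ i ∈ range n, ∑ a, f i a (b k : Z) • y i a) := by
    intro n
    simp only [map_sum, map_smul, smul_eq_mul]
    rw [sum_comm]
    refine sum_congr rfl fun i _ => ?_
    rw [sum_comm]
    refine sum_congr rfl fun a _ => ?_
    rw [hRg, map_sum]
    refine sum_congr rfl fun k _ => ?_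
    rw [map_smul, smul_eq_mul, mul_comm]
  simp only [hform]
  have h0 : (0 : 𝕜) = ∑ k : Fin (Module.finrank 𝕜 M), g k 0 := by simp
  rw [h0]
  exact tendsto_finsetSum _ fun k _ => ((g k).continuous.tendsto 0).comp (hT _)

/-- With the approximation property the traces tend to zero. -/
theorem core (ι : ℕ → Type) [∀ i, Fintype (ι i)] (y : ∀ i, ι i → Z)
    (f : ∀ i, ι i → StrongDual 𝕜 Z) (hs : Summable (fun i => ∑ a, ‖f i a‖ * ‖y i a‖))
    (hT : ∀ z : Z, Tendsto (fun n => ∑ i ∈ range n, ∑ a, f i a z • y i a) atTop (𝓝 0))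
    (hAP : HasAP 𝕜 Z) :
    Tendsto (fun n => ∑ i ∈ range n, ∑ a, f i a (y i a)) atTop (𝓝 0) := by
  set c : ℕ → ℝ := fun i => ∑ a, ‖f i a‖ * ‖y i a‖ with hc
  have hc0 : ∀ i, 0 ≤ c i := fun i => sum_nonneg fun a _ => by positivity
  obtain ⟨e, hepos, he0, hes⟩ := exists_eps c hc0 hs
  set w : ∀ i, ι i → Z := fun i a => ((e i / ‖y i a‖ : ℝ) : 𝕜) • y i a with hw
  have hwn : ∀ i a, ‖w i a‖ ≤ e i := by
    intro i a
    simp only [hw, norm_smul, RCLike.norm_ofReal]
    rw [abs_of_nonneg (div_nonneg (hepos i).le (norm_nonneg _))]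
    by_cases h : ‖y i a‖ = 0
    · rw [h, mul_zero]; exact (hepos i).le
    · rw [div_mul_cancel₀ _ h]
  have hK := (tendsto_cofinite ι w e he0 hwn).isCompact_insert_range_of_cofinite
  set D : ℝ := ∑' i, c i / e i with hD
  have hD0 : 0 ≤ D := tsum_nonneg fun i => div_nonneg (hc0 i) (hepos i).le
  rw [Metric.tendsto_atTop]
  intro ε hε
  have hη : 0 < ε / (2 * (D + 1)) := by positivity
  obtain ⟨R, hR, hRK⟩ := hAP _ hK _ hη
  have hτ := tendsto_finite_rank ι y f hT R hR
  rw [Metric.tendsto_atTop] at hτ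
  obtain ⟨N, hN⟩ := hτ (ε / 2) (by positivity)
  refine ⟨N, fun n hn => ?_⟩
  have h1 := hN n hn
  rw [dist_zero_right] at h1 ⊢
  have hterm : ∀ i a, ‖f i a (y i a) - f i a (R (y i a))‖ ≤
      ε / (2 * (D + 1)) * (‖f i a‖ * ‖y i a‖ / e i) := by
    intro i a
    by_cases h : y i a = 0
    · simp [h]
    · have hy : 0 < ‖y i a‖ := norm_pos_iff.2 h
      have h2 := hRK (w i a) (Set.mem_insert_of_mem _ ⟨⟨i, a⟩, rfl⟩)
      have h3 : R (w i a) - w i a = ((e i / ‖y i a‖ : ℝ) : 𝕜) • (R (y i a) - y i a) := by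
        simp only [hw, map_smul, smul_sub]
      rw [h3, norm_smul, RCLike.norm_ofReal,
        abs_of_nonneg (div_nonneg (hepos i).le (norm_nonneg _))] at h2
      have h4 : ‖R (y i a) - y i a‖ ≤ ε / (2 * (D + 1)) * (‖y i a‖ / e i) := by
        have he := hepos i
        have h5 : ‖R (y i a) - y i a‖ = (e i / ‖y i a‖ * ‖R (y i a) - y i a‖) * (‖y i a‖ / e i) := by
          field_simp
        rw [h5]
        exact mul_le_mul_of_nonneg_right h2.le (by positivity)
      calc ‖f i a (y i a) - f i a (R (y i a))‖ = ‖f i a (R (y i a) - y i a)‖ := by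
            rw [map_sub, norm_sub_rev]
        _ ≤ ‖f i a‖ * ‖R (y i a) - y i a‖ := (f i a).le_opNorm _
        _ ≤ ‖f i a‖ * (ε / (2 * (D + 1)) * (‖y i a‖ / e i)) :=
            mul_le_mul_of_nonneg_left h4 (norm_nonneg _)
        _ = ε / (2 * (D + 1)) * (‖f i a‖ * ‖y i a‖ / e i) := by ring
  have hdiff : ‖∑ i ∈ range n, ∑ a, f i a (y i a) - ∑ i ∈ range n, ∑ a, f i a (R (y i a))‖ ≤
      ε / (2 * (D + 1)) * D := by
    rw [← sum_sub_distrib]
    calc ‖∑ i ∈ range n, (∑ a, f i a (y i a) - ∑ a, f i a (R (y i a)))‖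
        ≤ ∑ i ∈ range n, ‖∑ a, f i a (y i a) - ∑ a, f i a (R (y i a))‖ := norm_sum_le _ _
      _ ≤ ∑ i ∈ range n, ε / (2 * (D + 1)) * (c i / e i) := by
          refine sum_le_sum fun i _ => ?_
          rw [← sum_sub_distrib]
          refine (norm_sum_le _ _).trans ?_
          simp only [hc]
          rw [sum_div, mul_sum]
          exact sum_le_sum fun a _ => hterm i a
      _ = ε / (2 * (D + 1)) * ∑ i ∈ range n, c i / e i := by rw [mul_sum]
      _ ≤ ε / (2 * (D + 1)) * D := by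
          refine mul_le_mul_of_nonneg_left ?_ hη.le
          exact hes.sum_le_tsum _ fun i _ => div_nonneg (hc0 i) (hepos i).le
  have h6 : ε / (2 * (D + 1)) * D ≤ ε / 2 := by
    rw [div_mul_eq_mul_div, div_le_div_iff₀ (by positivity) (by positivity)]
    nlinarith
  calc ‖∑ i ∈ range n, ∑ a, f i a (y i a)‖
      ≤ ‖∑ i ∈ range n, ∑ a, f i a (y i a) - ∑ i ∈ range n, ∑ a, f i a (R (y i a))‖ +
          ‖∑ i ∈ range n, ∑ a, f i a (R (y i a))‖ := norm_le_norm_sub_add _ _
    _ < ε := by linarith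

/-- The truncated nuclear sums tend to zero on the closed span of the vectors. -/
theorem tendsto_closure (ι : ℕ → Type) [∀ i, Fintype (ι i)] (y : ∀ i, ι i → Z)
    (f : ∀ i, ι i → StrongDual 𝕜 Z) (hs : Summable (fun i => ∑ a, ‖f i a‖ * ‖y i a‖))
    (h0 : ∀ j b, ∀ᶠ n in atTop, ∑ i ∈ range n, ∑ a, f i a (y j b) • y i a = 0)
    (z : Z) (hz : z ∈ (Submodule.span 𝕜
      (Set.range (fun p : Σ i, ι i => y p.1 p.2))).topologicalClosure) :
    Tendsto (fun n => ∑ i ∈ range n, ∑ a, f i a z • y i a) atTop (𝓝 0) := by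
  set C : ℝ := ∑' i, ∑ a, ‖f i a‖ * ‖y i a‖ with hC
  have hnn : ∀ i, 0 ≤ ∑ a, ‖f i a‖ * ‖y i a‖ := fun i => sum_nonneg fun a _ => by positivity
  have hC0 : 0 ≤ C := tsum_nonneg hnn
  have hbound : ∀ n (x : Z), ‖∑ i ∈ range n, ∑ a, f i a x • y i a‖ ≤ C * ‖x‖ := by
    intro n x
    calc ‖∑ i ∈ range n, ∑ a, f i a x • y i a‖ ≤ ∑ i ∈ range n, ‖∑ a, f i a x • y i a‖ :=
          norm_sum_le _ _
      _ ≤ ∑ i ∈ range n, (∑ a, ‖f i a‖ * ‖y i a‖) * ‖x‖ := by
          refine sum_le_sum fun i _ => (norm_sum_le _ _).trans ?_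
          rw [sum_mul]
          refine sum_le_sum fun a _ => ?_
          rw [norm_smul]
          have := (f i a).le_opNorm x
          have h2 := norm_nonneg (y i a)
          nlinarith
      _ = (∑ i ∈ range n, ∑ a, ‖f i a‖ * ‖y i a‖) * ‖x‖ := by rw [sum_mul]
      _ ≤ C * ‖x‖ := mul_le_mul_of_nonneg_right (hs.sum_le_tsum _ fun i _ => hnn i) (norm_nonneg _)
  have hspan : ∀ x ∈ Submodule.span 𝕜 (Set.range (fun p : Σ i, ι i => y p.1 p.2)),
      Tendsto (fun n => ∑ i ∈ range n, ∑ a, f i a x • y i a) atTop (𝓝 0) := by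
    intro x hx
    induction hx using Submodule.span_induction with
    | mem x hx =>
      obtain ⟨⟨j, b⟩, rfl⟩ := hx
      exact tendsto_const_nhds.congr' ((h0 j b).mono fun n hn => hn.symm)
    | zero => simp
    | add x x' _ _ hx hx' =>
      have := hx.add hx'
      rw [add_zero] at this
      refine this.congr fun n => ?_
      simp only [map_add, add_smul, sum_add_distrib]
    | smul t x _ hx =>
      have := hx.const_smul t
      rw [smul_zero] at this
      refine this.congr fun n => ?_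
      simp only [map_smul, smul_sum, smul_eq_mul, mul_smul]
  rw [Metric.tendsto_atTop]
  intro ε hε
  have hz' : z ∈ closure ((Submodule.span 𝕜
      (Set.range (fun p : Σ i, ι i => y p.1 p.2)) : Submodule 𝕜 Z) : Set Z) := hz
  obtain ⟨x, hx, hxz⟩ := Metric.mem_closure_iff.1 hz' (ε / (2 * (C + 1))) (by positivity)
  have h1 := hspan x hx
  rw [Metric.tendsto_atTop] at h1
  obtain ⟨N, hN⟩ := h1 (ε / 2) (by positivity)
  refine ⟨N, fun n hn => ?_⟩
  have h2 := hN n hn
  rw [dist_zero_right] at h2 ⊢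
  rw [dist_eq_norm] at hxz
  have h3 : ∑ i ∈ range n, ∑ a, f i a z • y i a =
      ∑ i ∈ range n, ∑ a, f i a (z - x) • y i a + ∑ i ∈ range n, ∑ a, f i a x • y i a := by
    simp only [map_sub, sub_smul, sum_sub_distrib, sub_add_cancel]
  have h4 := hbound n (z - x)
  have h5 : C * ‖z - x‖ ≤ ε / 2 := by
    calc C * ‖z - x‖ ≤ C * (ε / (2 * (C + 1))) := mul_le_mul_of_nonneg_left hxz.le hC0
      _ ≤ ε / 2 := by
        rw [← mul_div_assoc, div_le_div_iff₀ (by positivity) (by positivity)]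
        nlinarith
  rw [h3]
  calc _ ≤ ‖∑ i ∈ range n, ∑ a, f i a (z - x) • y i a‖ + ‖∑ i ∈ range n, ∑ a, f i a x • y i a‖ :=
        norm_add_le _ _
    _ < ε := by linarith

end CritA

theorem crit (𝕜 : Type) [RCLike 𝕜] (X : Type u) [NormedAddCommGroup X] [NormedSpace 𝕜 X] :
    S_Crit 𝕜 X := by
  intro ι _ y f hs h0 htr
  set Y : Submodule 𝕜 X :=
    (Submodule.span 𝕜 (Set.range (fun p : Σ i, ι i => y p.1 p.2))).topologicalClosure with hY
  refine ⟨Y, Submodule.isClosed_topologicalClosure _, fun hAP => htr ?_⟩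
  have hy : ∀ i a, y i a ∈ Y := fun i a =>
    Submodule.le_topologicalClosure _ (Submodule.subset_span ⟨⟨i, a⟩, rfl⟩)
  let y' : ∀ i, ι i → Y := fun i a => ⟨y i a, hy i a⟩
  let f' : ∀ i, ι i → StrongDual 𝕜 Y := fun i a => (f i a).comp Y.subtypeL
  have hf' : ∀ i a, ‖f' i a‖ ≤ ‖f i a‖ := fun i a =>
    ContinuousLinearMap.opNorm_le_bound _ (norm_nonneg _) fun z => (f i a).le_opNorm (z : X)
  have hs' : Summable (fun i => ∑ a, ‖f' i a‖ * ‖y' i a‖) := by
    refine Summable.of_nonneg_of_le (fun i => sum_nonneg fun a _ => by positivity)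
      (fun i => sum_le_sum fun a _ => ?_) hs
    exact mul_le_mul_of_nonneg_right (hf' i a) (norm_nonneg _)
  have hT : ∀ z : Y, Tendsto (fun n => ∑ i ∈ range n, ∑ a, f' i a z • y' i a) atTop (𝓝 0) := by
    intro z
    rw [tendsto_subtype_rng]
    have h1 := CritA.tendsto_closure ι y f hs h0 (z : X) z.2
    refine h1.congr fun n => ?_
    simp only [Submodule.coe_sum, Submodule.coe_smul]
    rfl
  exact CritA.core ι y' f' hs' hT hAP

end Pool.Agent.P.MP_c77070_an
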