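import Mathlib

/-! Definitions and interface statements for: hereditary approximation property implies
reflexivity. The plan is in the team store, file c77070_PLAN.md. -/

noncomputable section

namespace Pool.Agent.P.MP_c77070_an

open Filter Topology Finset
open scoped Classical ComplexConjugate

universe u

/-! ## Part A. Banach space side -/

section Banach

variable (𝕜 : Type) [RCLike 𝕜] (X : Type u) [NormedAddCommGroup X] [NormedSpace 𝕜 X]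

/-- The approximation property. -/
def HasAP : Prop :=
  ∀ K : Set X, IsCompact K → ∀ ε : ℝ, 0 < ε → ∃ T : X →L[𝕜] X,
    FiniteDimensional 𝕜 (LinearMap.range (T : X →ₗ[𝕜] X)) ∧ ∀ y ∈ K, ‖T y - y‖ < ε

/-- Some closed subspace fails the approximation property. -/
def BadSub : Prop := ∃ Y : Submodule 𝕜 X, IsClosed (Y : Set X) ∧ ¬ HasAP 𝕜 Y

/-- Grothendieck type criterion. -/
def S_Crit : Prop :=
  ∀ (ι : ℕ → Type) [∀ i, Fintype (ι i)] (y : ∀ i, ι i → X) (f : ∀ i, ι i → StrongDual 𝕜 X),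
    Summable (fun i => ∑ a, ‖f i a‖ * ‖y i a‖) →
    (∀ j b, ∀ᶠ n in atTop, ∑ i ∈ range n, ∑ a, f i a (y j b) • y i a = 0) →
    ¬ Tendsto (fun n => ∑ i ∈ range n, ∑ a, f i a (y i a)) atTop (𝓝 0) → BadSub 𝕜 X

/-- An additive map from a complex vector space that commutes with real scalars. -/
def RLin {W : Type} [AddCommGroup W] [Module ℂ W] (J : W →+ X) : Prop :=
  ∀ (r : ℝ) (w : W), J ((r : ℂ) • w) = (r : 𝕜) • J w

/-- The criterion for a complex system realised inside `X` through a real linear map. -/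
def S_Glue : Prop :=
  ∀ (W : Type) [AddCommGroup W] [Module ℂ W] (J : W →+ X) (P : ℕ → Type) [∀ i, Fintype (P i)]
    (y : ∀ i, P i → W) (a : ∀ i, P i → ∀ j, P j → ℂ) (cost : ∀ i, P i → ℝ) (C : ℝ),
    RLin 𝕜 X J →
    (∀ i g (c : ℂ), ‖c‖ ≤ 1 → ‖J (c • y i g)‖ ≤ C) →
    (∀ i g (l : ℂ), ‖l‖ ≤ 1 → ∃ f : StrongDual 𝕜 X, ‖f‖ ≤ cost i g ∧
      ∀ j g' (c : ℂ), f (J (c • y j g')) = (((l * c * a i g j g').re : ℝ) : 𝕜)) →
    Summable (fun i => ∑ g, cost i g) →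
    (∀ j g', ∀ᶠ n in atTop, ∑ i ∈ range n, ∑ g, a i g j g' • y i g = 0) →
    ¬ Tendsto (fun n => (∑ i ∈ range n, ∑ g, a i g i g).re) atTop (𝓝 0) → BadSub 𝕜 X

variable {𝕜 X} in
/-- Iterated limit of norms along an ultrafilter. -/
def itN (U : Ultrafilter X) : List 𝕜 → X → ℝ
  | [], x => ‖x‖
  | a :: l, x => limUnder (U : Filter X) (fun y => itN U l (x + a • y))

variable {X} in
/-- Basic facts on `itN`. -/
structure ItFacts (U : Ultrafilter X) (ρ : ℝ) : Prop where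
  tend : ∀ (a : 𝕜) (l : List 𝕜) (x : X),
    Tendsto (fun y => itN U l (x + a • y)) (U : Filter X) (𝓝 (itN U (a :: l) x))
  sub : ∀ (l l' : List 𝕜) (x x' : X), l.length = l'.length →
    itN U (List.zipWith (· + ·) l l') (x + x') ≤ itN U l x + itN U l' x'
  smul : ∀ (c : 𝕜) (l : List 𝕜) (x : X), itN U (l.map (c * ·)) (c • x) = ‖c‖ * itN U l x
  nonneg : ∀ (l : List 𝕜) (x : X), 0 ≤ itN U l x
  bound : ∀ (l : List 𝕜) (x : X), itN U l x ≤ ‖x‖ + ρ * (l.map (‖·‖)).sum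
  lip : ∀ (l : List 𝕜) (x x' : X), |itN U l x - itN U l x'| ≤ ‖x - x'‖
  zero : ∀ (l₁ l₂ : List 𝕜) (x : X), itN U (l₁ ++ 0 :: l₂) x = itN U (l₁ ++ l₂) x

def S_It1 : Prop :=
  ∀ (U : Ultrafilter X) (ρ : ℝ), Metric.closedBall (0 : X) ρ ∈ U → ItFacts 𝕜 U ρ

variable {𝕜 X} in
/-- A minimising ultrafilter converging weak-star to `z`, which is far from `X`. -/
structure GoodU [NormedSpace ℝ X] (U : Ultrafilter X) (z : StrongDual 𝕜 (StrongDual 𝕜 X))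
    (δ ρ : ℝ) : Prop where
  pos : 0 < δ
  far : ∀ x : X, δ ≤ ‖NormedSpace.inclusionInDoubleDual 𝕜 X x - z‖
  ball : Metric.closedBall (0 : X) ρ ∈ U
  wk : ∀ φ : StrongDual 𝕜 X, {y | φ y = z φ} ∈ U
  min : ∀ s : Set X, IsOpen s → Convex ℝ s →
    (∀ Φ : Finset (StrongDual 𝕜 X), ∃ y ∈ s, ‖y‖ ≤ ρ ∧ ∀ φ ∈ Φ, φ y = z φ) → s ∈ U

def S_Ultra : Prop :=
  ∀ [CompleteSpace X] [NormedSpace ℝ X] [IsScalarTower ℝ 𝕜 X],
    ¬ Function.Surjective (NormedSpace.inclusionInDoubleDual 𝕜 X) →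
    ∃ (U : Ultrafilter X) (z : StrongDual 𝕜 (StrongDual 𝕜 X)) (δ ρ : ℝ), GoodU U z δ ρ

variable {X} in
def Merge (U : Ultrafilter X) : Prop :=
  ∀ (l₁ : List 𝕜) (a b : 𝕜) (l₂ : List 𝕜) (x : X),
    itN U (l₁ ++ (a + b) :: l₂) x ≤ itN U (l₁ ++ a :: b :: l₂) x

variable {X} in
def Lower (U : Ultrafilter X) (δ : ℝ) : Prop :=
  ∀ (l₁ l₂ : List 𝕜) (x : X), δ * ‖l₂.sum‖ ≤ itN U (l₁ ++ l₂) x

def S_It2 : Prop :=
  ∀ [NormedSpace ℝ X] [IsScalarTower ℝ 𝕜 X] (U : Ultrafilter X)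
    (z : StrongDual 𝕜 (StrongDual 𝕜 X)) (δ ρ : ℝ), GoodU U z δ ρ → ItFacts 𝕜 U ρ →
    Merge 𝕜 U ∧ Lower 𝕜 U δ

variable {𝕜} in
/-- `N` is finitely represented in `X` by vectors on which given functionals are constant. -/
def Realized (N : List 𝕜 → ℝ) : Prop :=
  ∀ (Φ : Finset (StrongDual 𝕜 X)) (n : ℕ), ∃ y : Fin n → X,
    (∀ φ ∈ Φ, ∀ i j, φ (y i) = φ (y j)) ∧
    ∀ a : Fin n → 𝕜, N (List.ofFn a) ≤ 2 * ‖∑ i, a i • y i‖ ∧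
      ‖∑ i, a i • y i‖ ≤ 2 * N (List.ofFn a)

def S_Real : Prop :=
  ∀ [NormedSpace ℝ X] (U : Ultrafilter X) (z : StrongDual 𝕜 (StrongDual 𝕜 X)) (δ ρ : ℝ),
    GoodU U z δ ρ → ItFacts 𝕜 U ρ → Lower 𝕜 U δ →
    Realized X (fun l : List 𝕜 => itN U l (0 : X))

variable {𝕜} in
/-- A spreading, subadditive norm on finite sequences. -/
structure ESA (N : List 𝕜 → ℝ) : Prop where
  add : ∀ l l' : List 𝕜, l.length = l'.length →
    N (List.zipWith (· + ·) l l') ≤ N l + N l'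
  smul : ∀ (c : 𝕜) (l : List 𝕜), N (l.map (c * ·)) = ‖c‖ * N l
  nonneg : ∀ l, 0 ≤ N l
  zero : ∀ l₁ l₂ : List 𝕜, N (l₁ ++ 0 :: l₂) = N (l₁ ++ l₂)
  merge : ∀ (l₁ : List 𝕜) (a b : 𝕜) (l₂ : List 𝕜),
    N (l₁ ++ (a + b) :: l₂) ≤ N (l₁ ++ a :: b :: l₂)
  pos : 0 < N [1, -1]

def NormFacts : Prop := ∃ N : List 𝕜 → ℝ, ESA N ∧ Realized X N

def Block1Facts : Prop :=
  ∀ (Φ : Finset (StrongDual 𝕜 X)) (m L : ℕ), ∃ v : Fin m → Fin L → X,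
    (∀ φ ∈ Φ, ∀ c t, φ (v c t) = 0) ∧
    (∀ (α : Fin m → ℝ) (t : Fin m → Fin L), (∀ c, |α c| ≤ 1) →
      ‖∑ c, ((α c : ℝ) : 𝕜) • v c (t c)‖ ≤ 1) ∧
    ∀ (ξ : Fin m → Fin L → 𝕜) (a : Fin m → ℝ) (s : Fin m → ℕ), (∀ c, |a c| ≤ 1) →
      ‖∑ c, ((a c : ℝ) : 𝕜) * ∑ t : Fin L, (if (t : ℕ) < s c then ξ c t else 0)‖ ≤
        32 * m * ‖∑ c, ∑ t, ξ c t • v c t‖

def S_Block1 : Prop := NormFacts 𝕜 X → Block1Facts 𝕜 X

def EmbFacts : Prop :=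
  ∀ (β : Type) [Countable β] (C : β → Type) [∀ b, Fintype (C b)] (L : β → ℕ),
    ∃ v : ∀ b, C b → Fin (L b) → X,
      (∀ b (α : C b → ℝ) (t : C b → Fin (L b)), (∀ c, |α c| ≤ 1) →
        ‖∑ c, ((α c : ℝ) : 𝕜) • v b c (t c)‖ ≤ 1) ∧
      ∀ b (a : C b → ℝ) (s : C b → ℕ), (∀ c, |a c| ≤ 1) → ∃ f : StrongDual 𝕜 X,
        ‖f‖ ≤ 128 * Fintype.card (C b) ∧
        (∀ c t, f (v b c t) = if (t : ℕ) < s c then ((a c : ℝ) : 𝕜) else 0) ∧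
        ∀ b', b' ≠ b → ∀ c t, f (v b' c t) = 0

def S_Emb : Prop := Block1Facts 𝕜 X → EmbFacts 𝕜 X

def EmbCFacts : Prop :=
  ∀ (β : Type) [Countable β] (C : β → Type) [∀ b, Fintype (C b)] (p : ∀ b, C b → ℝ)
    (L : β → ℕ), (∀ b c, 0 ≤ p b c) →
    ∃ J : ∀ b, (C b → Fin (L b) → ℂ) →+ X,
      (∀ b, RLin 𝕜 X (J b)) ∧
      (∀ b (t : C b → Fin (L b)) (z : C b → ℂ), (∀ c, ‖z c‖ ≤ 1) →
        ‖J b (fun c t' => if t' = t c then z c else 0)‖ ≤ 1) ∧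
      ∀ b (a : C b → ℂ) (s : C b → ℕ), (∀ c, ‖a c‖ ≤ 1) → ∃ f : StrongDual 𝕜 X,
        ‖f‖ ≤ 512 * ∑ c, p b c ∧
        (∀ w, f (J b w) = (((∑ c, (p b c : ℂ) * a c *
          ∑ t : Fin (L b), (if (t : ℕ) < s c then w c t else 0)).re : ℝ) : 𝕜)) ∧
        ∀ b', b' ≠ b → ∀ w, f (J b' w) = 0

def S_EmbC : Prop := EmbFacts 𝕜 X → EmbCFacts 𝕜 X

end Banach

/-! ## Part B. Digits -/

/-- A digit frame: an ordered finite set of digit places `Dg`, digit values in a finite abelian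
group `D`, an element `u` with `3 u = 0`, active places, a rank `b` and a goodness predicate. -/
structure Dig where
  Dg : Type
  D : Type
  [fDg : Fintype Dg]
  [lDg : LinearOrder Dg]
  [fD : Fintype D]
  [gD : AddCommGroup D]
  u : D
  hu : 3 • u = 0
  Act : Finset Dg
  hAct : Act.Nonempty
  b : ℕ
  ge : Dg → (Dg → D) → Prop

attribute [instance] Dig.fDg Dig.lDg Dig.fD Dig.gD

namespace Dig

variable (d : Dig)

abbrev E : Type := d.Dg → d.D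

/-- Keep the digits before place `k`, put `s` at place `k`, zero after. -/
def tr (k : d.Dg) (s : d.D) (e : d.E) : d.E :=
  fun k' => if k' < k then e k' else if k' = k then s else 0

def den : ℝ := (d.Act.card : ℝ) * (Fintype.card d.E : ℝ)

/-- Expectation of `F ω (tr k s e)` on the event `g`, with `ω` of law `p`, `k` uniform in `Act`
and `e` uniform. -/
def S {Ω : Type} [Fintype Ω] (p : Ω → ℝ) (g : Ω → d.Dg → d.E → Prop) (s : d.D)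
    (F : Ω → d.E → ℂ) : ℂ :=
  ∑ ω, ∑ k ∈ d.Act, ∑ e : d.E,
    if g ω k e then ((p ω / d.den : ℝ) : ℂ) * F ω (d.tr k s e) else 0

/-- Probability of the event `g`. -/
def mass {Ω : Type} [Fintype Ω] (p : Ω → ℝ) (g : Ω → d.Dg → d.E → Prop) : ℝ :=
  ∑ ω, ∑ k ∈ d.Act, ∑ e : d.E, if g ω k e then p ω / d.den else 0

/-- Probability that `ge` fails. -/
def bad : ℝ := ∑ k ∈ d.Act, ∑ e : d.E, if d.ge k e then 0 else 1 / d.den

end Dig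

def IsAff {E A : Type} [AddCommGroup E] [AddCommGroup A] (f : E → A) : Prop :=
  ∃ (c : A) (l : E →+ A), ∀ e, f e = c + l e

abbrev Ch (G : Type) [AddCommGroup G] : Type := AddChar G ℂ

/-- On each fibre, a character times a constant of modulus at most one. -/
def IsCh {Ω E : Type} [AddCommGroup E] (v : Ω → E → ℂ) : Prop :=
  ∀ ω, ∃ (c : ℂ) (χ : Ch E), ‖c‖ ≤ 1 ∧ ∀ e, v ω e = c * χ e

def avg {K : Type} [Fintype K] (f : K → ℂ) : ℂ := (∑ κ, f κ) / (Fintype.card K : ℂ)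

def sg {L : ℕ} (a b : Fin L) : ℂ := if b < a then 1 else if a < b then -1 else 0

def S_Ker : Prop :=
  ∀ d : Dig, ∃ (L : ℕ) (pos : Fin 3 × Bool → Ch d.E → Fin L) (c₀ : ℂ), ‖c₀‖ ≤ 1 ∧
    ∀ χ χ' : Ch d.E,
      ∑ k ∈ d.Act, avg (fun e : d.E =>
        conj (χ (d.tr k (-d.u) e)) * χ' (d.tr k (-d.u) e) -
          conj (χ (d.tr k d.u e)) * χ' (d.tr k d.u e)) =
      c₀ * ∑ π, sg (pos π χ') (pos π χ)

section Banach2

variable (𝕜 : Type) [RCLike 𝕜] (X : Type u) [NormedAddCommGroup X] [NormedSpace 𝕜 X]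

def BlkFacts : Prop :=
  ∀ (B : Type) [Countable B] (d : B → Dig) (Ω : B → Type) [∀ b, Fintype (Ω b)]
    (p : ∀ b, Ω b → ℝ) (gp gm : ∀ b, Ω b → (d b).Dg → (d b).E → Prop),
    (∀ b ω, 0 ≤ p b ω) → (∀ b, ∑ ω, p b ω = 1) →
    ∃ J : ∀ b, (Ω b → (d b).E → ℂ) →+ X,
      (∀ b, RLin 𝕜 X (J b)) ∧ (∀ b v, IsCh v → ‖J b v‖ ≤ 3) ∧
      ∀ b (o : Ω b → (d b).E → ℂ) (l : ℂ) (P Q : Prop), IsCh o → ‖l‖ ≤ 1 →
        ∃ f : StrongDual 𝕜 X,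
          ‖f‖ ≤ 10000 * (1 / ((d b).Act.card : ℝ) +
            (d b).mass (p b) (fun ω k e => ¬ gp b ω k e) +
            (d b).mass (p b) (fun ω k e => ¬ gm b ω k e) +
            (if P then 0 else 1) + (if Q then 0 else 1)) ∧
          (∀ v, f (J b v) = (((l *
            ((if P then (d b).S (p b) (gm b) (-(d b).u) (fun ω e => conj (o ω e) * v ω e) else 0) -
             (if Q then (d b).S (p b) (gp b) (d b).u (fun ω e => conj (o ω e) * v ω e)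
              else 0))).re : ℝ) : 𝕜)) ∧
          ∀ b', b' ≠ b → ∀ v, f (J b' v) = 0

def S_Blk : Prop := S_Ker → EmbCFacts 𝕜 X → BlkFacts 𝕜 X

end Banach2

/-! ## Part C. The staged system -/

structure Sys where
  d : ℕ → Dig
  A : ℕ → Type
  K : ℕ → Type
  Ω : ℕ → Type
  Ξ : ℕ → Type
  [gA : ∀ i, AddCommGroup (A i)]
  [fA : ∀ i, Fintype (A i)]
  [gK : ∀ i, AddCommGroup (K i)]
  [fK : ∀ i, Fintype (K i)]
  [fΩ : ∀ i, Fintype (Ω i)]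
  [fΞ : ∀ i, Fintype (Ξ i)]
  p : ∀ i, Ω i → ℝ
  p0 : ∀ i ω, 0 ≤ p i ω
  p1 : ∀ i, ∑ ω, p i ω = 1
  bw : ∀ i, Ω i → (d i).E → A i
  x : ∀ i, Ω i → (d i).E → A (i + 1)
  fw : ∀ i, Ω i → (d i).E → A (i + 2)
  abw : ∀ i ω, IsAff (bw i ω)
  ax : ∀ i ω, IsAff (x i ω)
  afw : ∀ i ω, IsAff (fw i ω)
  cb : ∀ i, Ω i → K i
  km : ∀ i, Ω i → K (i + 1)
  kp : ∀ i, Ω i → K (i + 3)
  cf : ∀ i, Ω i → K (i + 4)
  gin : ∀ i, Ω i → (d i).Dg → (d i).E → Prop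
  gout : ∀ i, Ω i → (d i).Dg → (d i).E → Prop
  ϱ : ∀ i, Ξ i → ℝ
  ob : ∀ i, Ξ i → A i × K i
  o : ∀ i, Ξ i → A (i + 1) × K (i + 1)
  n : ∀ i, Ξ i → A (i + 2) × K (i + 4)
  nf : ∀ i, Ξ i → A (i + 3) × K (i + 5)
  lawOut : ∀ i (F : A i × K i → A (i + 1) × K (i + 1) → A (i + 2) × K (i + 4) → K (i + 3) → ℂ),
    (d i).S (p i) (gout i) (-(d i).u)
      (fun ω e => F (bw i ω e, cb i ω) (x i ω e, km i ω) (fw i ω e, cf i ω) (kp i ω)) =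
    ∑ ξ, (ϱ i ξ : ℂ) * avg (F (ob i ξ) (o i ξ) (n i ξ))
  lawIn : ∀ i
    (F : A (i + 1) × K (i + 1) → A (i + 2) × K (i + 4) → A (i + 3) × K (i + 5) → K (i + 2) → ℂ),
    (d (i + 1)).S (p (i + 1)) (gin (i + 1)) (d (i + 1)).u
      (fun ω e => F (bw (i + 1) ω e, cb (i + 1) ω) (x (i + 1) ω e, kp (i + 1) ω)
        (fw (i + 1) ω e, cf (i + 1) ω) (km (i + 1) ω)) =
    ∑ ξ, (ϱ i ξ : ℂ) * avg (F (o i ξ) (n i ξ) (nf i ξ))
  C1 : ∀ i (ξ : Ξ i) (ω : Ω i) (e : (d i).E),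
    (x i ω e, km i ω) = o i ξ ↔ (fw i ω e, cf i ω) = n i ξ
  C2 : ∀ i (ξ : Ξ i) (ω : Ω (i + 1)) (e : (d (i + 1)).E),
    (bw (i + 1) ω e, cb (i + 1) ω) = o i ξ ↔ (x (i + 1) ω e, kp (i + 1) ω) = n i ξ
  C3 : ∀ i (ξ : Ξ (i + 1)) (ω : Ω i) (e : (d i).E), fw i ω e ≠ (o (i + 1) ξ).1
  C4 : ∀ i (ξ : Ξ i) (ω : Ω (i + 2)) (e : (d (i + 2)).E), bw (i + 2) ω e ≠ (n i ξ).1
  s1 : Summable (fun i => 1 / ((d i).Act.card : ℝ))
  s2 : Summable (fun i => 1 - ∑ ξ, ϱ i ξ)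
  s3 : Summable (fun i => 1 / (Fintype.card (K i) : ℝ))

attribute [instance] Sys.gA Sys.fA Sys.gK Sys.fK Sys.fΩ Sys.fΞ

namespace Sys

variable (s : Sys)

abbrev Pt (i : ℕ) : Type :=
  Ch (s.A (i + 1)) × Ch (s.K (i + 1)) × Ch (s.K (i + 2)) × Ch (s.K (i + 3))

abbrev V (i : ℕ) : Type := Ch (s.K (i + 2)) → s.Ω i → (s.d i).E → ℂ

abbrev W : Type := Π₀ i, s.V i

def ownv (i : ℕ) (g : s.Pt i) (ω : s.Ω i) (e : (s.d i).E) : ℂ :=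
  g.1 (s.x i ω e) * g.2.1 (s.km i ω) * g.2.2.2 (s.kp i ω)

def own (i : ℕ) (g : s.Pt i) : s.V i :=
  fun η ω e => if η = g.2.2.1 then s.ownv i g ω e else 0

def fwc (i : ℕ) (g : s.Pt (i + 1)) : s.V i :=
  fun η ω e => if η = g.2.1 then
    g.1 (s.fw i ω e) * g.2.2.1 (s.kp i ω) * g.2.2.2 (s.cf i ω) else 0

def bwc (i : ℕ) (g : s.Pt i) : s.V (i + 1) :=
  fun η ω e => if η = g.2.2.2 then
    g.1 (s.bw (i + 1) ω e) * g.2.1 (s.cb (i + 1) ω) * g.2.2.1 (s.km (i + 1) ω) else 0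

def yfam : (i : ℕ) → s.Pt i → s.W
  | 0, g => DFinsupp.single 0 (s.own 0 g) + DFinsupp.single 1 (s.bwc 0 g)
  | i + 1, g => DFinsupp.single (i + 1) (s.own (i + 1) g) +
      DFinsupp.single (i + 2) (s.bwc (i + 1) g) + DFinsupp.single i (s.fwc i g)

def FOut (i : ℕ) (g : s.Pt i) (v : s.W) : ℂ :=
  if g.2.2.1 ≠ 0 ∧ g.2.2.2 ≠ 0 then (Fintype.card (s.Pt i) : ℂ)⁻¹ *
    (s.d i).S (s.p i) (s.gout i) (-(s.d i).u)
      (fun ω e => conj (s.ownv i g ω e) * v i g.2.2.1 ω e)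
  else 0

def FIn (i : ℕ) (g : s.Pt i) (v : s.W) : ℂ :=
  if i ≠ 0 ∧ g.2.2.1 ≠ 0 ∧ g.2.1 ≠ 0 then (Fintype.card (s.Pt i) : ℂ)⁻¹ *
    (s.d i).S (s.p i) (s.gin i) (s.d i).u
      (fun ω e => conj (s.ownv i g ω e) * v i g.2.2.1 ω e)
  else 0

end Sys

def S_Q : Prop :=
  ∀ (s : Sys) (i : ℕ) (ξ : s.Ξ i) (η : Ch (s.K (i + 2))) (η' : Ch (s.K (i + 3))),
    ((Fintype.card (s.A (i + 1)) : ℂ) * (Fintype.card (s.K (i + 1)) : ℂ))⁻¹ •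
      ∑ γ : Ch (s.A (i + 1)), ∑ ζ : Ch (s.K (i + 1)),
        conj (γ (s.o i ξ).1 * ζ (s.o i ξ).2) • s.yfam i (γ, ζ, η, η') =
    ((Fintype.card (s.A (i + 2)) : ℂ) * (Fintype.card (s.K (i + 4)) : ℂ))⁻¹ •
      ∑ γ : Ch (s.A (i + 2)), ∑ ζ : Ch (s.K (i + 4)),
        conj (γ (s.n i ξ).1 * ζ (s.n i ξ).2) • s.yfam (i + 1) (γ, η, η', ζ)

def S_Cons : Prop :=
  ∀ (s : Sys) (i j : ℕ) (g' : s.Pt j),
    ∃ c : s.Ξ i → Ch (s.K (i + 2)) → Ch (s.K (i + 3)) → ℂ,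
      (∀ g : s.Pt i, s.FOut i g (s.yfam j g') = (Fintype.card (s.Pt i) : ℂ)⁻¹ *
        ∑ ξ, conj (g.1 (s.o i ξ).1 * g.2.1 (s.o i ξ).2) * c ξ g.2.2.1 g.2.2.2) ∧
      (∀ g : s.Pt (i + 1), s.FIn (i + 1) g (s.yfam j g') =
        (Fintype.card (s.Pt (i + 1)) : ℂ)⁻¹ *
        ∑ ξ, conj (g.1 (s.n i ξ).1 * g.2.2.2 (s.n i ξ).2) * c ξ g.2.1 g.2.2.1)

def S_Alg : Prop :=
  ∀ (s : Sys) (i j : ℕ) (g' : s.Pt j),
    ∑ g, s.FOut i g (s.yfam j g') • s.yfam i g =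
      ∑ g, s.FIn (i + 1) g (s.yfam j g') • s.yfam (i + 1) g

def S_Tr : Prop :=
  ∀ (s : Sys) (i : ℕ),
    ∑ g, s.FOut i g (s.yfam i g) =
      (((1 - 1 / (Fintype.card (s.K (i + 2)) : ℝ)) * (1 - 1 / (Fintype.card (s.K (i + 3)) : ℝ)) *
        ∑ ξ, s.ϱ i ξ : ℝ) : ℂ) ∧
    ∑ g, s.FIn (i + 1) g (s.yfam (i + 1) g) = ∑ g, s.FOut i g (s.yfam i g)

section Banach3

variable (𝕜 : Type) [RCLike 𝕜] (X : Type u) [NormedAddCommGroup X] [NormedSpace 𝕜 X]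

/-- The realisation of a system inside `X` with the cost estimate. -/
def FunFacts (s : Sys) : Prop :=
  ∃ (J : s.W →+ X) (cost : ∀ i, s.Pt i → ℝ), RLin 𝕜 X J ∧
    (∀ i g (c : ℂ), ‖c‖ ≤ 1 → ‖J (c • s.yfam i g)‖ ≤ 9) ∧
    (∀ i g (l : ℂ), ‖l‖ ≤ 1 → ∃ f : StrongDual 𝕜 X, ‖f‖ ≤ cost i g ∧
      ∀ v, f (J v) = (((l * (s.FOut i g v - s.FIn i g v)).re : ℝ) : 𝕜)) ∧
    Summable (fun i => ∑ g, cost i g)

def S_Fun : Prop := BlkFacts 𝕜 X → ∀ s : Sys, FunFacts 𝕜 X s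

end Banach3

/-! ## Part D. Cells, chains, gadgets -/

abbrev KB (b : ℕ) : Type := Fin b → ZMod 3

structure Cell (d : Dig) where
  Λ : Type
  W : Type
  In : Type
  Out : Type
  [gΛ : AddCommGroup Λ]
  [fΛ : Fintype Λ]
  [fW : Fintype W]
  [fIn : Fintype In]
  [fOut : Fintype Out]
  pw : W → ℝ
  pw0 : ∀ w, 0 ≤ pw w
  pw1 : ∑ w, pw w = 1
  win : In → ℝ
  win0 : ∀ n, 0 ≤ win n
  win1 : ∑ n, win n = 1
  wout : Out → ℝ
  wout0 : ∀ o, 0 ≤ wout o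
  wout1 : ∑ o, wout o = 1
  lab : W → d.E → Λ
  aff : ∀ w, IsAff (lab w)
  kin : W → KB d.b
  kout : W → KB d.b
  gI : In → Prop
  gO : Out → Prop
  inl : In → Λ
  outl : Out → Λ
  inl_inj : Function.Injective inl
  outl_inj : Function.Injective outl
  disj : ∀ n o, inl n ≠ outl o
  dI : In → KB d.b
  dO : Out → KB d.b
  detI : ∀ w e n, gI n → lab w e = inl n → kout w = dI n
  detO : ∀ w e o, gO o → lab w e = outl o → kin w = dO o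
  lawI : ∀ F : Λ → KB d.b → KB d.b → ℂ,
    d.S pw (fun _ => d.ge) d.u (fun w e => F (lab w e) (kout w) (kin w)) =
      ∑ n, if gI n then (win n : ℂ) * avg (F (inl n) (dI n)) else 0
  lawO : ∀ F : Λ → KB d.b → KB d.b → ℂ,
    d.S pw (fun _ => d.ge) (-d.u) (fun w e => F (lab w e) (kin w) (kout w)) =
      ∑ o, if gO o then (wout o : ℂ) * avg (F (outl o) (dO o)) else 0

attribute [instance] Cell.gΛ Cell.fΛ Cell.fW Cell.fIn Cell.fOut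

def Link {d d' : Dig} (c : Cell d) (c' : Cell d') : Prop :=
  ∃ Ψ : c.Out ≃ c'.In, ∀ o, c'.win (Ψ o) = c.wout o

def S_Chain : Prop :=
  ∃ (d : ℕ → Dig) (c : ∀ n, Cell (d n)), (∀ n, Link (c n) (c (n + 1))) ∧
    Summable (fun n => 1 / ((d n).Act.card : ℝ)) ∧ Summable (fun n => (d n).bad) ∧
    Summable (fun n => (1 / 3 : ℝ) ^ (d n).b)

def S_ChainSys : Prop := S_Chain → Nonempty Sys

def S_Mix : Prop :=
  ∀ (d : Dig) (Z : Type) [Fintype Z] (ws : Z → ℝ) (c : Z → Cell d),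
    (∀ z, 0 ≤ ws z) → ∑ z, ws z = 1 → ∃ c' : Cell d,
      (∀ F : ℝ → ℝ, ∑ n, F (c'.win n) = ∑ z, ∑ n, F (ws z * (c z).win n)) ∧
      (∀ F : ℝ → ℝ, ∑ o, F (c'.wout o) = ∑ z, ∑ o, F (ws z * (c z).wout o))

/-- Profile of the weighted set with `q ^ M k` points of weight `1 / (card Act * q ^ M k)` for each
active place `k`. -/
def gprof (d : Dig) (q : ℕ) (M : d.Dg → ℕ) (F : ℝ → ℝ) : ℝ :=
  ∑ k ∈ d.Act, (q : ℝ) ^ M k * F (1 / ((d.Act.card : ℝ) * (q : ℝ) ^ M k))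

def S_Gadget : Prop :=
  ∀ t b : ℕ, 1 ≤ t → 2 ≤ b → ∃ (d : Dig) (M : d.Dg → ℕ), d.b = b ∧ d.Act.card = t ^ 4 ∧
    (∀ k, M k ≤ 40 * t ^ 4) ∧ d.bad ≤ 27 * (t : ℝ) ^ 4 / 3 ^ b ∧
    ∀ τ ≤ t, ∃ c : Cell d, (∀ F : ℝ → ℝ, ∑ n, F (c.win n) = gprof d (3 ^ b) M F) ∧
      (∀ F : ℝ → ℝ, ∑ o, F (c.wout o) = gprof d (3 ^ b) (fun k => M k + τ) F)

/-- An affine pencil of homomorphisms with prescribed ranks at the plus and minus strings. -/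
structure Pen (d : Dig) (q τ : ℕ) (ν : d.Dg → ℕ) where
  W : Type
  O : Type
  [gW : AddCommGroup W]
  [fW : Fintype W]
  [gO : AddCommGroup O]
  [fO : Fintype O]
  T : d.E → W →+ O
  aff : ∀ w, IsAff (fun e => T e w)
  cardP : ∀ k ∈ d.Act, ∀ e, d.ge k e → Nat.card (T (d.tr k d.u e)).range = q ^ ν k
  cardM : ∀ k ∈ d.Act, ∀ e, d.ge k e → Nat.card (T (d.tr k (-d.u) e)).range = q ^ (ν k + τ)

attribute [instance] Pen.gW Pen.fW Pen.gO Pen.fO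

/-- A pencil with two killing variables. -/
structure Lin (d : Dig) (q τ : ℕ) (ν : d.Dg → ℕ) where
  pen : Pen d q τ ν
  kin : pen.W →+ KB d.b
  kout : pen.W →+ KB d.b
  detP : ∀ k ∈ d.Act, ∀ e, d.ge k e → ∀ w, pen.T (d.tr k d.u e) w = 0 → kout w = 0
  detM : ∀ k ∈ d.Act, ∀ e, d.ge k e → ∀ w, pen.T (d.tr k (-d.u) e) w = 0 → kin w = 0
  indP : ∀ k ∈ d.Act, ∀ e, d.ge k e → ∀ κ, ∃ w, pen.T (d.tr k d.u e) w = 0 ∧ kin w = κ
  indM : ∀ k ∈ d.Act, ∀ e, d.ge k e → ∀ κ, ∃ w, pen.T (d.tr k (-d.u) e) w = 0 ∧ kout w = κ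

/-- Number of places before `k`. -/
def past (d : Dig) (k : d.Dg) : ℕ := (univ.filter (fun k' : d.Dg => k' < k)).card

def S_LinCell : Prop :=
  ∀ (d : Dig) (q τ : ℕ) (ν : d.Dg → ℕ), Fintype.card d.D = q → d.u ≠ 0 → d.u ≠ -d.u →
    (∀ k e e', (∀ k', k' < k → e k' = e' k') → d.ge k e → d.ge k e') →
    (∀ k ∈ d.Act, ∃ e, d.ge k e) → Lin d q τ ν →
    ∃ c : Cell d, (∀ F : ℝ → ℝ, ∑ n, F (c.win n) = gprof d q (fun k => past d k + ν k) F) ∧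
      (∀ F : ℝ → ℝ, ∑ o, F (c.wout o) = gprof d q (fun k => past d k + ν k + τ) F)

theorem three_smul_one (F : Type) [Field F] [CharP F 3] : 3 • (1 : F) = 0 := by
  have h := CharP.cast_eq_zero F 3
  simpa using h

/-- Digits in a finite field of characteristic three. -/
abbrev fieldDig (F : Type) [Field F] [Fintype F] [CharP F 3] (b : ℕ) (Dg : Type) [Fintype Dg]
    [LinearOrder Dg] (Act : Finset Dg) (hA : Act.Nonempty) : Dig where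
  Dg := Dg
  D := F
  u := 1
  hu := three_smul_one F
  Act := Act
  hAct := hA
  b := b
  ge := fun k e => ∀ k', k' < k → e k' ≠ 0 ∧ e k' ≠ 1 ∧ e k' ≠ -1

def S_Kill : Prop :=
  ∀ (F : Type) [Field F] [Fintype F] [CharP F 3] (b : ℕ) (Dg : Type) [Fintype Dg]
    [LinearOrder Dg] (Act : Finset Dg) (hA : Act.Nonempty),
    ((F ≃+ KB b) → Nonempty (Lin (fieldDig F b Dg Act hA) (Fintype.card F) 0
      (fun _ => 2 * Fintype.card Dg - 1))) ∧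
    (fieldDig F b Dg Act hA).bad ≤ 3 * (Fintype.card Dg : ℝ) / (Fintype.card F : ℝ)

def S_Tri : Prop :=
  ∀ (F : Type) [Field F] [Fintype F] (L : Type) [Fintype L] (ξ : L → ℤ) (m : L → L → F)
    (u₀ : L), (∀ u u', m u u' ≠ 0 → u' = u ∨ ξ u < ξ u') → (∀ u, u ≠ u₀ → m u u ≠ 0) →
    Nat.card {a : L → F // ∀ u, ∑ u', m u u' * a u' = 0} =
      if m u₀ u₀ = 0 then Fintype.card F else 1

def S_Pen : Prop :=
  ∀ (F : Type) [Field F] [Fintype F] [CharP F 3] (b t : ℕ), 1 ≤ t →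
    ∃ (Dg : Type) (_ : Fintype Dg) (_ : LinearOrder Dg) (Act : Finset Dg) (hA : Act.Nonempty)
      (ν : Dg → ℕ), Act.card = t ^ 4 ∧ Fintype.card Dg ≤ 9 * t ^ 4 ∧ (∀ k, ν k ≤ 10 * t ^ 3) ∧
      Nonempty (Pen (fieldDig F b Dg Act hA) (Fintype.card F) 0 ν) ∧
      Nonempty (Pen (fieldDig F b Dg Act hA) (Fintype.card F) 1 ν)

end Pool.Agent.P.MP_c77070_an
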