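import Pool.Agent.P.MP_c77070_an.Basic

noncomputable section

namespace Pool.Agent.P.MP_c77070_an

open Filter Topology Finset
open scoped Classical ComplexConjugate

universe u

namespace EmbA

variable {𝕜 : Type} [RCLike 𝕜] {X : Type u} [NormedAddCommGroup X] [NormedSpace 𝕜 X]

theorem hahn {W : Type} [AddCommGroup W] [Module 𝕜 W] (A : W →ₗ[𝕜] X) (g : W →ₗ[𝕜] 𝕜) (M : ℝ)
    (hM : 0 ≤ M) (h : ∀ ξ, ‖g ξ‖ ≤ M * ‖A ξ‖) :
    ∃ f : StrongDual 𝕜 X, ‖f‖ ≤ M ∧ ∀ ξ, f (A ξ) = g ξ := by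
  obtain ⟨r, hr⟩ := A.rangeRestrict.exists_rightInverse_of_surjective
    (LinearMap.range_eq_top.2 A.surjective_rangeRestrict)
  have hr' : ∀ y : LinearMap.range A, A (r y) = y := fun y =>
    congrArg Subtype.val (LinearMap.congr_fun hr y)
  have hb : ∀ y : LinearMap.range A, ‖(g ∘ₗ r) y‖ ≤ M * ‖y‖ := fun y => by
    have := h (r y)
    rw [hr'] at this
    exact this
  obtain ⟨f, hf, hn⟩ := exists_extension_norm_eq (LinearMap.range A) ((g ∘ₗ r).mkContinuous M hb)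
  refine ⟨f, hn.trans_le (LinearMap.mkContinuous_norm_le _ hM hb), fun ξ => ?_⟩
  have h1 := hf ⟨A ξ, LinearMap.mem_range_self A ξ⟩
  have h2 := h (r ⟨A ξ, LinearMap.mem_range_self A ξ⟩ - ξ)
  rw [map_sub A, hr', sub_self, norm_zero, mul_zero, norm_le_zero_iff, map_sub, sub_eq_zero] at h2
  exact h1.trans h2

theorem norming (S : Finset X) : ∃ Φ : Finset (StrongDual 𝕜 X),
    ∀ x ∈ Submodule.span 𝕜 (S : Set X), ∀ y : X, (∀ φ ∈ Φ, φ x = φ y) → ‖x‖ ≤ 2 * ‖y‖ := by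
  set E := Submodule.span 𝕜 (S : Set X)
  have : FiniteDimensional 𝕜 E := FiniteDimensional.span_finset 𝕜 S
  have : ProperSpace E := FiniteDimensional.proper_rclike 𝕜 E
  have hK : IsCompact (Metric.sphere (0 : E) 1) := isCompact_sphere _ _
  obtain ⟨T, hT⟩ := hK.elim_finite_subcover
    (fun φ : {φ : StrongDual 𝕜 X // ‖φ‖ ≤ 1} => {x : E | 1 / 2 < ‖φ.1 x‖})
    (fun φ => isOpen_lt continuous_const (by fun_prop)) (by
      intro x hx
      obtain ⟨φ, h1, h2⟩ := exists_dual_vector'' 𝕜 (x : X)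
      refine Set.mem_iUnion.2 ⟨⟨φ, h1⟩, ?_⟩
      have hx1 : ‖(x : X)‖ = 1 := by simpa using hx
      simp only [Set.mem_ofPred_eq, h2, hx1]
      norm_num)
  refine ⟨T.image Subtype.val, fun x hx y hy => ?_⟩
  by_cases h0 : x = 0
  · rw [h0, norm_zero]; positivity
  have hn : 0 < ‖x‖ := norm_pos_iff.2 h0
  have hn' : ((‖x‖ : ℝ) : 𝕜) ≠ 0 := by exact_mod_cast hn.ne'
  have hx' : (⟨((‖x‖ : ℝ) : 𝕜)⁻¹ • x, E.smul_mem _ hx⟩ : E) ∈ Metric.sphere (0 : E) 1 := by
    simp [norm_smul, hn.ne']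
  obtain ⟨φ, hφ, h1⟩ := Set.mem_iUnion₂.1 (hT hx')
  simp only [Set.mem_ofPred_eq, map_smul, norm_smul, norm_inv, RCLike.norm_ofReal, abs_norm] at h1
  rw [hy φ.1 (mem_image_of_mem _ hφ)] at h1
  have h2 : ‖φ.1 y‖ ≤ ‖y‖ := (φ.1.le_opNorm y).trans (mul_le_of_le_one_left (norm_nonneg _) φ.2)
  rw [inv_mul_eq_div, lt_div_iff₀ hn] at h1
  linarith

theorem pick (h : Block1Facts 𝕜 X) (Φ : Finset (StrongDual 𝕜 X)) (C : Type) [Fintype C] (L : ℕ) :
    ∃ v : C → Fin L → X,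
    (∀ φ ∈ Φ, ∀ c t, φ (v c t) = 0) ∧
    (∀ (α : C → ℝ) (t : C → Fin L), (∀ c, |α c| ≤ 1) →
      ‖∑ c, ((α c : ℝ) : 𝕜) • v c (t c)‖ ≤ 1) ∧
    ∀ (ξ : C → Fin L → 𝕜) (a : C → ℝ) (s : C → ℕ), (∀ c, |a c| ≤ 1) →
      ‖∑ c, ((a c : ℝ) : 𝕜) * ∑ t : Fin L, (if (t : ℕ) < s c then ξ c t else 0)‖ ≤
        32 * Fintype.card C * ‖∑ c, ∑ t, ξ c t • v c t‖ := by
  obtain ⟨v, h1, h2, h3⟩ := h Φ (Fintype.card C) L
  let e := (Fintype.equivFin C).symm
  refine ⟨fun c => v (e.symm c), fun φ hφ c t => h1 φ hφ _ _, fun α t hα => ?_,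
    fun ξ a s ha => ?_⟩
  · rw [← e.sum_comp]
    simpa using h2 (fun i => α (e i)) (fun i => t (e i)) (fun i => hα _)
  · rw [← e.sum_comp, ← e.sum_comp]
    simpa using h3 (fun i => ξ (e i)) (fun i => a (e i)) (fun i => s (e i)) (fun i => ha _)

theorem lc_block {β : Type} {D : β → Type} [∀ b, Fintype (D b)] {Y : Type*} [AddCommGroup Y]
    [Module 𝕜 Y] (b : β) (W : (Σ b, D b) → Y) (hW : ∀ i, i.1 ≠ b → W i = 0)
    (ξ : (Σ b, D b) →₀ 𝕜) :
    Finsupp.linearCombination 𝕜 W ξ = ∑ p : D b, ξ ⟨b, p⟩ • W ⟨b, p⟩ := by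
  induction ξ using Finsupp.induction_linear with
  | zero => simp
  | add f g hf hg => simp [hf, hg, add_smul, sum_add_distrib]
  | single i r =>
    obtain ⟨b', p'⟩ := i
    rw [Finsupp.linearCombination_single]
    by_cases hb : b' = b
    · subst hb
      rw [sum_eq_single p']
      · simp
      · intro p _ hp
        rw [Finsupp.single_eq_of_ne, zero_smul]
        intro h
        exact hp (sigma_mk_injective h)
      · simp
    · rw [hW _ hb, smul_zero]
      refine (sum_eq_zero fun p _ => ?_).symm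
      rw [Finsupp.single_eq_of_ne, zero_smul]
      intro h
      exact hb (congrArg Sigma.fst h).symm

end EmbA

open EmbA in
theorem emb (𝕜 : Type) [RCLike 𝕜] (X : Type u) [NormedAddCommGroup X] [NormedSpace 𝕜 X] :
    S_Emb 𝕜 X := by
  intro h β _ C _ L
  choose pk hp1 hp2 hp3 using fun (Φ : Finset (StrongDual 𝕜 X)) (b : β) => pick h Φ (C b) (L b)
  choose nm hnm using fun S : Finset X => norming (𝕜 := 𝕜) S
  obtain ⟨enc, henc⟩ := Countable.exists_injective_nat β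
  have hblk : ∀ (Φ : Finset (StrongDual 𝕜 X)) (n : ℕ), ∃ T : Finset X,
      ∀ b, enc b = n → ∀ c t, pk Φ b c t ∈ T := by
    intro Φ n
    by_cases hn : ∃ b, enc b = n
    · obtain ⟨b0, hb0⟩ := hn
      refine ⟨univ.image (fun p : C b0 × Fin (L b0) => pk Φ b0 p.1 p.2), fun b hb c t => ?_⟩
      obtain rfl : b = b0 := henc (hb.trans hb0.symm)
      exact mem_image.2 ⟨(c, t), mem_univ _, rfl⟩
    · exact ⟨∅, fun b hb => (hn ⟨b, hb⟩).elim⟩
  choose blk hblk using hblk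
  let st : ℕ → Finset X × Finset (StrongDual 𝕜 X) := fun n =>
    Nat.rec (∅, nm ∅) (fun n s => (s.1 ∪ blk s.2 n, s.2 ∪ nm (s.1 ∪ blk s.2 n))) n
  have hS : Monotone fun n => (st n).1 :=
    monotone_nat_of_le_succ fun n => subset_union_left
  have hΦ : Monotone fun n => (st n).2 :=
    monotone_nat_of_le_succ fun n => subset_union_left
  have hN : ∀ n, nm (st n).1 ⊆ (st n).2 := by
    intro n
    cases n with
    | zero => exact subset_rfl
    | succ n => exact subset_union_right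
  let v : ∀ b, C b → Fin (L b) → X := fun b => pk (st (enc b)).2 b
  have hv1 : ∀ b c t n, enc b < n → v b c t ∈ (st n).1 := fun b c t n hn =>
    hS (Nat.succ_le_of_lt hn) (mem_union_right _ (hblk _ _ b rfl c t))
  have hv2 : ∀ b c t n, n ≤ enc b → ∀ φ ∈ (st n).2, φ (v b c t) = 0 := fun b c t n hn φ hφ =>
    hp1 _ b φ (hΦ hn hφ) c t
  refine ⟨v, fun b => hp2 _ b, fun b a s ha => ?_⟩
  let V : (Σ b, C b × Fin (L b)) → X := fun i => v i.1 i.2.1 i.2.2
  let Vn : ℕ → (Σ b, C b × Fin (L b)) → X := fun n i => if enc i.1 < n then V i else 0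
  have hP : ∀ n ξ, ‖Finsupp.linearCombination 𝕜 (Vn n) ξ‖ ≤
      2 * ‖Finsupp.linearCombination 𝕜 V ξ‖ := by
    intro n ξ
    refine hnm (st n).1 _ ?_ _ fun φ hφ => ?_
    · rw [Finsupp.linearCombination_apply]
      refine Submodule.sum_mem _ fun i _ => Submodule.smul_mem _ _ ?_
      simp only [Vn]
      split_ifs with hi
      · exact Submodule.subset_span (hv1 _ _ _ n hi)
      · exact Submodule.zero_mem _
    · simp only [Finsupp.linearCombination_apply, Finsupp.sum, map_sum, map_smul]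
      refine sum_congr rfl fun i _ => ?_
      simp only [Vn]
      split_ifs with hi
      · rfl
      · rw [map_zero, hv2 _ _ _ n (not_lt.1 hi) φ (hN n hφ)]
  have hB : ∀ ξ : (Σ b, C b × Fin (L b)) →₀ 𝕜, ‖∑ c, ∑ t, ξ ⟨b, (c, t)⟩ • v b c t‖ ≤
      4 * ‖Finsupp.linearCombination 𝕜 V ξ‖ := by
    intro ξ
    have h1 := lc_block (𝕜 := 𝕜) b (fun i => Vn (enc b + 1) i - Vn (enc b) i) (by
      intro i hi
      have : enc i.1 ≠ enc b := fun h => hi (henc h)
      simp only [Vn]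
      split_ifs with h1 h2 h2
      · exact sub_self _
      · omega
      · omega
      · exact sub_self _) ξ
    have h2 : Finsupp.linearCombination 𝕜 (fun i => Vn (enc b + 1) i - Vn (enc b) i) ξ =
        Finsupp.linearCombination 𝕜 (Vn (enc b + 1)) ξ -
          Finsupp.linearCombination 𝕜 (Vn (enc b)) ξ := by
      simp only [Finsupp.linearCombination_apply, Finsupp.sum, smul_sub, sum_sub_distrib]
    have h3 : ∑ c, ∑ t, ξ ⟨b, (c, t)⟩ • v b c t = Finsupp.linearCombination 𝕜 (Vn (enc b + 1)) ξ -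
          Finsupp.linearCombination 𝕜 (Vn (enc b)) ξ := by
      rw [← h2, h1, Fintype.sum_prod_type]
      simp [Vn, V]
    rw [h3]
    have := norm_sub_le (Finsupp.linearCombination 𝕜 (Vn (enc b + 1)) ξ)
      (Finsupp.linearCombination 𝕜 (Vn (enc b)) ξ)
    linarith [hP (enc b + 1) ξ, hP (enc b) ξ]
  let g : C b × Fin (L b) → 𝕜 := fun p => if (p.2 : ℕ) < s p.1 then ((a p.1 : ℝ) : 𝕜) else 0
  let val : (Σ b, C b × Fin (L b)) → 𝕜 := Function.extend (Sigma.mk b) g (fun _ => 0)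
  have hval1 : ∀ p, val ⟨b, p⟩ = g p := fun p =>
    (sigma_mk_injective (β := fun b => C b × Fin (L b)) (i := b)).extend_apply g _ p
  have hval2 : ∀ i, i.1 ≠ b → val i = 0 := fun i hi =>
    Function.extend_apply' (f := Sigma.mk b) g (fun _ => (0 : 𝕜)) i
      (fun ⟨p, hp⟩ => hi (congrArg Sigma.fst hp).symm)
  obtain ⟨f, hf, hf'⟩ := hahn (Finsupp.linearCombination 𝕜 V) (Finsupp.linearCombination 𝕜 val)
    (128 * Fintype.card (C b)) (by positivity) (by
      intro ξ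
      have h1 := hp3 (st (enc b)).2 b (fun c t => ξ ⟨b, (c, t)⟩) a s ha
      have h2 : Finsupp.linearCombination 𝕜 val ξ = ∑ c, ((a c : ℝ) : 𝕜) *
          ∑ t : Fin (L b), (if (t : ℕ) < s c then ξ ⟨b, (c, t)⟩ else 0) := by
        rw [lc_block b val hval2, Fintype.sum_prod_type]
        refine sum_congr rfl fun c _ => ?_
        rw [mul_sum]
        refine sum_congr rfl fun t _ => ?_
        rw [hval1]
        simp only [g]
        split_ifs
        · rw [smul_eq_mul, mul_comm]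
        · simp
      rw [h2]
      refine h1.trans ?_
      have h3 := hB ξ
      have h4 : (0 : ℝ) ≤ 32 * Fintype.card (C b) := by positivity
      calc _ ≤ 32 * (Fintype.card (C b) : ℝ) * (4 * ‖Finsupp.linearCombination 𝕜 V ξ‖) :=
            mul_le_mul_of_nonneg_left h3 h4
        _ = _ := by ring)
  have hfV : ∀ i, f (V i) = val i := fun i => by
    simpa using hf' (Finsupp.single i 1)
  exact ⟨f, hf, fun c t => (hfV ⟨b, (c, t)⟩).trans (hval1 _),
    fun b' hb' c t => (hfV ⟨b', (c, t)⟩).trans (hval2 _ hb')⟩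

end Pool.Agent.P.MP_c77070_an
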