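import Pool.Agent.P.MP_c77070_an.Basic

noncomputable section

namespace Pool.Agent.P.MP_c77070_an

open Filter Topology Finset
open scoped Classical ComplexConjugate

universe u

namespace EmbCA

/-- Real or imaginary part. -/
def rp (ε : Bool) (z : ℂ) : ℝ := if ε then z.im else z.re

/-- The dual coefficients. -/
def rq (ε : Bool) (z : ℂ) : ℝ := if ε then -z.im else z.re

theorem rp_add (ε : Bool) (z w : ℂ) : rp ε (z + w) = rp ε z + rp ε w := by
  cases ε <;> simp [rp]

theorem rp_zero (ε : Bool) : rp ε 0 = 0 := by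
  cases ε <;> simp [rp]

theorem rp_smul (ε : Bool) (r : ℝ) (z : ℂ) : rp ε ((r : ℂ) * z) = r * rp ε z := by
  cases ε <;> simp [rp]

theorem rp_abs (ε : Bool) (z : ℂ) (h : ‖z‖ ≤ 1) : |rp ε z| ≤ 1 := by
  cases ε
  · simpa [rp] using (Complex.abs_re_le_norm z).trans h
  · simpa [rp] using (Complex.abs_im_le_norm z).trans h

theorem rq_abs (ε : Bool) (z : ℂ) (h : ‖z‖ ≤ 1) : |rq ε z| ≤ 1 := by
  cases ε
  · simpa [rq] using (Complex.abs_re_le_norm z).trans h
  · simpa [rq] using (Complex.abs_im_le_norm z).trans h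

theorem sum_rp_rq (a w : ℂ) : ∑ ε : Bool, rp ε w * rq ε a = (a * w).re := by
  simp [rp, rq]; ring

/-- Number of copies of the block `c`. -/
def nn {C : Type} [Fintype C] (p : C → ℝ) (c : C) : ℕ :=
  ⌊p c * (Fintype.card C : ℝ) / ∑ c', p c'⌋₊ + 1

theorem nn_pos {C : Type} [Fintype C] (p : C → ℝ) (c : C) : (0 : ℝ) < nn p c := by
  have : 0 < nn p c := Nat.succ_pos _
  exact_mod_cast this

theorem le_nn {C : Type} [Fintype C] (p : C → ℝ) (c : C) :
    p c * (Fintype.card C : ℝ) / ∑ c', p c' ≤ nn p c := by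
  simp only [nn, Nat.cast_add, Nat.cast_one]
  exact (Nat.lt_floor_add_one _).le

theorem sum_nn {C : Type} [Fintype C] (p : C → ℝ) (hp : ∀ c, 0 ≤ p c) (hP : ∑ c', p c' ≠ 0) :
    ∑ c, (nn p c : ℝ) ≤ 2 * (Fintype.card C : ℝ) := by
  have hP0 : 0 ≤ ∑ c', p c' := sum_nonneg fun c _ => hp c
  have h1 : ∀ c, (nn p c : ℝ) ≤ p c * (Fintype.card C : ℝ) / (∑ c', p c') + 1 := by
    intro c
    simp only [nn, Nat.cast_add, Nat.cast_one]
    have : 0 ≤ p c * (Fintype.card C : ℝ) / ∑ c', p c' :=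
      div_nonneg (mul_nonneg (hp c) (Nat.cast_nonneg _)) hP0
    linarith [Nat.floor_le this]
  calc ∑ c, (nn p c : ℝ) ≤ ∑ c, (p c * (Fintype.card C : ℝ) / (∑ c', p c') + 1) :=
        sum_le_sum fun c _ => h1 c
    _ = 2 * (Fintype.card C : ℝ) := by
        rw [sum_add_distrib, ← sum_div, ← sum_mul]
        simp only [sum_const, card_univ, nsmul_eq_mul, mul_one]
        field_simp
        ring

/-- The duplicated index set. -/
abbrev Dup {C : Type} [Fintype C] (p : C → ℝ) : Type := (Σ c : C, Fin (nn p c)) × Bool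

theorem card_Dup {C : Type} [Fintype C] (p : C → ℝ) :
    (Fintype.card (Dup p) : ℝ) = 2 * ∑ c, (nn p c : ℝ) := by
  simp only [Dup, Fintype.card_prod, Fintype.card_sigma, Fintype.card_fin, Fintype.card_bool]
  push_cast
  ring

variable {𝕜 : Type} [RCLike 𝕜] {X : Type u} [NormedAddCommGroup X] [NormedSpace 𝕜 X]

/-- The embedding of one block. -/
def emb {C : Type} [Fintype C] (p : C → ℝ) {L : ℕ} (v : Dup p → Fin L → X) :
    (C → Fin L → ℂ) →+ X :=
  AddMonoidHom.mk' (fun w => ∑ x : Dup p, ∑ t, ((rp x.2 (w x.1.1 t) : ℝ) : 𝕜) • v x t) (by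
    intro w w'
    simp only [Pi.add_apply, rp_add, RCLike.ofReal_add, add_smul, sum_add_distrib])

theorem emb_apply {C : Type} [Fintype C] (p : C → ℝ) {L : ℕ} (v : Dup p → Fin L → X)
    (w : C → Fin L → ℂ) :
    emb (𝕜 := 𝕜) p v w = ∑ x : Dup p, ∑ t, ((rp x.2 (w x.1.1 t) : ℝ) : 𝕜) • v x t := rfl

theorem emb_rlin {C : Type} [Fintype C] (p : C → ℝ) {L : ℕ} (v : Dup p → Fin L → X) :
    RLin 𝕜 X (emb (𝕜 := 𝕜) p v) := by
  intro r w
  simp only [emb_apply, Pi.smul_apply, smul_eq_mul, rp_smul, RCLike.ofReal_mul, smul_sum,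
    mul_smul]

theorem emb_ind {C : Type} [Fintype C] (p : C → ℝ) {L : ℕ} (v : Dup p → Fin L → X)
    (t : C → Fin L) (z : C → ℂ) :
    emb (𝕜 := 𝕜) p v (fun c t' => if t' = t c then z c else 0) =
      ∑ x : Dup p, ((rp x.2 (z x.1.1) : ℝ) : 𝕜) • v x (t x.1.1) := by
  rw [emb_apply]
  refine sum_congr rfl fun x _ => ?_
  rw [sum_eq_single (t x.1.1)]
  · simp
  · intro t' _ h
    simp [h, rp_zero]
  · simp

theorem val_emb {C : Type} [Fintype C] (p : C → ℝ) {L : ℕ} (v : Dup p → Fin L → X)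
    (f : StrongDual 𝕜 X) (w : C → Fin L → ℂ) :
    f (emb (𝕜 := 𝕜) p v w) =
      ∑ x : Dup p, ∑ t, ((rp x.2 (w x.1.1 t) : ℝ) : 𝕜) * f (v x t) := by
  simp only [emb_apply, map_sum, map_smul, smul_eq_mul]

/-- The real identity behind the value of the functional. -/
theorem real_id {C : Type} [Fintype C] (p : C → ℝ) (hP : ∑ c', p c' ≠ 0)
    (hc : (Fintype.card C : ℝ) ≠ 0) {L : ℕ} (a : C → ℂ) (s : C → ℕ) (w : C → Fin L → ℂ) :
    (∑ c', p c') / (Fintype.card C : ℝ) * ∑ x : Dup p, ∑ t : Fin L, rp x.2 (w x.1.1 t) *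
      (if (t : ℕ) < s x.1.1 then
        p x.1.1 * (Fintype.card C : ℝ) / (∑ c', p c') / nn p x.1.1 * rq x.2 (a x.1.1) else 0) =
    (∑ c, (p c : ℂ) * a c * ∑ t : Fin L, (if (t : ℕ) < s c then w c t else 0)).re := by
  rw [Fintype.sum_prod_type, Fintype.sum_sigma, Complex.re_sum, mul_sum]
  refine sum_congr rfl fun c _ => ?_
  simp only [sum_const, card_univ, Fintype.card_fin, nsmul_eq_mul]
  rw [sum_comm, mul_sum, mul_sum, mul_sum, Complex.re_sum]
  refine sum_congr rfl fun t _ => ?_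
  have hn := (nn_pos p c).ne'
  by_cases h : (t : ℕ) < s c
  · simp only [h, if_true]
    have h1 : ∑ ε : Bool, rp ε (w c t) *
        (p c * (Fintype.card C : ℝ) / (∑ c', p c') / nn p c * rq ε (a c)) =
        p c * (Fintype.card C : ℝ) / (∑ c', p c') / nn p c * (a c * w c t).re := by
      rw [← sum_rp_rq, mul_sum]
      exact sum_congr rfl fun ε _ => by ring
    rw [h1, mul_assoc (p c : ℂ), Complex.re_ofReal_mul]
    field_simp
  · simp [h]

end EmbCA

open EmbCA in
theorem embC (𝕜 : Type) [RCLike 𝕜] (X : Type u) [NormedAddCommGroup X] [NormedSpace 𝕜 X] :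
    S_EmbC 𝕜 X := by
  intro H β _ C _ p L hp
  obtain ⟨v, hv1, hv2⟩ := H β (fun b => Dup (p b)) L
  refine ⟨fun b => emb (𝕜 := 𝕜) (p b) (v b), fun b => emb_rlin _ _, ?_, ?_⟩
  · intro b t z hz
    rw [emb_ind]
    exact hv1 b (fun x => rp x.2 (z x.1.1)) (fun x => t x.1.1) (fun x => rp_abs _ _ (hz _))
  · intro b a s ha
    have hP0 : 0 ≤ ∑ c', p b c' := sum_nonneg fun c _ => hp b c
    by_cases hP : ∑ c', p b c' = 0
    · have h0 : ∀ c, p b c = 0 := fun c =>
        (sum_eq_zero_iff_of_nonneg (fun c _ => hp b c)).1 hP c (mem_univ c)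
      refine ⟨0, by simp [hP], fun w => by simp [h0], fun b' _ w => by simp⟩
    · have hc : (Fintype.card (C b) : ℝ) ≠ 0 := by
        intro h
        have h' : Fintype.card (C b) = 0 := by exact_mod_cast h
        haveI := Fintype.card_eq_zero_iff.1 h'
        exact hP (by simp)
      have hc0 : (0 : ℝ) < Fintype.card (C b) := lt_of_le_of_ne (Nat.cast_nonneg _) hc.symm
      obtain ⟨f, hf1, hf2, hf3⟩ := hv2 b
        (fun x => p b x.1.1 * (Fintype.card (C b) : ℝ) / (∑ c', p b c') / nn (p b) x.1.1 *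
          rq x.2 (a x.1.1)) (fun x => s x.1.1) (by
          intro x
          have h1 : 0 ≤ p b x.1.1 * (Fintype.card (C b) : ℝ) / (∑ c', p b c') / nn (p b) x.1.1 :=
            div_nonneg (div_nonneg (mul_nonneg (hp _ _) hc0.le) hP0) (nn_pos _ _).le
          have h2 : p b x.1.1 * (Fintype.card (C b) : ℝ) / (∑ c', p b c') / nn (p b) x.1.1 ≤ 1 :=
            (div_le_one (nn_pos _ _)).2 (le_nn _ _)
          rw [abs_mul, abs_of_nonneg h1]
          exact mul_le_one₀ h2 (abs_nonneg _) (rq_abs _ _ (ha _)))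
      refine ⟨(((∑ c', p b c') / (Fintype.card (C b) : ℝ) : ℝ) : 𝕜) • f, ?_, ?_, ?_⟩
      · rw [norm_smul, RCLike.norm_ofReal, abs_of_nonneg (div_nonneg hP0 hc0.le)]
        have h1 : ‖f‖ ≤ 512 * (Fintype.card (C b) : ℝ) := by
          have h2 := card_Dup (p b)
          have h3 := sum_nn (p b) (hp b) hP
          have h4 : ‖f‖ ≤ 128 * (Fintype.card (Dup (p b)) : ℝ) := hf1
          linarith
        calc (∑ c', p b c') / (Fintype.card (C b) : ℝ) * ‖f‖
            ≤ (∑ c', p b c') / (Fintype.card (C b) : ℝ) * (512 * (Fintype.card (C b) : ℝ)) :=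
              mul_le_mul_of_nonneg_left h1 (div_nonneg hP0 hc0.le)
          _ = 512 * ∑ c', p b c' := by field_simp
      · intro w
        rw [ContinuousLinearMap.smul_apply, val_emb, ← real_id (p b) hP hc a s w, smul_eq_mul,
          RCLike.ofReal_mul, RCLike.ofReal_sum]
        congr 1
        refine sum_congr rfl fun x _ => ?_
        rw [RCLike.ofReal_sum]
        refine sum_congr rfl fun t _ => ?_
        rw [hf2]
        by_cases h : (t : ℕ) < s x.1.1
        · simp only [h, if_true]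
          exact (RCLike.ofReal_mul _ _).symm
        · simp only [h, if_false, mul_zero, RCLike.ofReal_zero]
      · intro b' hb w
        rw [ContinuousLinearMap.smul_apply, val_emb]
        simp only [hf3 b' hb, mul_zero, sum_const_zero, smul_zero]

end Pool.Agent.P.MP_c77070_an
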