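import Pool.Agent.P.MP_c77070_an.Basic

/-! Realisation of a staged system inside the Banach space, with the cost estimate. -/

noncomputable section

namespace Pool.Agent.P.MP_c77070_an

open Filter Topology Finset
open scoped Classical ComplexConjugate

universe u

namespace FunA

variable {X : Type u} [NormedAddCommGroup X] (s : Sys)

/-- The blocks. -/
abbrev Bl : Type := Σ i, Ch (s.K (i + 2))

/-- The map on one stage. -/
def Ji (Jb : ∀ b : Bl s, (s.Ω b.1 → (s.d b.1).E → ℂ) →+ X) (i : ℕ) : s.V i →+ X where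
  toFun v := ∑ η, Jb ⟨i, η⟩ (v η)
  map_zero' := sum_eq_zero fun η _ => map_zero (Jb ⟨i, η⟩)
  map_add' v w := by
    rw [← sum_add_distrib]
    exact sum_congr rfl fun η _ => map_add (Jb ⟨i, η⟩) (v η) (w η)

/-- The global map. -/
def JJ (Jb : ∀ b : Bl s, (s.Ω b.1 → (s.d b.1).E → ℂ) →+ X) : s.W →+ X :=
  DFinsupp.sumAddHom (Ji s Jb)

variable {s}

theorem JJ_single (Jb : ∀ b : Bl s, (s.Ω b.1 → (s.d b.1).E → ℂ) →+ X) (i : ℕ) (v : s.V i) :
    JJ s Jb (DFinsupp.single i v) = ∑ η, Jb ⟨i, η⟩ (v η) :=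
  DFinsupp.sumAddHom_single _ i v

theorem ind {Q : s.W → Prop} (h0 : Q 0) (ha : ∀ v w, Q v → Q w → Q (v + w))
    (hs : ∀ i v, Q (DFinsupp.single i v)) (w : s.W) : Q w := by
  induction w using DFinsupp.induction with
  | h0 => exact h0
  | ha i b f _ _ ih => exact ha _ _ (hs i b) ih

theorem one_block {Jb : ∀ b : Bl s, (s.Ω b.1 → (s.d b.1).E → ℂ) →+ X}
    (hJ : ∀ b v, IsCh v → ‖Jb b v‖ ≤ 3) (i : ℕ) (η0 : Ch (s.K (i + 2)))
    (o : s.Ω i → (s.d i).E → ℂ) (ho : IsCh o) (c : ℂ) (hc : ‖c‖ ≤ 1) (v : s.V i)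
    (hv : ∀ η ω e, v η ω e = if η = η0 then o ω e else 0) :
    ‖JJ s Jb (c • DFinsupp.single i v)‖ ≤ 3 := by
  rw [← DFinsupp.single_smul, JJ_single, sum_eq_single η0]
  · refine hJ ⟨i, η0⟩ _ fun ω => ?_
    obtain ⟨c', χ, h1, h2⟩ := ho ω
    refine ⟨c * c', χ, ?_, fun e => ?_⟩
    · rw [norm_mul]; exact mul_le_one₀ hc (norm_nonneg _) h1
    · show c * v η0 ω e = _
      rw [hv, if_pos rfl, h2, mul_assoc]
  · intro η _ hη
    have : (c • v) η = 0 := by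
      funext ω e
      show c * v η ω e = 0
      rw [hv, if_neg hη, mul_zero]
    rw [this]
    exact map_zero (Jb ⟨i, η⟩)
  · intro h
    exact absurd (mem_univ _) h

theorem isCh3 {Ω E A : Type} [AddCommGroup E] [AddCommGroup A] [Fintype A] {f : Ω → E → A}
    (hf : ∀ ω, IsAff (f ω)) (γ : Ch A) (a b : Ω → ℂ) (ha : ∀ ω, ‖a ω‖ = 1) (hb : ∀ ω, ‖b ω‖ = 1) :
    IsCh fun ω e => γ (f ω e) * a ω * b ω := by
  intro ω
  obtain ⟨c', χ, h1, h2⟩ := (hf ω).ch γ (a ω * b ω) (by rw [norm_mul, ha, hb, mul_one])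
  exact ⟨c', χ, h1, fun e => (mul_assoc _ _ _).trans (h2 e)⟩

theorem isCh_own (i : ℕ) (g : s.Pt i) : IsCh (s.ownv i g) :=
  isCh3 (s.ax i) g.1 _ _ (fun _ => ch_norm _ _) fun _ => ch_norm _ _

theorem norm_y {Jb : ∀ b : Bl s, (s.Ω b.1 → (s.d b.1).E → ℂ) →+ X}
    (hJ : ∀ b v, IsCh v → ‖Jb b v‖ ≤ 3) (i : ℕ) (g : s.Pt i) (c : ℂ) (hc : ‖c‖ ≤ 1) :
    ‖JJ s Jb (c • s.yfam i g)‖ ≤ 9 := by
  have h1 : ∀ i (g : s.Pt i), ‖JJ s Jb (c • DFinsupp.single i (s.own i g))‖ ≤ 3 := fun i g =>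
    one_block hJ i g.2.2.1 _ (isCh_own i g) c hc _ fun _ _ _ => rfl
  have h2 : ∀ i (g : s.Pt i), ‖JJ s Jb (c • DFinsupp.single (i + 1) (s.bwc i g))‖ ≤ 3 := fun i g =>
    one_block hJ (i + 1) g.2.2.2 _
      (isCh3 (s.abw (i + 1)) g.1 (fun ω => g.2.1 (s.cb (i + 1) ω))
        (fun ω => g.2.2.1 (s.km (i + 1) ω)) (fun _ => ch_norm _ _) fun _ => ch_norm _ _)
      c hc _ fun _ _ _ => rfl
  have h3 : ∀ i (g : s.Pt (i + 1)), ‖JJ s Jb (c • DFinsupp.single i (s.fwc i g))‖ ≤ 3 := fun i g =>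
    one_block hJ i g.2.1 _
      (isCh3 (s.afw i) g.1 (fun ω => g.2.2.1 (s.kp i ω))
        (fun ω => g.2.2.2 (s.cf i ω)) (fun _ => ch_norm _ _) fun _ => ch_norm _ _)
      c hc _ fun _ _ _ => rfl
  have e : ∀ v w : s.W, c • (v + w) = c • v + c • w := fun v w => smul_add c v w
  cases i with
  | zero =>
    rw [Sys.yfam, e, map_add]
    have := h1 0 g
    have := h2 0 g
    exact (norm_add_le _ _).trans (by linarith)
  | succ i =>
    rw [Sys.yfam, e, e, map_add, map_add]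
    have := h1 (i + 1) g
    have := h2 (i + 1) g
    have := h3 i g
    exact norm_add₃_le.trans (by linarith)

/-- The cost of one functional. -/
def cost (s : Sys) (i : ℕ) (g : s.Pt i) : ℝ :=
  (Fintype.card (s.Pt i) : ℝ)⁻¹ * (10000 * (1 / ((s.d i).Act.card : ℝ) +
    (s.d i).mass (s.p i) (fun ω k e => ¬ s.gin i ω k e) +
    (s.d i).mass (s.p i) (fun ω k e => ¬ s.gout i ω k e) +
    (if g.2.2.2 ≠ 0 then 0 else 1) + (if i ≠ 0 ∧ g.2.1 ≠ 0 then 0 else 1)))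

theorem cost_nonneg (i : ℕ) (g : s.Pt i) : 0 ≤ cost s i g := by
  have h1 := (s.d i).mass_nonneg (s.p0 i) (fun ω k e => ¬ s.gin i ω k e)
  have h2 := (s.d i).mass_nonneg (s.p0 i) (fun ω k e => ¬ s.gout i ω k e)
  unfold cost
  split_ifs <;> positivity

theorem frac3 (i : ℕ) : (Fintype.card (s.Pt i) : ℝ)⁻¹ *
    ∑ g : s.Pt i, (if g.2.2.2 ≠ 0 then (0 : ℝ) else 1) = 1 / (Fintype.card (s.K (i + 3)) : ℝ) := by
  have h : ∑ η : Ch (s.K (i + 3)), (if η ≠ 0 then (0 : ℝ) else 1) = 1 := by simp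
  have h0 : (Fintype.card (s.A (i + 1)) : ℝ) ≠ 0 := by exact_mod_cast Fintype.card_ne_zero
  have h1 : (Fintype.card (s.K (i + 1)) : ℝ) ≠ 0 := by exact_mod_cast Fintype.card_ne_zero
  have h2 : (Fintype.card (s.K (i + 2)) : ℝ) ≠ 0 := by exact_mod_cast Fintype.card_ne_zero
  have h3 : (Fintype.card (s.K (i + 3)) : ℝ) ≠ 0 := by exact_mod_cast Fintype.card_ne_zero
  simp only [Fintype.sum_prod_type, h, sum_const, card_univ, nsmul_eq_mul, ch_card, s.card_Pt]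
  push_cast
  field_simp

theorem frac1 (i : ℕ) : (Fintype.card (s.Pt (i + 1)) : ℝ)⁻¹ *
    ∑ g : s.Pt (i + 1), (if i + 1 ≠ 0 ∧ g.2.1 ≠ 0 then (0 : ℝ) else 1) =
      1 / (Fintype.card (s.K (i + 2)) : ℝ) := by
  have h : ∑ η : Ch (s.K (i + 1 + 1)), (if i + 1 ≠ 0 ∧ η ≠ 0 then (0 : ℝ) else 1) = 1 := by simp
  have h' : ∀ F : Ch (s.K (i + 1 + 1)) → ℝ, ∑ g : s.Pt (i + 1), F g.2.1 =
      Fintype.card (s.A (i + 1 + 1)) * ((Fintype.card (s.K (i + 1 + 2)) *
        Fintype.card (s.K (i + 1 + 3))) * ∑ η, F η) := by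
    intro F
    simp only [Fintype.sum_prod_type, sum_const, card_univ, nsmul_eq_mul, ch_card, mul_sum,
      mul_assoc, Fintype.card_prod, Nat.cast_mul]
  have h0 : (Fintype.card (s.A (i + 1 + 1)) : ℝ) ≠ 0 := by exact_mod_cast Fintype.card_ne_zero
  have h1 : (Fintype.card (s.K (i + 1 + 1)) : ℝ) ≠ 0 := by exact_mod_cast Fintype.card_ne_zero
  have h2 : (Fintype.card (s.K (i + 1 + 2)) : ℝ) ≠ 0 := by exact_mod_cast Fintype.card_ne_zero
  have h3 : (Fintype.card (s.K (i + 1 + 3)) : ℝ) ≠ 0 := by exact_mod_cast Fintype.card_ne_zero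
  rw [h' fun η => if i + 1 ≠ 0 ∧ η ≠ 0 then (0 : ℝ) else 1, h, s.card_Pt]
  push_cast
  field_simp

theorem sum_cost (i : ℕ) : ∑ g, cost s (i + 1) g =
    10000 * (1 / ((s.d (i + 1)).Act.card : ℝ) + (1 - ∑ ξ, s.ϱ i ξ) + (1 - ∑ ξ, s.ϱ (i + 1) ξ) +
      1 / (Fintype.card (s.K (i + 4)) : ℝ) + 1 / (Fintype.card (s.K (i + 2)) : ℝ)) := by
  have h1 := (s.d (i + 1)).mass_add_not (s.p (i + 1)) (s.gin (i + 1))
  have h2 := (s.d (i + 1)).mass_add_not (s.p (i + 1)) (s.gout (i + 1))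
  rw [s.p1, s.mass_gin] at h1
  rw [s.p1, s.mass_gout] at h2
  have hc : (Fintype.card (s.Pt (i + 1)) : ℝ) ≠ 0 := by exact_mod_cast Fintype.card_ne_zero
  rw [← frac1 (s := s) i, show 1 / (Fintype.card (s.K (i + 4)) : ℝ) = _ from (frac3 (s := s) (i + 1)).symm,
    ← eq_sub_of_add_eq' h1, ← eq_sub_of_add_eq' h2]
  simp only [cost, ← mul_sum, sum_add_distrib, sum_const, card_univ, nsmul_eq_mul]
  field_simp

theorem summable_cost : Summable fun i => ∑ g, cost s i g := by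
  rw [← summable_nat_add_iff 1]
  simp only [sum_cost]
  exact ((((((summable_nat_add_iff 1).2 s.s1).add s.s2).add
    ((summable_nat_add_iff 1).2 s.s2)).add ((summable_nat_add_iff 4).2 s.s3)).add
    ((summable_nat_add_iff 2).2 s.s3)).mul_left _

end FunA

open FunA

theorem funS (𝕜 : Type) [RCLike 𝕜] (X : Type u) [NormedAddCommGroup X] [NormedSpace 𝕜 X] :
    S_Fun 𝕜 X := by
  intro hB s
  obtain ⟨Jb, hL, hN, hF⟩ := hB (Bl s) (fun b => s.d b.1) (fun b => s.Ω b.1) (fun b => s.p b.1)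
    (fun b => s.gin b.1) (fun b => s.gout b.1) (fun b => s.p0 b.1) (fun b => s.p1 b.1)
  refine ⟨JJ s Jb, cost s, fun r w => ?_, norm_y hN, fun i g l hl => ?_, summable_cost⟩
  · induction w using ind with
    | h0 => simp
    | ha v w hv hw => rw [smul_add, map_add, map_add, smul_add, hv, hw]
    | hs i v =>
      rw [← DFinsupp.single_smul, JJ_single, JJ_single, smul_sum]
      exact sum_congr rfl fun η _ => hL ⟨i, η⟩ r (v η)
  · by_cases h0 : g.2.2.1 = 0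
    · refine ⟨0, by simpa using cost_nonneg i g, fun v => ?_⟩
      simp [Sys.FOut, Sys.FIn, h0]
    · obtain ⟨f, hf1, hf2, hf3⟩ := hF ⟨i, g.2.2.1⟩ (s.ownv i g) l (g.2.2.2 ≠ 0)
        (i ≠ 0 ∧ g.2.1 ≠ 0) (isCh_own i g) hl
      have key : ∀ v : s.W, f (JJ s Jb v) = f (Jb ⟨i, g.2.2.1⟩ (v i g.2.2.1)) := by
        intro v
        induction v using ind with
        | h0 =>
          rw [map_zero]
          exact congrArg f (map_zero (Jb ⟨i, g.2.2.1⟩)).symm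
        | ha v w hv hw =>
          rw [map_add, map_add, hv, hw, ← map_add]
          exact congrArg f (map_add (Jb ⟨i, g.2.2.1⟩) _ _).symm
        | hs j w =>
          rw [JJ_single, map_sum]
          by_cases hj : j = i
          · subst hj
            rw [DFinsupp.single_eq_same, sum_eq_single g.2.2.1]
            · intro η _ hη
              exact hf3 ⟨j, η⟩ (fun h => hη (eq_of_heq (Sigma.mk.inj h).2)) _
            · intro h
              exact absurd (mem_univ _) h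
          · rw [DFinsupp.single_eq_of_ne (Ne.symm hj),
              sum_eq_zero fun η _ => hf3 ⟨j, η⟩ (fun h => hj (Sigma.mk.inj h).1) _]
            exact ((congrArg f (map_zero (Jb ⟨i, g.2.2.1⟩))).trans (map_zero f)).symm
      refine ⟨(((Fintype.card (s.Pt i) : ℝ)⁻¹ : ℝ) : 𝕜) • f, ?_, fun v => ?_⟩
      · rw [norm_smul, RCLike.norm_ofReal, abs_of_nonneg (by positivity)]
        refine mul_le_mul_of_nonneg_left (hf1.trans (le_of_eq ?_)) (by positivity)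
        by_cases h1 : g.2.2.2 ≠ 0 <;> by_cases h2 : i ≠ 0 ∧ g.2.1 ≠ 0
        · simp only [if_pos h1, if_pos h2]
        · simp only [if_pos h1, if_neg h2]
        · simp only [if_neg h1, if_pos h2]
        · simp only [if_neg h1, if_neg h2]
      · rw [smul_apply, key, hf2, smul_eq_mul, ← RCLike.ofReal_mul,
          ← Complex.re_ofReal_mul]
        congr 2
        unfold Sys.FOut Sys.FIn
        push_cast
        by_cases h1 : g.2.2.2 ≠ 0 <;> by_cases h2 : i ≠ 0 ∧ g.2.1 ≠ 0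
        · rw [if_pos h1, if_pos h2, if_pos ⟨h0, h1⟩, if_pos ⟨h2.1, h0, h2.2⟩]; ring
        · rw [if_pos h1, if_neg h2, if_pos ⟨h0, h1⟩, if_neg fun h => h2 ⟨h.1, h.2.2⟩]; ring
        · rw [if_neg h1, if_pos h2, if_neg fun h => h1 h.2, if_pos ⟨h2.1, h0, h2.2⟩]; ring
        · rw [if_neg h1, if_neg h2, if_neg fun h => h1 h.2, if_neg fun h => h2 ⟨h.1, h.2.2⟩]; ring

end Pool.Agent.P.MP_c77070_an
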