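import Pool.Agent.P.MP_c77070_an.Basic

/-! From the criterion over the scalar field to the criterion for a complex system. -/

noncomputable section

namespace Pool.Agent.P.MP_c77070_an

open Filter Topology Finset
open scoped Classical ComplexConjugate

universe u

namespace GlueA

/-- The two complex multipliers. -/
def cc (t : Bool) : ℂ := if t then Complex.I else 1

/-- The two dual multipliers. -/
def ll (t : Bool) : ℂ := if t then -Complex.I else 1

theorem norm_cc (t : Bool) : ‖cc t‖ ≤ 1 := by cases t <;> simp [cc]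

theorem norm_ll (t : Bool) : ‖ll t‖ ≤ 1 := by cases t <;> simp [ll]

theorem ll_mul_cc (t : Bool) : ll t * cc t = 1 := by cases t <;> simp [ll, cc]

variable {𝕜 : Type} [RCLike 𝕜] {X : Type u} [NormedAddCommGroup X] [NormedSpace 𝕜 X]

theorem split {W : Type} [AddCommGroup W] [Module ℂ W] (J : W →+ X) (hJ : RLin 𝕜 X J)
    (z : ℂ) (w : W) :
    ∑ t : Bool, (((ll t * z).re : ℝ) : 𝕜) • J (cc t • w) = J (z • w) := by
  have h1 : z • w = ((z.im : ℝ) : ℂ) • (Complex.I • w) + ((z.re : ℝ) : ℂ) • ((1 : ℂ) • w) := by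
    rw [smul_smul, smul_smul, ← add_smul]
    congr 1
    rw [mul_one, add_comm]
    exact (Complex.re_add_im z).symm
  have h2 : (ll true * z).re = z.im := by simp [ll]
  have h3 : (ll false * z).re = z.re := by simp [ll]
  have h4 : cc true = Complex.I := by simp [cc]
  have h5 : cc false = 1 := by simp [cc]
  rw [Fintype.sum_bool, h2, h3, h4, h5, h1, map_add, hJ, hJ]

end GlueA

open GlueA in
theorem glue (𝕜 : Type) [RCLike 𝕜] (X : Type u) [NormedAddCommGroup X] [NormedSpace 𝕜 X]
    (hC : S_Crit 𝕜 X) : S_Glue 𝕜 X := by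
  intro W _ _ J P _ y a cost C hJ hy hf hs hz hT
  choose f hf1 hf2 using hf
  let Y : ∀ i, P i × Bool → X := fun i q => J (cc q.2 • y i q.1)
  let F : ∀ i, P i × Bool → StrongDual 𝕜 X := fun i q => f i q.1 (ll q.2) (norm_ll q.2)
  have hFY : ∀ i (q : P i × Bool) j (q' : P j × Bool),
      F i q (Y j q') = (((ll q.2 * cc q'.2 * a i q.1 j q'.1).re : ℝ) : 𝕜) :=
    fun i q j q' => hf2 i q.1 (ll q.2) (norm_ll q.2) j q'.1 (cc q'.2)
  refine hC (fun i => P i × Bool) Y F ?_ ?_ ?_
  · refine Summable.of_nonneg_of_le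
      (fun i => sum_nonneg fun q _ => mul_nonneg (norm_nonneg _) (norm_nonneg _))
      (fun i => ?_) (hs.mul_left (2 * C))
    rw [Fintype.sum_prod_type, mul_sum]
    refine sum_le_sum fun g _ => ?_
    have h1 : ∀ t : Bool, ‖F i (g, t)‖ * ‖Y i (g, t)‖ ≤ C * cost i g := by
      intro t
      have ha : ‖F i (g, t)‖ ≤ cost i g := hf1 i g (ll t) (norm_ll t)
      have hb : ‖Y i (g, t)‖ ≤ C := hy i g (cc t) (norm_cc t)
      rw [mul_comm C]
      exact mul_le_mul ha hb (norm_nonneg _) ((norm_nonneg _).trans ha)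
    rw [Fintype.sum_bool]
    linarith [h1 true, h1 false]
  · intro j q'
    filter_upwards [hz j q'.1] with n hn
    have h1 : ∀ i, ∑ q : P i × Bool, F i q (Y j q') • Y i q =
        J (cc q'.2 • ∑ g, a i g j q'.1 • y i g) := by
      intro i
      rw [Fintype.sum_prod_type, smul_sum, map_sum]
      refine sum_congr rfl fun g _ => ?_
      rw [smul_smul, ← split J hJ]
      refine sum_congr rfl fun t _ => ?_
      rw [hFY, mul_assoc]
    rw [sum_congr rfl fun i _ => h1 i, ← map_sum, ← smul_sum, hn, smul_zero, map_zero]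
  · intro h
    apply hT
    have h1 : ∀ n, ∑ i ∈ range n, ∑ q : P i × Bool, F i q (Y i q) =
        ((2 * (∑ i ∈ range n, ∑ g, a i g i g).re : ℝ) : 𝕜) := by
      intro n
      rw [Complex.re_sum, mul_sum, RCLike.ofReal_sum]
      refine sum_congr rfl fun i _ => ?_
      rw [Fintype.sum_prod_type, Complex.re_sum, mul_sum, RCLike.ofReal_sum]
      refine sum_congr rfl fun g _ => ?_
      rw [Fintype.sum_bool, hFY, hFY, ll_mul_cc, ll_mul_cc, one_mul, two_mul, RCLike.ofReal_add]
    have h2 : Tendsto (fun n => RCLike.re (∑ i ∈ range n, ∑ q : P i × Bool, F i q (Y i q)))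
        atTop (𝓝 (RCLike.re (0 : 𝕜))) := (RCLike.continuous_re.tendsto 0).comp h
    simp only [h1, RCLike.ofReal_re, map_zero] at h2
    have h3 := h2.const_mul (1 / 2 : ℝ)
    simp only [mul_zero] at h3
    refine h3.congr fun n => ?_
    ring

end Pool.Agent.P.MP_c77070_an
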