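import Pool.Agent.P.MP_c77070_an.Basic

/-! Basic facts on iterated ultrafilter limits of norms. -/

noncomputable section

namespace Pool.Agent.P.MP_c77070_an

open Filter Topology Finset
open scoped Classical ComplexConjugate

universe u

namespace It1A

variable {𝕜 : Type} [RCLike 𝕜] {X : Type u} [NormedAddCommGroup X] [NormedSpace 𝕜 X]

theorem tend_of_bdd (U : Ultrafilter X) (g : X → ℝ) (M : ℝ)
    (h : ∀ᶠ y in (U : Filter X), g y ∈ Set.Icc 0 M) :
    Tendsto g (U : Filter X) (𝓝 (limUnder (U : Filter X) g)) := by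
  obtain ⟨a, -, ha⟩ := (isCompact_Icc (a := (0 : ℝ)) (b := M)).ultrafilter_le_nhds (U.map g)
    (by rw [le_principal_iff]; exact h)
  exact tendsto_nhds_limUnder ⟨a, ha⟩

theorem ev_bdd {U : Ultrafilter X} {ρ : ℝ} (hU : Metric.closedBall (0 : X) ρ ∈ U) (l : List 𝕜)
    (ih : ∀ x : X, 0 ≤ itN U l x ∧ itN U l x ≤ ‖x‖ + ρ * (l.map (‖·‖)).sum) (a : 𝕜) (x : X) :
    ∀ᶠ y in (U : Filter X), itN U l (x + a • y) ∈
      Set.Icc 0 (‖x‖ + ρ * ((a :: l).map (‖·‖)).sum) := by
  filter_upwards [hU] with y hy
  refine ⟨(ih _).1, (ih _).2.trans ?_⟩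
  have h1 : ‖y‖ ≤ ρ := by simpa using hy
  have h2 : ‖x + a • y‖ ≤ ‖x‖ + ‖a‖ * ρ :=
    (norm_add_le _ _).trans (by rw [norm_smul]; gcongr)
  simp only [List.map_cons, List.sum_cons]
  linarith

theorem bdd {U : Ultrafilter X} {ρ : ℝ} (hU : Metric.closedBall (0 : X) ρ ∈ U) (l : List 𝕜) :
    ∀ x : X, 0 ≤ itN U l x ∧ itN U l x ≤ ‖x‖ + ρ * (l.map (‖·‖)).sum := by
  induction l with
  | nil => intro x; simp [itN]
  | cons a l ih =>
    intro x
    have h := ev_bdd hU l ih a x
    have ht := tend_of_bdd U _ _ h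
    exact isClosed_Icc.mem_of_tendsto ht h

theorem tend {U : Ultrafilter X} {ρ : ℝ} (hU : Metric.closedBall (0 : X) ρ ∈ U) (a : 𝕜)
    (l : List 𝕜) (x : X) :
    Tendsto (fun y => itN U l (x + a • y)) (U : Filter X) (𝓝 (itN U (a :: l) x)) :=
  tend_of_bdd U _ _ (ev_bdd hU l (bdd hU l) a x)

end It1A

theorem it1 (𝕜 : Type) [RCLike 𝕜] (X : Type u) [NormedAddCommGroup X] [NormedSpace 𝕜 X] :
    S_It1 𝕜 X := by
  intro U ρ hU
  have tend := It1A.tend (𝕜 := 𝕜) hU
  refine ⟨tend, ?_, ?_, fun l x => (It1A.bdd hU l x).1, fun l x => (It1A.bdd hU l x).2, ?_, ?_⟩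
  · intro l
    induction l with
    | nil =>
      intro l' x x' h
      have : l' = [] := List.length_eq_zero_iff.1 h.symm
      subst this
      simpa [itN] using norm_add_le x x'
    | cons a l ih =>
      intro l' x x' h
      cases l' with
      | nil => simp at h
      | cons a' l' =>
        rw [List.zipWith_cons_cons]
        refine le_of_tendsto_of_tendsto' (tend _ _ _) ((tend a l x).add (tend a' l' x')) fun y => ?_
        have : x + x' + (a + a') • y = (x + a • y) + (x' + a' • y) := by
          rw [add_smul]; abel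
        simp only [this]
        exact ih l' _ _ (by simpa using h)
  · intro c l
    induction l with
    | nil => intro x; simp [itN, norm_smul]
    | cons a l ih =>
      intro x
      rw [List.map_cons]
      refine tendsto_nhds_unique (tend _ _ _) (((tend a l x).const_mul ‖c‖).congr fun y => ?_)
      rw [← ih, smul_add, smul_smul]
  · intro l
    induction l with
    | nil => intro x x'; simpa [itN] using abs_norm_sub_norm_le x x'
    | cons a l ih =>
      intro x x'
      refine le_of_tendsto' ((tend a l x).sub (tend a l x')).abs fun y => ?_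
      simpa using ih (x + a • y) (x' + a • y)
  · intro l₁ l₂
    induction l₁ with
    | nil =>
      intro x
      refine tendsto_nhds_unique (tend 0 l₂ x) ?_
      simp
    | cons a l ih =>
      intro x
      exact tendsto_nhds_unique (tend a _ x) ((tend a _ x).congr fun y => (ih _).symm)

end Pool.Agent.P.MP_c77070_an
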