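import Pool.Agent.P.MP_c77070_an.Basic

/-! Merging and lower bounds for iterated limits along a minimising ultrafilter. -/

noncomputable section

namespace Pool.Agent.P.MP_c77070_an

open Filter Topology Finset
open scoped Classical ComplexConjugate

universe u

namespace It2A

variable {𝕜 : Type} [RCLike 𝕜] {X : Type u} [NormedAddCommGroup X] [NormedSpace 𝕜 X]
  {U : Ultrafilter X} {z : StrongDual 𝕜 (StrongDual 𝕜 X)} {δ ρ : ℝ}

theorem cont (hf : ItFacts 𝕜 U ρ) (l : List 𝕜) : Continuous (itN U l) :=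
  (LipschitzWith.of_dist_le_mul (K := 1) fun x y => by
    simpa [Real.dist_eq, dist_eq_norm] using hf.lip l x y).continuous

theorem mono (hf : ItFacts 𝕜 U ρ) {l l' : List 𝕜} (h : ∀ x, itN U l x ≤ itN U l' x)
    (l₁ : List 𝕜) : ∀ x, itN U (l₁ ++ l) x ≤ itN U (l₁ ++ l') x := by
  induction l₁ with
  | nil => exact h
  | cons c l₁ ih =>
    exact fun x => le_of_tendsto_of_tendsto' (hf.tend c _ x) (hf.tend c _ x) fun y => ih _

variable [NormedSpace ℝ X] [IsScalarTower ℝ 𝕜 X]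

theorem cvx (hf : ItFacts 𝕜 U ρ) (l : List 𝕜) : ConvexOn ℝ Set.univ (itN U l) := by
  refine ⟨convex_univ, fun x _ y _ s t hs ht hst => ?_⟩
  have h1 := hf.sub (l.map ((s : 𝕜) * ·)) (l.map ((t : 𝕜) * ·)) ((s : 𝕜) • x) ((t : 𝕜) • y)
    (by simp)
  have h2 : List.zipWith (· + ·) (l.map ((s : 𝕜) * ·)) (l.map ((t : 𝕜) * ·)) = l := by
    rw [List.zipWith_map, List.zipWith_self]
    simp [← add_mul, ← RCLike.ofReal_add, hst]
  rw [h2, hf.smul, hf.smul, RCLike.norm_ofReal, RCLike.norm_ofReal, abs_of_nonneg hs,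
    abs_of_nonneg ht] at h1
  rw [RCLike.real_smul_eq_coe_smul (K := 𝕜), RCLike.real_smul_eq_coe_smul (K := 𝕜) t]
  exact h1

theorem cvx' (hf : ItFacts 𝕜 U ρ) (l : List 𝕜) (x : X) (c : 𝕜) (r : ℝ) :
    Convex ℝ {y : X | itN U l (x + c • y) < r} := by
  intro y hy y' hy' s t hs ht hst
  have h1 := (cvx hf l).convex_lt r ⟨trivial, hy⟩ ⟨trivial, hy'⟩ hs ht hst
  have h2 : s • (x + c • y) + t • (x + c • y') = x + c • (s • y + t • y') := by
    rw [smul_add, smul_add, smul_add, smul_comm s c, smul_comm t c, add_add_add_comm, ← add_smul,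
      hst, one_smul]
  rw [h2] at h1
  exact h1.2

theorem aver (hf : ItFacts 𝕜 U ρ) (l : List 𝕜) (x : X) (a b : 𝕜) {r ε : ℝ} (hε : 0 < ε)
    (G : Set X) (hG : Convex ℝ G) (hρ : ∀ y ∈ G, ‖y‖ ≤ ρ) (y : ℕ → X) (hy : ∀ τ, y τ ∈ G)
    (h : ∀ τ, itN U l (x + a • y τ + b • y (τ + 1)) ≤ r) :
    ∃ w ∈ G, itN U l (x + (a + b) • w) < r + ε := by
  obtain ⟨n, hn⟩ := exists_nat_gt (‖b‖ * (2 * ρ) / ε)
  have hρ0 : 0 ≤ ρ := (norm_nonneg _).trans (hρ _ (hy 0))
  have hn0 : (0 : ℝ) < n := lt_of_le_of_lt (by positivity) hn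
  have hw : ∑ _τ ∈ range n, (n : ℝ)⁻¹ = 1 := by
    rw [sum_const, card_range, nsmul_eq_mul, mul_inv_cancel₀ hn0.ne']
  have hp : ∀ τ ∈ range n, 0 ≤ (n : ℝ)⁻¹ := fun _ _ => by positivity
  refine ⟨∑ τ ∈ range n, (n : ℝ)⁻¹ • y τ, hG.sum_mem hp hw fun τ _ => hy τ, ?_⟩
  have h1 := (cvx hf l).map_sum_le (p := fun τ => x + a • y τ + b • y (τ + 1)) hp hw
    fun _ _ => trivial
  have h2 : ∑ τ ∈ range n, (n : ℝ)⁻¹ • itN U l (x + a • y τ + b • y (τ + 1)) ≤ r := by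
    refine (sum_le_sum fun τ hτ => smul_le_smul_of_nonneg_left (h τ) (hp τ hτ)).trans ?_
    rw [← sum_smul, hw, one_smul]
  have h3 : ∑ τ ∈ range n, (n : ℝ)⁻¹ • (x + a • y τ + b • y (τ + 1)) =
      x + (a + b) • ∑ τ ∈ range n, (n : ℝ)⁻¹ • y τ + (n : ℝ)⁻¹ • b • (y n - y 0) := by
    have e : ∀ τ, x + a • y τ + b • y (τ + 1) =
        x + (a + b) • y τ + b • (y (τ + 1) - y τ) := fun τ => by
      rw [add_smul, smul_sub]; abel
    simp only [e, smul_add, sum_add_distrib]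
    rw [← sum_smul, hw, one_smul, ← smul_sum (r := (n : ℝ)⁻¹) (f := fun τ => b • (y (τ + 1) - y τ)),
      ← smul_sum (r := b), sum_range_sub, smul_sum (r := a + b)]
    simp only [smul_comm (a + b)]
  rw [h3] at h1
  have h4 := hf.lip l (x + (a + b) • ∑ τ ∈ range n, (n : ℝ)⁻¹ • y τ)
    (x + (a + b) • ∑ τ ∈ range n, (n : ℝ)⁻¹ • y τ + (n : ℝ)⁻¹ • b • (y n - y 0))
  rw [sub_add_cancel_left, norm_neg, norm_smul, norm_smul, norm_inv, Real.norm_natCast] at h4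
  have h5 : ‖y n - y 0‖ ≤ 2 * ρ := (norm_sub_le _ _).trans (by
    linarith [hρ _ (hy n), hρ _ (hy 0)])
  have h6 : (n : ℝ)⁻¹ * (‖b‖ * ‖y n - y 0‖) < ε := by
    rw [inv_mul_lt_iff₀ hn0]
    rw [div_lt_iff₀ hε] at hn
    exact (mul_le_mul_of_nonneg_left h5 (norm_nonneg b)).trans_lt hn
  linarith [(abs_le.1 h4).2]

theorem merge0 (hU : GoodU U z δ ρ) (hf : ItFacts 𝕜 U ρ) (a b : 𝕜) (l : List 𝕜) (x : X) :
    itN U ((a + b) :: l) x ≤ itN U (a :: b :: l) x := by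
  refine le_of_forall_pos_le_add fun ε hε => ?_
  have hε' := half_pos hε
  set R := itN U (a :: b :: l) x
  have key : {y : X | itN U l (x + (a + b) • y) < R + ε / 2 + ε / 2} ∈ U := by
    refine hU.min _ (isOpen_lt ((cont hf l).comp (by fun_prop)) continuous_const)
      (cvx' hf l x _ _) fun Φ => ?_
    let G : Set X := {y | ‖y‖ ≤ ρ ∧ ∀ φ ∈ Φ, φ y = z φ}
    have hG : Convex ℝ G := by
      intro y hy y' hy' s t hs ht hst
      refine ⟨mem_closedBall_zero_iff.1 (convex_closedBall (0 : X) ρ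
        (mem_closedBall_zero_iff.2 hy.1) (mem_closedBall_zero_iff.2 hy'.1) hs ht hst),
        fun φ hφ => ?_⟩
      rw [map_add, φ.map_smul_of_tower, φ.map_smul_of_tower, hy.2 φ hφ, hy'.2 φ hφ, ← add_smul,
        hst, one_smul]
    have hGU : G ∈ U := by
      have h1 : ∀ᶠ y in (U : Filter X), ∀ φ ∈ Φ, φ y = z φ :=
        (eventually_all_finset Φ).2 fun φ _ => hU.wk φ
      filter_upwards [h1, hU.ball] with y h2 h3
      exact ⟨by simpa using h3, h2⟩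
    let H : Set X := G ∩ {y | itN U (b :: l) (x + a • y) < R + ε / 2}
    have hH : H ∈ U := inter_mem hGU ((hf.tend a (b :: l) x).eventually_lt_const (by linarith))
    have hnx : ∀ y : H, ∃ y' : H, itN U l (x + a • y.1 + b • y'.1) < R + ε / 2 := fun y => by
      obtain ⟨y', h1, h2⟩ := Ultrafilter.nonempty_of_mem
        (inter_mem hH ((hf.tend b l (x + a • y.1)).eventually_lt_const y.2.2))
      exact ⟨⟨y', h1⟩, h2⟩
    choose nx hnx using hnx
    obtain ⟨y0, hy0⟩ := Ultrafilter.nonempty_of_mem hH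
    obtain ⟨w, h1, h2⟩ := aver hf l x a b hε' G hG (fun _ h => h.1)
      (fun τ => (nx^[τ] ⟨y0, hy0⟩).1) (fun τ => (nx^[τ] ⟨y0, hy0⟩).2.1) fun τ => by
        rw [Function.iterate_succ_apply']
        exact (hnx _).le
    exact ⟨w, h2, h1⟩
  refine le_of_tendsto (hf.tend (a + b) l x) ?_
  filter_upwards [key] with y hy
  have : itN U l (x + (a + b) • y) < R + ε / 2 + ε / 2 := hy
  linarith

omit [IsScalarTower ℝ 𝕜 X] in
theorem low1 (hU : GoodU U z δ ρ) (hf : ItFacts 𝕜 U ρ) (σ : 𝕜) (x : X) :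
    δ * ‖σ‖ ≤ itN U [σ] x := by
  rcases eq_or_ne σ 0 with rfl | hσ
  · simpa using hf.nonneg _ _
  have h0 : 0 < ‖σ‖ := norm_pos_iff.2 hσ
  rw [← le_div_iff₀ h0]
  refine (hU.far ((-σ)⁻¹ • x)).trans (ContinuousLinearMap.opNorm_le_bound _
    (div_nonneg (hf.nonneg _ _) h0.le) fun φ => ?_)
  refine ge_of_tendsto (((hf.tend σ [] x).div_const ‖σ‖).mul_const ‖φ‖) ?_
  filter_upwards [hU.wk φ] with y hy
  have e : φ y = z φ := hy
  have e2 : (NormedSpace.inclusionInDoubleDual 𝕜 X ((-σ)⁻¹ • x) - z) φ =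
      (-σ)⁻¹ * φ (x + σ • y) := by
    have e3 : (NormedSpace.inclusionInDoubleDual 𝕜 X ((-σ)⁻¹ • x) - z) φ =
      φ ((-σ)⁻¹ • x) - z φ := rfl
    rw [e3, map_add, map_smul, map_smul, e, smul_eq_mul, smul_eq_mul]
    field_simp
    ring
  rw [e2, norm_mul, norm_inv, norm_neg, div_mul_eq_mul_div, div_eq_inv_mul, mul_comm _ ‖φ‖]
  exact mul_le_mul_of_nonneg_left (φ.le_opNorm _) (by positivity)

theorem low2 (hU : GoodU U z δ ρ) (hf : ItFacts 𝕜 U ρ) (x : X) (l : List 𝕜) :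
    ∀ a : 𝕜, itN U [a + l.sum] x ≤ itN U (a :: l) x := by
  induction l with
  | nil => intro a; simp
  | cons b l ih =>
    intro a
    rw [List.sum_cons, ← add_assoc]
    exact (ih _).trans (merge0 hU hf a b l x)

end It2A

theorem it2 (𝕜 : Type) [RCLike 𝕜] (X : Type u) [NormedAddCommGroup X] [NormedSpace 𝕜 X] :
    S_It2 𝕜 X := by
  intro _ _ U z δ ρ hU hf
  refine ⟨fun l₁ a b l₂ x => It2A.mono hf (It2A.merge0 hU hf a b l₂) l₁ x, fun l₁ l₂ => ?_⟩
  induction l₁ with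
  | nil =>
    intro x
    cases l₂ with
    | nil => simpa using hf.nonneg [] x
    | cons a l => exact (It2A.low1 hU hf _ x).trans (It2A.low2 hU hf x l a)
  | cons c l₁ ih => exact fun x => ge_of_tendsto' (hf.tend c _ x) fun y => ih _

end Pool.Agent.P.MP_c77070_an
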