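import Pool.Agent.P.MP_c77070_an.Basic

/-! The sign kernel on characters. -/

noncomputable section

namespace Pool.Agent.P.MP_c77070_an

open Filter Topology Finset
open scoped Classical ComplexConjugate

namespace KerA

/-- The three cube roots of unity. -/
def cub : Fin 3 → ℂ := ![1, ⟨-1 / 2, √3 / 2⟩, ⟨-1 / 2, -(√3 / 2)⟩]

theorem exists_val {x : ℂ} (h : x ^ 3 = 1) : ∃ j, x = cub j := by
  have h3 : √3 * √3 = 3 := Real.mul_self_sqrt (by norm_num)
  have h1 : cub 1 + cub 2 = -1 := by
    apply Complex.ext <;> simp [cub]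
  have h2 : cub 1 * cub 2 = 1 := by
    apply Complex.ext <;> simp [cub]
    · linarith
    · ring
  have h4 : (x - 1) * ((x - cub 1) * (x - cub 2)) = 0 := by
    linear_combination h - (x - 1) * x * h1 + (x - 1) * h2
  rcases mul_eq_zero.1 h4 with h5 | h5
  · exact ⟨0, sub_eq_zero.1 h5⟩
  · rcases mul_eq_zero.1 h5 with h5 | h5
    · exact ⟨1, sub_eq_zero.1 h5⟩
    · exact ⟨2, sub_eq_zero.1 h5⟩

def s3 (j j' : Fin 3) : ℤ :=
  ∑ r : Fin 3, if j + r < j' + r then 1 else if j' + r < j + r then -1 else 0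

def c0 : ℂ := ⟨0, -(√3 / 2)⟩

theorem norm_c0 : ‖c0‖ ≤ 1 := by
  have h3 : √3 * √3 = 3 := Real.mul_self_sqrt (by norm_num)
  rw [← sq_le_one_iff₀ (norm_nonneg _), Complex.sq_norm, Complex.normSq_apply]
  simp only [c0]
  linarith

theorem val_s3 (j j' : Fin 3) :
    cub j * conj (cub j') - conj (cub j) * cub j' = c0 * (2 * (s3 j j' : ℂ)) := by
  have h : ∀ j j' : Fin 3, s3 j j' = if j' = j + 1 then 1 else if j' = j + 2 then -1 else 0 := by
    decide
  rw [h]
  fin_cases j <;> fin_cases j' <;> apply Complex.ext <;> simp [cub, c0] <;> ring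

theorem exists_pos {C T : Type} [Fintype C] [LinearOrder T] (key : C → T) :
    ∃ pos : C → Fin (Fintype.card C + 1), ∀ a b, key a < key b → pos a < pos b := by
  refine ⟨fun a => ⟨(univ.filter fun c => key c < key a).card,
    Nat.lt_succ_of_le (card_le_univ _)⟩, fun a b h => ?_⟩
  refine card_lt_card ⟨fun c hc => ?_, fun hc => ?_⟩
  · simp only [mem_filter, mem_univ, true_and] at hc ⊢
    exact hc.trans h
  · have := hc (mem_filter.2 ⟨mem_univ a, h⟩)
    simp at this

/-- The key of one digit. -/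
def dk {C : Type} (cls : C → Fin 3) (enc : C → ℤ) (act : Prop) (π : Fin 3 × Bool) (η : C) :
    ℤ ×ₗ ℤ :=
  toLex (if act then ((cls η + π.1 : Fin 3) : ℕ) else 0, if π.2 then enc η else -enc η)

theorem dk_ne {C : Type} (cls : C → Fin 3) {enc : C → ℤ} (he : Function.Injective enc)
    (act : Prop) (π : Fin 3 × Bool) {η η' : C} (h : η ≠ η') :
    dk cls enc act π η ≠ dk cls enc act π η' := by
  intro e
  have e2 := congrArg (fun t => (ofLex t).2) e
  simp only [dk, ofLex_toLex] at e2
  split_ifs at e2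
  · exact h (he e2)
  · exact h (he (neg_injective e2))

theorem dk_sum {C : Type} (cls : C → Fin 3) {enc : C → ℤ} (he : Function.Injective enc)
    (act : Prop) {η η' : C} (h : η ≠ η') :
    ∑ π, (if dk cls enc act π η < dk cls enc act π η' then 1 else -1 : ℤ) =
      if act then 2 * s3 (cls η) (cls η') else 0 := by
  have h1 : enc η ≠ enc η' := fun e => h (he e)
  rw [Fintype.sum_prod_type, s3, mul_sum]
  by_cases ha : act
  · rw [if_pos ha]
    refine sum_congr rfl fun r _ => ?_
    simp only [Fintype.sum_bool, dk, if_pos ha, Prod.Lex.toLex_lt_toLex, if_true,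
      Bool.false_eq_true, if_false, Fin.lt_def]
    split_ifs <;> omega
  · rw [if_neg ha]
    refine sum_eq_zero fun r _ => ?_
    simp only [Fintype.sum_bool, dk, if_neg ha, Prod.Lex.toLex_lt_toLex, if_true,
      Bool.false_eq_true, if_false, lt_self_iff_false, false_or, true_and]
    split_ifs <;> omega

variable (d : Dig)

/-- One digit. -/
def sng (k : d.Dg) : d.D →+ d.E where
  toFun s := fun k' => if k' = k then s else 0
  map_zero' := by ext k'; simp
  map_add' s t := by
    ext k'
    by_cases h : k' = k <;> simp [h]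

/-- Truncation. -/
def trn (k : d.Dg) : d.E →+ d.E where
  toFun e := fun k' => if k' < k then e k' else 0
  map_zero' := by ext k'; simp
  map_add' s t := by
    ext k'
    by_cases h : k' < k <;> simp [h]

theorem tr_eq (k : d.Dg) (s : d.D) (e : d.E) : d.tr k s e = sng d k s + trn d k e := by
  ext k'
  rcases lt_trichotomy k' k with h | h | h
  · simp [Dig.tr, sng, trn, h, h.ne]
  · simp [Dig.tr, sng, trn, h]
  · simp [Dig.tr, sng, trn, h.ne', h.le.not_gt]

def res (k : d.Dg) (χ : Ch d.E) : Ch d.D := χ.compAddMonoidHom (sng d k)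

theorem eq_on_sum {χ χ' : Ch d.E} (s : Finset d.Dg) (h : ∀ k ∈ s, res d k χ = res d k χ')
    (e : d.E) : χ (∑ k ∈ s, sng d k (e k)) = χ' (∑ k ∈ s, sng d k (e k)) := by
  induction s using Finset.induction_on with
  | empty => simp
  | insert a s ha ih =>
    rw [sum_insert ha, AddChar.map_add_eq_mul, AddChar.map_add_eq_mul,
      ih fun k hk => h k (mem_insert_of_mem hk)]
    congr 1
    exact DFunLike.congr_fun (h a (mem_insert_self _ _)) (e a)

theorem trn_eq (k : d.Dg) (e : d.E) :
    trn d k e = ∑ k' ∈ univ.filter (· < k), sng d k' (e k') := by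
  ext j
  rw [Finset.sum_apply]
  simp [sng, trn]

theorem self_eq (e : d.E) : e = ∑ k', sng d k' (e k') := by
  ext j
  rw [Finset.sum_apply]
  simp [sng]

theorem trn_iff (k : d.Dg) (χ χ' : Ch d.E) :
    χ.compAddMonoidHom (trn d k) = χ'.compAddMonoidHom (trn d k) ↔
      ∀ k' < k, res d k' χ = res d k' χ' := by
  constructor
  · intro h k' hk
    ext s
    have h1 : trn d k (sng d k' s) = sng d k' s := by
      ext j
      by_cases hj : j = k' <;> simp [trn, sng, hj, hk]
    have h2 := DFunLike.congr_fun h (sng d k' s)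
    simpa only [res, AddChar.compAddMonoidHom_apply, h1] using h2
  · intro h
    ext e
    simp only [AddChar.compAddMonoidHom_apply, trn_eq]
    exact eq_on_sum d _ (fun k' hk => h k' (mem_filter.1 hk).2) e

theorem avg_tr (k : d.Dg) (χ χ' : Ch d.E) :
    avg (fun e : d.E => conj (χ (d.tr k (-d.u) e)) * χ' (d.tr k (-d.u) e) -
        conj (χ (d.tr k d.u e)) * χ' (d.tr k d.u e)) =
      if ∀ k' < k, res d k' χ = res d k' χ' then
        res d k χ d.u * conj (res d k χ' d.u) - conj (res d k χ d.u) * res d k χ' d.u else 0 := by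
  have h := avg_ch (χ.compAddMonoidHom (trn d k)) (χ'.compAddMonoidHom (trn d k))
  have h1 : ∀ e : d.E, conj (χ (d.tr k (-d.u) e)) * χ' (d.tr k (-d.u) e) -
      conj (χ (d.tr k d.u e)) * χ' (d.tr k d.u e) =
      (res d k χ d.u * conj (res d k χ' d.u) - conj (res d k χ d.u) * res d k χ' d.u) *
        (conj (χ (trn d k e)) * χ' (trn d k e)) := by
    intro e
    simp only [tr_eq, AddChar.map_add_eq_mul, map_neg, AddChar.map_neg_eq_conj, map_mul, res,
      AddChar.compAddMonoidHom_apply, Complex.conj_conj]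
    ring
  simp only [avg, AddChar.compAddMonoidHom_apply] at h
  simp only [avg, h1, ← mul_sum]
  rw [mul_div_assoc, h]
  by_cases h2 : ∀ k' < k, res d k' χ = res d k' χ'
  · rw [if_pos h2, if_pos ((trn_iff d k χ χ').2 h2), mul_one]
  · rw [if_neg h2, if_neg fun e => h2 ((trn_iff d k χ χ').1 e), mul_zero]

end KerA

open KerA

theorem ker : S_Ker := by
  intro d
  have hc : ∀ η : Ch d.D, ∃ j, η d.u = cub j := fun η =>
    exists_val (by rw [← AddChar.map_nsmul_eq_pow, d.hu, AddChar.map_zero_eq_one])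
  choose cls hcls using hc
  obtain ⟨enc, he⟩ : ∃ enc : Ch d.D → ℤ, Function.Injective enc :=
    ⟨fun η => ((Fintype.equivFin _ η : ℕ) : ℤ), fun a b h =>
      (Fintype.equivFin _).injective (Fin.ext (Int.ofNat_injective h))⟩
  choose pos hpos using fun π : Fin 3 × Bool => exists_pos fun χ : Ch d.E =>
    toLex fun k => dk cls enc (k ∈ d.Act) π (res d k χ)
  refine ⟨_, pos, c0, norm_c0, fun χ χ' => ?_⟩
  simp only [avg_tr]
  by_cases h : χ = χ'
  · subst h
    simp [sg, mul_comm]
  have hne : (univ.filter fun k => res d k χ ≠ res d k χ').Nonempty := by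
    by_contra h0
    rw [not_nonempty_iff_eq_empty, filter_eq_empty_iff] at h0
    refine h (DFunLike.ext _ _ fun e => ?_)
    rw [self_eq d e]
    exact eq_on_sum d _ (fun k hk => not_not.1 (h0 hk)) e
  obtain ⟨k, hk, hmin⟩ := exists_min_image _ id hne
  have hk1 : res d k χ ≠ res d k χ' := (mem_filter.1 hk).2
  have hk2 : ∀ k' < k, res d k' χ = res d k' χ' := fun k' hk' => by
    by_contra h0
    exact (hmin k' (mem_filter.2 ⟨mem_univ _, h0⟩)).not_gt hk'
  have h1 : ∀ π, sg (pos π χ') (pos π χ) = ((if dk cls enc (k ∈ d.Act) π (res d k χ) <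
      dk cls enc (k ∈ d.Act) π (res d k χ') then 1 else -1 : ℤ) : ℂ) := by
    intro π
    rcases lt_or_gt_of_ne (dk_ne cls he (k ∈ d.Act) π hk1) with h2 | h2
    · have := hpos π χ χ' ⟨k, fun j hj => by simp only [Pi.toLex_apply, hk2 j hj], h2⟩
      rw [sg, if_pos this, if_pos h2, Int.cast_one]
    · have := hpos π χ' χ ⟨k, fun j hj => by simp only [Pi.toLex_apply, hk2 j hj], h2⟩
      rw [sg, if_neg this.not_gt, if_pos this, if_neg h2.not_gt, Int.cast_neg, Int.cast_one]
  rw [sum_congr rfl fun π _ => h1 π, ← Int.cast_sum, dk_sum cls he _ hk1]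
  have h3 : ∀ j, j ≠ k → (if ∀ k' < j, res d k' χ = res d k' χ' then
      res d j χ d.u * conj (res d j χ' d.u) - conj (res d j χ d.u) * res d j χ' d.u else 0) = 0 := by
    intro j hj
    rcases lt_or_gt_of_ne hj with h4 | h4
    · rw [hk2 j h4, mul_comm, sub_self, ite_self]
    · exact if_neg fun h5 => hk1 (h5 k h4)
  by_cases ha : k ∈ d.Act
  · rw [sum_eq_single k (fun j _ hj => h3 j hj) fun h4 => absurd ha h4, if_pos hk2, if_pos ha,
      hcls, hcls, val_s3]
    push_cast
    rfl
  · rw [if_neg ha, Int.cast_zero, mul_zero]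
    exact sum_eq_zero fun j hj => h3 j fun e => ha (e ▸ hj)

end Pool.Agent.P.MP_c77070_an
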