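import Pool.Agent.P.MP_c77070_an.Basic

/-! The pencil with two killing variables, the bad probability and products of pencils. -/

noncomputable section

namespace Pool.Agent.P.MP_c77070_an

open Filter Topology Finset
open scoped Classical ComplexConjugate

namespace KillA

theorem card_prodMap {W W' O O' : Type} [AddCommGroup W] [AddCommGroup W'] [AddCommGroup O]
    [AddCommGroup O'] (T : W →+ O) (T' : W' →+ O') :
    Nat.card (T.prodMap T').range = Nat.card T.range * Nat.card T'.range := by
  rw [AddMonoidHom.range_prodMap, Nat.card_congr (AddSubgroup.prodEquiv _ _).toEquiv,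
    Nat.card_prod]

/-- The product of two pencils. -/
def prodPen {d : Dig} {q τ τ' : ℕ} {ν ν' : d.Dg → ℕ} (P : Pen d q τ ν) (P' : Pen d q τ' ν') :
    Pen d q (τ + τ') (fun k => ν k + ν' k) where
  W := P.W × P'.W
  O := P.O × P'.O
  T := fun e => (P.T e).prodMap (P'.T e)
  aff := fun w => (P.aff w.1).prod (P'.aff w.2)
  cardP := fun k hk e he => by rw [card_prodMap, P.cardP k hk e he, P'.cardP k hk e he, pow_add]
  cardM := fun k hk e he => by
    rw [card_prodMap, P.cardM k hk e he, P'.cardM k hk e he, ← pow_add]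
    congr 1; ring

theorem ker_full {F Dg : Type} [Field F] {α : Dg → F} (h : ∀ k, α k ≠ 0) {b : Dg → F} (hb : α * b = 0) : b = 0 :=
  funext fun k => (mul_eq_zero.1 (congrFun hb k)).resolve_left (h k)

theorem mul_single {F Dg : Type} [Field F] [DecidableEq Dg] {α : Dg → F} {k : Dg} (h : α k = 0)
    (c : F) : α * Pi.single k c = 0 := by
  funext k'
  by_cases e : k' = k
  · subst e; simp [h]
  · simp [e]

theorem aff_mul {F Dg : Type} [Field F] (w : Dg → F) (s : F) :
    IsAff fun e : Dg → F => (1 + s • e) * w :=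
  ⟨w, (AddMonoidHom.mulRight w).comp (DistribSMul.toAddMonoidHom _ s), fun e => by
    simp [add_mul]⟩

theorem two_ne {F : Type} [Field F] [CharP F 3] : (1 + 1 : F) ≠ 0 := fun h => by
  have h1 := three_smul_one F
  rw [show 3 • (1 : F) = 1 + 1 + 1 by norm_num, h, zero_add] at h1
  exact one_ne_zero h1

variable {F : Type} [Field F] [Fintype F] {Dg : Type} [Fintype Dg] [LinearOrder Dg]

theorem card_full {α : Dg → F} (h : ∀ k, α k ≠ 0) :
    Nat.card (AddMonoidHom.mulLeft α).range = Fintype.card F ^ Fintype.card Dg := by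
  refine card_range_of_ker _ _ ?_
  have : (AddMonoidHom.mulLeft α).ker = ⊥ :=
    (AddSubgroup.eq_bot_iff_forall _).2 fun b hb => ker_full h hb
  rw [this, AddSubgroup.card_bot, one_mul, Nat.card_eq_fintype_card, Fintype.card_fun]

theorem card_one {α : Dg → F} {k : Dg} (h : ∀ k', α k' = 0 ↔ k' = k) :
    Nat.card (AddMonoidHom.mulLeft α).range = Fintype.card F ^ (Fintype.card Dg - 1) := by
  refine card_range_of_ker _ _ ?_
  have e : (AddMonoidHom.mulLeft α).ker ≃ F :=
    { toFun := fun b => b.1 k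
      invFun := fun c => ⟨Pi.single k c, mul_single ((h k).2 rfl) c⟩
      left_inv := fun b => by
        refine Subtype.ext (funext fun k' => ?_)
        by_cases e : k' = k
        · subst e; simp
        · have h1 : α k' * b.1 k' = 0 := congrFun (show α * b.1 = 0 from b.2) k'
          simp [e, (mul_eq_zero.1 h1).resolve_left fun h2 => e ((h k').1 h2)]
      right_inv := fun c => by simp }
  have h0 : 0 < Fintype.card Dg := Fintype.card_pos_iff.2 ⟨k⟩
  rw [Nat.card_congr e, Nat.card_eq_fintype_card, Nat.card_eq_fintype_card, Fintype.card_fun,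
    ← pow_succ']
  congr 1; omega

theorem card_eval (k : Dg) (c : F) :
    ((univ.filter fun e : Dg → F => e k = c).card : ℝ) * Fintype.card F =
      Fintype.card (Dg → F) := by
  have h1 : ∀ c' : F, (univ.filter fun e : Dg → F => e k = c').card =
      (univ.filter fun e : Dg → F => e k = c).card := fun c' => by
    refine card_nbij' (fun e => e + fun _ => c - c') (fun e => e + fun _ => c' - c) ?_ ?_ ?_ ?_
    · intro e he
      simp only [coe_filter, mem_univ, true_and, Set.mem_ofPred_eq, Pi.add_apply] at he ⊢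
      rw [he]; ring
    · intro e he
      simp only [coe_filter, mem_univ, true_and, Set.mem_ofPred_eq, Pi.add_apply] at he ⊢
      rw [he]; ring
    · intro e _; funext j; simp only [Pi.add_apply]; ring
    · intro e _; funext j; simp only [Pi.add_apply]; ring
  have h2 := card_eq_sum_card_fiberwise (s := (univ : Finset (Dg → F))) (t := (univ : Finset F))
    (f := fun e => e k) fun _ _ => mem_coe.2 (mem_univ _)
  simp only [h1, sum_const, card_univ, smul_eq_mul] at h2
  rw [h2]; push_cast; ring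

/-- Sum of the coordinates, transported. -/
def tot (b : ℕ) (π : F ≃+ KB b) : (Dg → F) →+ KB b :=
  π.toAddMonoidHom.comp (∑ k, Pi.evalAddMonoidHom (fun _ : Dg => F) k)

omit [Fintype F] in
theorem tot_single (b : ℕ) (π : F ≃+ KB b) (k : Dg) (κ : KB b) :
    tot b π (Pi.single k (π.symm κ)) = κ := by
  simp [tot, Finset.sum_pi_single']

variable [CharP F 3] (b : ℕ) (Act : Finset Dg) (hA : Act.Nonempty)

theorem tr_facts (k : Dg) (e : Dg → F) (he : (fieldDig F b Dg Act hA).ge k e) (s : F)
    (hs : s = 1 ∨ s = -1) :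
    (∀ k', (fieldDig F b Dg Act hA).tr k s e k' ≠ -s) ∧
      ∀ k', (fieldDig F b Dg Act hA).tr k s e k' = s ↔ k' = k := by
  have h0 : s ≠ 0 := by rcases hs with rfl | rfl <;> simp
  have h2 : s ≠ -s := fun h => by
    have h3 : (1 + 1) * s = 0 := by linear_combination h
    exact h0 ((mul_eq_zero.1 h3).resolve_left two_ne)
  refine ⟨fun k' => ?_, fun k' => ?_⟩
  · rcases lt_trichotomy k' k with h | rfl | h
    · rw [Dig.tr_lt _ _ _ _ h]
      rcases hs with rfl | rfl
      · exact (he k' h).2.2
      · rw [neg_neg]; exact (he k' h).2.1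
    · rw [Dig.tr_self]; exact h2
    · rw [Dig.tr_gt _ _ _ _ h]; exact (neg_ne_zero.2 h0).symm
  · rcases lt_trichotomy k' k with h | rfl | h
    · rw [Dig.tr_lt _ _ _ _ h]
      refine ⟨fun h1 => absurd h1 ?_, fun h1 => absurd h1 h.ne⟩
      rcases hs with rfl | rfl
      · exact (he k' h).2.1
      · exact (he k' h).2.2
    · rw [Dig.tr_self]; simp
    · rw [Dig.tr_gt _ _ _ _ h]
      exact ⟨fun h1 => absurd h1.symm h0, fun h1 => absurd h1 h.ne'⟩

theorem plus (k : Dg) (e : Dg → F) (he : (fieldDig F b Dg Act hA).ge k e) :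
    (∀ k', (1 + (fieldDig F b Dg Act hA).tr k 1 e : Dg → F) k' ≠ 0) ∧
      ∀ k', (1 - (fieldDig F b Dg Act hA).tr k 1 e : Dg → F) k' = 0 ↔ k' = k := by
  obtain ⟨h1, h2⟩ := tr_facts b Act hA k e he 1 (Or.inl rfl)
  refine ⟨fun k' h => h1 k' (eq_neg_of_add_eq_zero_right h), fun k' => ?_⟩
  rw [← h2, Pi.sub_apply, sub_eq_zero, eq_comm, Pi.one_apply]

theorem minus (k : Dg) (e : Dg → F) (he : (fieldDig F b Dg Act hA).ge k e) :
    (∀ k', (1 - (fieldDig F b Dg Act hA).tr k (-1) e : Dg → F) k' ≠ 0) ∧
      ∀ k', (1 + (fieldDig F b Dg Act hA).tr k (-1) e : Dg → F) k' = 0 ↔ k' = k := by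
  obtain ⟨h1, h2⟩ := tr_facts b Act hA k e he (-1) (Or.inr rfl)
  refine ⟨fun k' h => h1 k' ?_, fun k' => ?_⟩
  · rw [neg_neg]; exact (sub_eq_zero.1 h).symm
  · rw [← h2, Pi.add_apply, Pi.one_apply, add_comm, add_eq_zero_iff_eq_neg]

/-- The basic pencil. -/
def pen : Pen (fieldDig F b Dg Act hA) (Fintype.card F) 0 (fun _ => 2 * Fintype.card Dg - 1) where
  W := (Dg → F) × (Dg → F)
  O := (Dg → F) × (Dg → F)
  T := fun e => (AddMonoidHom.mulLeft (1 + e)).prodMap (AddMonoidHom.mulLeft (1 - e))
  aff := fun w => by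
    have := (aff_mul w.1 1).prod (aff_mul w.2 (-1))
    simp only [one_smul, neg_smul, ← sub_eq_add_neg] at this
    exact this
  cardP := fun k _ e he => by
    have h0 : 0 < Fintype.card Dg := Fintype.card_pos_iff.2 ⟨k⟩
    rw [card_prodMap, card_full (plus b Act hA k e he).1, card_one (plus b Act hA k e he).2,
      ← pow_add]
    congr 1; omega
  cardM := fun k _ e he => by
    have h0 : 0 < Fintype.card Dg := Fintype.card_pos_iff.2 ⟨k⟩
    rw [card_prodMap, card_full (minus b Act hA k e he).1, card_one (minus b Act hA k e he).2,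
      ← pow_add]
    congr 1; omega

/-- The basic pencil with its killing variables. -/
def lin (π : F ≃+ KB b) :
    Lin (fieldDig F b Dg Act hA) (Fintype.card F) 0 (fun _ => 2 * Fintype.card Dg - 1) where
  pen := pen b Act hA
  kin := (tot b π).comp (AddMonoidHom.snd _ _)
  kout := (tot b π).comp (AddMonoidHom.fst _ _)
  detP := fun k _ e he w hw => by
    have h : w.1 = 0 := ker_full (plus b Act hA k e he).1 (congrArg Prod.fst hw)
    exact (congrArg (tot b π) h).trans (map_zero _)
  detM := fun k _ e he w hw => by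
    have h : w.2 = 0 := ker_full (minus b Act hA k e he).1 (congrArg Prod.snd hw)
    exact (congrArg (tot b π) h).trans (map_zero _)
  indP := fun k _ e he κ => ⟨(0, Pi.single k (π.symm κ)),
    Prod.ext (mul_zero _) (mul_single (((plus b Act hA k e he).2 k).2 rfl) _), tot_single b π k κ⟩
  indM := fun k _ e he κ => ⟨(Pi.single k (π.symm κ), 0),
    Prod.ext (mul_single (((minus b Act hA k e he).2 k).2 rfl) _) (mul_zero _), tot_single b π k κ⟩

theorem bad_le :
    (fieldDig F b Dg Act hA).bad ≤ 3 * (Fintype.card Dg : ℝ) / (Fintype.card F : ℝ) := by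
  have hq : (0 : ℝ) < Fintype.card F := by exact_mod_cast Fintype.card_pos
  have hE : (0 : ℝ) < Fintype.card (Dg → F) := by exact_mod_cast Fintype.card_pos
  have hh : (0 : ℝ) < Act.card := by exact_mod_cast hA.card_pos
  have h1 : ∀ (k : Dg) (c : F), ∑ e : Dg → F, (if e k = c then (1 : ℝ) else 0) =
      Fintype.card (Dg → F) / Fintype.card F := fun k c => by
    rw [sum_boole, eq_div_iff hq.ne', card_eval]
  have h2 : ∀ (k : Dg) (e : Dg → F) (x : ℝ) (_ : Decidable ((fieldDig F b Dg Act hA).ge k e)),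
      0 ≤ x → (if (fieldDig F b Dg Act hA).ge k e then 0 else x) ≤
      x * ∑ k', ((if e k' = 0 then (1 : ℝ) else 0) + (if e k' = 1 then (1 : ℝ) else 0) +
        if e k' = -1 then (1 : ℝ) else 0) := fun k e x _ hx => by
    have h3 : ∀ k', (0 : ℝ) ≤ (if e k' = 0 then (1 : ℝ) else 0) +
        (if e k' = 1 then (1 : ℝ) else 0) + if e k' = -1 then (1 : ℝ) else 0 := fun k' => by
      split_ifs <;> norm_num
    split_ifs with h
    · exact mul_nonneg hx (sum_nonneg fun k' _ => h3 k')
    · obtain ⟨k', hk'⟩ := not_forall.1 h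
      refine le_mul_of_one_le_right hx (le_trans ?_ (single_le_sum (fun j _ => h3 j) (mem_univ k')))
      by_cases a1 : e k' = 0
      · rw [if_pos a1]; split_ifs <;> norm_num
      by_cases a2 : e k' = 1
      · rw [if_pos a2]; split_ifs <;> norm_num
      by_cases a3 : e k' = -1
      · rw [if_pos a3]; split_ifs <;> norm_num
      exact absurd (fun _ => ⟨a1, a2, a3⟩) hk'
  have hden : (fieldDig F b Dg Act hA).den = Act.card * Fintype.card (Dg → F) := rfl
  refine (sum_le_sum fun k _ => sum_le_sum fun e _ => h2 k e _ _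
    (div_nonneg zero_le_one (fieldDig F b Dg Act hA).den_pos.le)).trans (le_of_eq ?_)
  simp only [← mul_sum]
  rw [sum_const, sum_comm]
  simp only [sum_add_distrib, h1, sum_const, card_univ, nsmul_eq_mul, hden]
  field_simp
  ring

end KillA

theorem penProd (d : Dig) (q τ τ' : ℕ) (ν ν' : d.Dg → ℕ) :
    Pen d q τ ν → Pen d q τ' ν' → Nonempty (Pen d q (τ + τ') (fun k => ν k + ν' k)) :=
  fun P P' => ⟨KillA.prodPen P P'⟩

theorem linProd (d : Dig) (q τ τ' : ℕ) (ν ν' : d.Dg → ℕ) :
    Lin d q τ ν → Pen d q τ' ν' → Nonempty (Lin d q (τ + τ') (fun k => ν k + ν' k)) :=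
  fun L P => ⟨{
    pen := KillA.prodPen L.pen P
    kin := L.kin.comp (AddMonoidHom.fst _ _)
    kout := L.kout.comp (AddMonoidHom.fst _ _)
    detP := fun k hk e he w hw => L.detP k hk e he w.1 (congrArg Prod.fst hw)
    detM := fun k hk e he w hw => L.detM k hk e he w.1 (congrArg Prod.fst hw)
    indP := fun k hk e he κ => by
      obtain ⟨w, h1, h2⟩ := L.indP k hk e he κ
      exact ⟨(w, 0), Prod.ext h1 (map_zero (P.T _)), h2⟩
    indM := fun k hk e he κ => by
      obtain ⟨w, h1, h2⟩ := L.indM k hk e he κ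
      exact ⟨(w, 0), Prod.ext h1 (map_zero (P.T _)), h2⟩ }⟩

theorem kill : S_Kill := fun _ _ _ _ b _ _ _ Act hA =>
  ⟨fun π => ⟨KillA.lin b Act hA π⟩, KillA.bad_le b Act hA⟩

end Pool.Agent.P.MP_c77070_an
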