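import Pool.Agent.P.MP_c77070_an.Basic

/-! A pencil with two killing variables gives a cell. -/

noncomputable section

namespace Pool.Agent.P.MP_c77070_an

open Filter Topology Finset
open scoped Classical ComplexConjugate

namespace LinCellA

variable (d : Dig)

/-- Places before `k`. -/
abbrev Pa (k : d.Dg) : Type := {k' : d.Dg // k' < k}

/-- The string with past `σ`, digit `s` at place `k` and zero after. -/
def ext (k : d.Dg) (s : d.D) (σ : Pa d k → d.D) : d.E :=
  fun k' => if h : k' < k then σ ⟨k', h⟩ else if k' = k then s else 0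

/-- Restriction to the past. -/
def res (k : d.Dg) : d.E →+ (Pa d k → d.D) where
  toFun e := fun k' => e k'.1
  map_zero' := rfl
  map_add' _ _ := rfl

theorem res_ext (k : d.Dg) (s : d.D) (σ : Pa d k → d.D) : res d k (ext d k s σ) = σ := by
  funext k'
  exact dif_pos k'.2

theorem res_surj (k : d.Dg) : Function.Surjective (res d k) :=
  fun σ => ⟨ext d k 0 σ, res_ext d k 0 σ⟩

theorem tr_eq (k : d.Dg) (s : d.D) (e : d.E) : d.tr k s e = ext d k s (res d k e) := by
  funext k'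
  unfold Dig.tr ext
  by_cases h : k' < k
  · rw [if_pos h, dif_pos h]
    rfl
  · rw [if_neg h, dif_neg h]

theorem tr_ext (k : d.Dg) (s s' : d.D) (σ : Pa d k → d.D) :
    d.tr k s (ext d k s' σ) = ext d k s σ := by
  rw [tr_eq, res_ext]

theorem card_Pa (k : d.Dg) : Fintype.card (Pa d k → d.D) = Fintype.card d.D ^ past d k := by
  rw [Fintype.card_fun, Fintype.card_subtype]
  rfl

theorem tr_place {k k' : d.Dg} {s s' : d.D} (hs : s ≠ 0) (hs' : s' ≠ 0) {e e' : d.E}
    (h : d.tr k s e = d.tr k' s' e') : k = k' ∧ s = s' := by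
  rcases lt_trichotomy k k' with h1 | h1 | h1
  · have h2 := congrFun h k'
    rw [d.tr_gt k s e h1, d.tr_self] at h2
    exact absurd h2.symm hs'
  · subst h1
    have h2 := congrFun h k
    rw [d.tr_self, d.tr_self] at h2
    exact ⟨rfl, h2⟩
  · have h2 := congrFun h k
    rw [d.tr_gt k' s' e' h1, d.tr_self] at h2
    exact absurd h2 hs

/-- The past `σ` is good. -/
def good (k : d.Dg) (σ : Pa d k → d.D) : Prop := d.ge k (ext d k 0 σ)

theorem ge_iff (hge : ∀ k e e', (∀ k', k' < k → e k' = e' k') → d.ge k e → d.ge k e')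
    (k : d.Dg) (e : d.E) : d.ge k e ↔ good d k (res d k e) := by
  have h : ∀ k', k' < k → e k' = ext d k 0 (res d k e) k' := fun k' h' => by
    rw [← tr_eq, d.tr_lt k 0 e h']
  exact ⟨hge k _ _ h, hge k _ _ fun k' h' => (h k' h').symm⟩

theorem exists_iota {O : Type} [AddCommGroup O] [Fintype O] (n : ℕ) (S : AddSubgroup O) (p : Prop)
    (hp : p → Nat.card S = n) (hn : n ≤ Fintype.card O) :
    ∃ ι : Fin n → O, Function.Injective ι ∧ (p → ∃ ε : Fin n ≃ S, ∀ j, ι j = ε j) := by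
  by_cases h : p
  · let ε : Fin n ≃ S := (Finite.equivFinOfCardEq (hp h)).symm
    exact ⟨fun j => ε j, fun j j' hj => ε.injective (Subtype.ext hj), fun _ => ⟨ε, fun _ => rfl⟩⟩
  · obtain ⟨ι⟩ : Nonempty (Fin n ↪ O) :=
      Function.Embedding.nonempty_of_card_le (by simpa using hn)
    exact ⟨ι, ι.injective, fun h' => absurd h' h⟩

theorem law {W O K : Type} [AddCommGroup W] [Fintype W] [AddCommGroup O] [Fintype O]
    [AddCommGroup K] [Fintype K] (L : W →+ O) (a c : W →+ K) (dd : O → K)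
    (hd : ∀ w, dd (L w) = a w) (hc : ∀ κ, ∃ w, L w = 0 ∧ c w = κ) {n : ℕ} (ι : Fin n → O)
    (ε : Fin n ≃ L.range) (hε : ∀ j, ι j = ε j) (F : O → K → K → ℂ) :
    avg (fun w => F (L w) (a w) (c w)) = avg (fun j => avg (F (ι j) (dd (ι j)))) := by
  have hπ : Function.Surjective (L.rangeRestrict.prod c) := by
    rintro ⟨⟨y, w0, rfl⟩, κ⟩
    obtain ⟨w1, h1, h2⟩ := hc (κ - c w0)
    refine ⟨w0 + w1, Prod.ext (Subtype.ext ?_) ?_⟩
    · simp [h1]
    · simp [h2]
  have h1 := avg_comp_surj _ hπ (fun p => F p.1 (dd p.1) p.2)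
  have h2 : ∀ w, F (L w) (a w) (c w) = F ((L.rangeRestrict.prod c) w).1
      (dd ((L.rangeRestrict.prod c) w).1) ((L.rangeRestrict.prod c) w).2 := by
    intro w
    rw [← hd w]
    rfl
  rw [avg_congr h2, h1, avg_prod, ← avg_equiv ε]
  refine avg_congr fun j => ?_
  rw [hε j]

theorem S_unif {W : Type} [Fintype W] [Nonempty W] (s : d.D) (G : W → d.E → ℂ) :
    d.S (fun _ : W => 1 / (Fintype.card W : ℝ)) (fun _ => d.ge) s G =
      ∑ k ∈ d.Act, (1 / (d.Act.card : ℂ)) *
        avg (fun e : d.E => if d.ge k e then avg (fun w => G w (d.tr k s e)) else 0) := by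
  unfold Dig.S
  rw [sum_comm]
  refine sum_congr rfl fun k _ => ?_
  rw [sum_comm, avg, sum_div, mul_sum]
  refine sum_congr rfl fun e _ => ?_
  by_cases h : d.ge k e
  · simp only [if_pos h, avg, ← mul_sum, Dig.den]
    push_cast
    ring
  · simp only [if_neg h, sum_const_zero, zero_div, mul_zero]

theorem gprof_id (q : ℕ) (hq : q ≠ 0) (M : d.Dg → ℕ) : gprof d q M (fun x => x) = 1 := by
  have h1 := d.act_pos
  have h2 : (q : ℝ) ≠ 0 := by exact_mod_cast hq
  have h3 : ∀ k ∈ d.Act, (q : ℝ) ^ M k * (1 / ((d.Act.card : ℝ) * (q : ℝ) ^ M k)) =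
      1 / (d.Act.card : ℝ) := fun k _ => by field_simp
  rw [gprof, sum_congr rfl h3, sum_const, nsmul_eq_mul]
  field_simp

/-- One side of the cell. -/
theorem side {W O K : Type} [AddCommGroup W] [Fintype W] [AddCommGroup O] [Fintype O]
    [AddCommGroup K] [Fintype K] (T : d.E → W →+ O) (a c : W →+ K) (q : ℕ) (m : d.Dg → ℕ)
    (s : d.D) (hs : s ≠ 0) (hq : Fintype.card d.D = q)
    (hge : ∀ k e e', (∀ k', k' < k → e k' = e' k') → d.ge k e → d.ge k e')
    (hex : ∀ k ∈ d.Act, ∃ e, d.ge k e)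
    (hcard : ∀ k ∈ d.Act, ∀ e, d.ge k e → Nat.card (T (d.tr k s e)).range = q ^ m k)
    (hdet : ∀ k ∈ d.Act, ∀ e, d.ge k e → ∀ w, T (d.tr k s e) w = 0 → a w = 0)
    (hind : ∀ k ∈ d.Act, ∀ e, d.ge k e → ∀ κ, ∃ w, T (d.tr k s e) w = 0 ∧ c w = κ) :
    ∃ (I : Type) (_ : Fintype I) (wt : I → ℝ) (g : I → Prop) (l : I → d.E × O) (dd : I → K),
      (∀ n, 0 ≤ wt n) ∧ (∀ F : ℝ → ℝ, ∑ n, F (wt n) = gprof d q (fun k => past d k + m k) F) ∧
      Function.Injective l ∧ (∀ n, ∃ k e, (l n).1 = d.tr k s e) ∧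
      (∀ w e n, g n → (e, T e w) = l n → a w = dd n) ∧
      ∀ F : d.E × O → K → K → ℂ,
        d.S (fun _ : W => 1 / (Fintype.card W : ℝ)) (fun _ => d.ge) s
            (fun w e => F (e, T e w) (a w) (c w)) =
          ∑ n, if g n then (wt n : ℂ) * avg (F (l n) (dd n)) else 0 := by
  have hι : ∀ (k : d.Act) (σ : Pa d k.1 → d.D), ∃ ι : Fin (q ^ m k.1) → O, Function.Injective ι ∧
      (good d k.1 σ → ∃ ε : Fin (q ^ m k.1) ≃ (T (ext d k.1 s σ)).range, ∀ j, ι j = ε j) := by
    intro k σ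
    refine exists_iota _ _ _ (fun h => ?_) ?_
    · rw [← hcard k.1 k.2 _ h, tr_ext]
    · obtain ⟨e, he⟩ := hex k.1 k.2
      rw [← hcard k.1 k.2 e he, ← Nat.card_eq_fintype_card]
      exact Nat.card_le_card_of_injective _ Subtype.val_injective
  choose ι hι1 hι2 using hι
  let DD : d.E → O → K := fun e y => if h : ∃ w, T e w = y then a h.choose else 0
  have hDD : ∀ (k : d.Act) (σ : Pa d k.1 → d.D), good d k.1 σ →
      ∀ w, DD (ext d k.1 s σ) (T (ext d k.1 s σ) w) = a w := by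
    intro k σ h w
    have h1 : ∃ w', T (ext d k.1 s σ) w' = T (ext d k.1 s σ) w := ⟨w, rfl⟩
    have h2 := hdet k.1 k.2 _ h (h1.choose - w) (by rw [tr_ext, map_sub, h1.choose_spec, sub_self])
    rw [map_sub, sub_eq_zero] at h2
    exact (dif_pos h1).trans h2
  have hq0 : q ≠ 0 := hq ▸ Fintype.card_ne_zero
  refine ⟨Σ k : d.Act, (Pa d k.1 → d.D) × Fin (q ^ m k.1), inferInstance,
    fun n => 1 / ((d.Act.card : ℝ) * (q : ℝ) ^ (past d n.1.1 + m n.1.1)),
    fun n => good d n.1.1 n.2.1, fun n => (ext d n.1.1 s n.2.1, ι n.1 n.2.1 n.2.2),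
    fun n => DD (ext d n.1.1 s n.2.1) (ι n.1 n.2.1 n.2.2), fun n => by positivity, ?_, ?_,
    fun n => ⟨n.1.1, ext d n.1.1 s n.2.1, (tr_ext d _ _ _ _).symm⟩, ?_, ?_⟩
  · intro F
    rw [Fintype.sum_sigma, gprof, ← sum_coe_sort d.Act]
    refine sum_congr rfl fun k _ => ?_
    simp only [sum_const, card_univ, Fintype.card_prod, card_Pa, hq, Fintype.card_fin,
      nsmul_eq_mul, pow_add]
    push_cast
    rfl
  · rintro ⟨k, σ, j⟩ ⟨k', σ', j'⟩ h
    obtain ⟨h1, h2⟩ := Prod.ext_iff.1 h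
    simp only at h1 h2
    have h3 : k = k' := by
      rw [← tr_ext d k.1 s s σ, ← tr_ext d k'.1 s s σ'] at h1
      exact Subtype.ext (tr_place d hs hs h1).1
    subst h3
    have h4 : σ = σ' := by rw [← res_ext d k.1 s σ, h1, res_ext]
    subst h4
    rw [hι1 k σ h2]
  · rintro w e ⟨k, σ, j⟩ hg h
    obtain ⟨h1, h2⟩ := Prod.ext_iff.1 h
    simp only at h1 h2 hg ⊢
    subst h1
    rw [← h2, hDD k σ hg w]
  · intro F
    rw [S_unif, Fintype.sum_sigma, ← sum_coe_sort d.Act]
    refine sum_congr rfl fun k _ => ?_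
    let G : (Pa d k.1 → d.D) → ℂ := fun σ => if good d k.1 σ then
      avg (fun j => avg (F (ext d k.1 s σ, ι k σ j) (DD (ext d k.1 s σ) (ι k σ j)))) else 0
    have h1 : ∀ e : d.E, (if d.ge k.1 e then
        avg (fun w => F (d.tr k.1 s e, T (d.tr k.1 s e) w) (a w) (c w)) else 0) =
        G (res d k.1 e) := by
      intro e
      by_cases h : d.ge k.1 e
      · have h' := (ge_iff d hge k.1 e).1 h
        obtain ⟨ε, hε⟩ := hι2 k _ h'
        simp only [G, if_pos h, if_pos h', tr_eq]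
        refine law _ a c _ (hDD k _ h') (fun κ => ?_) _ ε hε (fun y => F (_, y))
        rw [← tr_eq]
        exact hind k.1 k.2 e h κ
      · simp only [G, if_neg h, if_neg (fun h' => h ((ge_iff d hge k.1 e).2 h'))]
    rw [avg_congr h1, avg_comp_surj _ (res_surj d k.1) G, Fintype.sum_prod_type, avg, sum_div,
      mul_sum]
    refine sum_congr rfl fun σ _ => ?_
    by_cases h : good d k.1 σ
    · simp only [G, if_pos h, ← mul_sum]
      rw [avg, card_Pa, hq, Fintype.card_fin, pow_add]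
      push_cast
      ring
    · simp only [G, if_neg h, sum_const_zero, zero_div, mul_zero]

end LinCellA

open LinCellA in
theorem linCell : S_LinCell := by
  intro d q τ ν hq hu hu' hge hex L
  have hq0 : q ≠ 0 := hq ▸ Fintype.card_ne_zero
  obtain ⟨I, fI, wI, gI, lI, dI, a1, a2, a3, a4, a5, a6⟩ :=
    side d L.pen.T L.kout L.kin q ν d.u hu hq hge hex L.pen.cardP L.detP L.indP
  obtain ⟨J, fJ, wJ, gJ, lJ, dJ, b1, b2, b3, b4, b5, b6⟩ :=
    side d L.pen.T L.kin L.kout q (fun k => ν k + τ) (-d.u) (neg_ne_zero.2 hu) hq hge hex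
      L.pen.cardM L.detM L.indM
  have hW : (Fintype.card L.pen.W : ℝ) ≠ 0 := by exact_mod_cast Fintype.card_ne_zero
  refine ⟨{
    Λ := d.E × L.pen.O
    W := L.pen.W
    In := I
    Out := J
    pw := fun _ => 1 / (Fintype.card L.pen.W : ℝ)
    pw0 := fun _ => by positivity
    pw1 := by rw [sum_const, card_univ, nsmul_eq_mul]; field_simp
    win := wI
    win0 := a1
    win1 := (a2 fun x => x).trans (gprof_id d q hq0 _)
    wout := wJ
    wout0 := b1
    wout1 := (b2 fun x => x).trans (gprof_id d q hq0 _)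
    lab := fun w e => (e, L.pen.T e w)
    aff := fun w => IsAff.prod ⟨0, AddMonoidHom.id _, fun e => by simp⟩ (L.pen.aff w)
    kin := L.kin
    kout := L.kout
    gI := gI
    gO := gJ
    inl := lI
    outl := lJ
    inl_inj := a3
    outl_inj := b3
    disj := ?_
    dI := dI
    dO := dJ
    detI := a5
    detO := b5
    lawI := a6
    lawO := b6 }, a2, fun F => ?_⟩
  · intro n o h
    obtain ⟨k, e, h1⟩ := a4 n
    obtain ⟨k', e', h2⟩ := b4 o
    rw [h, h2] at h1
    exact hu' (tr_place d (neg_ne_zero.2 hu) hu h1).2.symm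
  · simpa only [add_assoc] using b2 F

end Pool.Agent.P.MP_c77070_an
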