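import Pool.Agent.P.MP_c77070_an.Basic

/-! Mixtures of cells. -/

noncomputable section

namespace Pool.Agent.P.MP_c77070_an

open Filter Topology Finset
open scoped Classical ComplexConjugate

namespace MixA

variable {Z : Type} {Λ : Z → Type} [∀ z, AddCommGroup (Λ z)]

def emb (z : Z) (l : Λ z) : (Z → ZMod 2) × (∀ z, Λ z) := (Pi.single z 1, Pi.single z l)

theorem emb_fst {z z' : Z} {l : Λ z} {l' : Λ z'} (h : emb z l = emb z' l') : z = z' := by
  by_contra hne
  have h1 : (Pi.single z 1 : Z → ZMod 2) z = (Pi.single z' 1 : Z → ZMod 2) z :=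
    congrFun (congrArg Prod.fst h) z
  rw [Pi.single_eq_same, Pi.single_eq_of_ne hne] at h1
  exact one_ne_zero h1

theorem emb_snd {z : Z} {l l' : Λ z} (h : emb z l = emb z l') : l = l' := by
  have h1 : (Pi.single z l : ∀ z, Λ z) z = (Pi.single z l' : ∀ z, Λ z) z :=
    congrFun (congrArg Prod.snd h) z
  rwa [Pi.single_eq_same, Pi.single_eq_same] at h1

theorem emb_aff {E : Type} [AddCommGroup E] (z : Z) {f : E → Λ z} (hf : IsAff f) :
    IsAff fun e => emb z (f e) :=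
  (IsAff.const _).prod (hf.map (AddMonoidHom.single Λ z))

theorem sum_one [Fintype Z] {W : Z → Type} [∀ z, Fintype (W z)] {ws : Z → ℝ}
    (h1 : ∑ z, ws z = 1) {p : ∀ z, W z → ℝ} (hp : ∀ z, ∑ w, p z w = 1) :
    ∑ w : (Σ z, W z), ws w.1 * p w.1 w.2 = 1 := by
  rw [Fintype.sum_sigma, ← h1]
  refine sum_congr rfl fun z _ => ?_
  simp only [← mul_sum, hp, mul_one]

theorem S_sigma (d : Dig) [Fintype Z] {W : Z → Type} [∀ z, Fintype (W z)] (ws : Z → ℝ)
    (p : ∀ z, W z → ℝ) (s : d.D) (F : (Σ z, W z) → d.E → ℂ) :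
    d.S (fun w : (Σ z, W z) => ws w.1 * p w.1 w.2) (fun _ => d.ge) s F =
      ∑ z, (ws z : ℂ) * d.S (p z) (fun _ => d.ge) s (fun w => F ⟨z, w⟩) := by
  simp only [Dig.S, Fintype.sum_sigma, mul_sum]
  refine sum_congr rfl fun z _ => sum_congr rfl fun w _ => sum_congr rfl fun k _ =>
    sum_congr rfl fun e _ => ?_
  split_ifs
  · push_cast; ring
  · simp

theorem law_sigma [Fintype Z] {N : Z → Type} [∀ z, Fintype (N z)] (ws : Z → ℝ)
    (p : ∀ z, N z → ℝ) (g : ∀ z, N z → Prop) (G : ∀ z, N z → ℂ) :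
    ∑ z, (ws z : ℂ) * ∑ n, (if g z n then (p z n : ℂ) * G z n else 0) =
      ∑ n : (Σ z, N z), if g n.1 n.2 then ((ws n.1 * p n.1 n.2 : ℝ) : ℂ) * G n.1 n.2 else 0 := by
  simp only [Fintype.sum_sigma, mul_sum]
  refine sum_congr rfl fun z _ => sum_congr rfl fun n _ => ?_
  split_ifs
  · push_cast; ring
  · simp

def cell (d : Dig) (Z : Type) [Fintype Z] (ws : Z → ℝ) (c : Z → Cell d) (h0 : ∀ z, 0 ≤ ws z)
    (h1 : ∑ z, ws z = 1) : Cell d where
  Λ := (Z → ZMod 2) × (∀ z, (c z).Λ)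
  W := Σ z, (c z).W
  In := Σ z, (c z).In
  Out := Σ z, (c z).Out
  pw w := ws w.1 * (c w.1).pw w.2
  pw0 w := mul_nonneg (h0 _) ((c _).pw0 _)
  pw1 := sum_one h1 fun z => (c z).pw1
  win w := ws w.1 * (c w.1).win w.2
  win0 w := mul_nonneg (h0 _) ((c _).win0 _)
  win1 := sum_one h1 fun z => (c z).win1
  wout w := ws w.1 * (c w.1).wout w.2
  wout0 w := mul_nonneg (h0 _) ((c _).wout0 _)
  wout1 := sum_one h1 fun z => (c z).wout1
  lab w e := emb w.1 ((c w.1).lab w.2 e)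
  aff w := emb_aff _ ((c _).aff _)
  kin w := (c w.1).kin w.2
  kout w := (c w.1).kout w.2
  gI n := (c n.1).gI n.2
  gO n := (c n.1).gO n.2
  inl n := emb n.1 ((c n.1).inl n.2)
  outl n := emb n.1 ((c n.1).outl n.2)
  inl_inj := by
    rintro ⟨z, n⟩ ⟨z', n'⟩ h
    obtain rfl : z = z' := emb_fst h
    obtain rfl : n = n' := (c z).inl_inj (emb_snd h)
    rfl
  outl_inj := by
    rintro ⟨z, n⟩ ⟨z', n'⟩ h
    obtain rfl : z = z' := emb_fst h
    obtain rfl : n = n' := (c z).outl_inj (emb_snd h)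
    rfl
  disj := by
    rintro ⟨z, n⟩ ⟨z', n'⟩ h
    obtain rfl : z = z' := emb_fst h
    exact (c z).disj n n' (emb_snd h)
  dI n := (c n.1).dI n.2
  dO n := (c n.1).dO n.2
  detI := by
    rintro ⟨z, w⟩ e ⟨z', n⟩ hg h
    obtain rfl : z = z' := emb_fst h
    exact (c z).detI w e n hg (emb_snd h)
  detO := by
    rintro ⟨z, w⟩ e ⟨z', n⟩ hg h
    obtain rfl : z = z' := emb_fst h
    exact (c z).detO w e n hg (emb_snd h)
  lawI F := by
    rw [S_sigma d ws fun z => (c z).pw,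
      ← law_sigma ws (fun z => (c z).win) (fun z => (c z).gI)
        fun z n => avg (F (emb z ((c z).inl n)) ((c z).dI n))]
    exact sum_congr rfl fun z _ => by rw [← (c z).lawI fun l => F (emb z l)]
  lawO F := by
    rw [S_sigma d ws fun z => (c z).pw,
      ← law_sigma ws (fun z => (c z).wout) (fun z => (c z).gO)
        fun z n => avg (F (emb z ((c z).outl n)) ((c z).dO n))]
    exact sum_congr rfl fun z _ => by rw [← (c z).lawO fun l => F (emb z l)]

end MixA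

theorem mix : S_Mix := fun d Z _ ws c h0 h1 =>
  ⟨MixA.cell d Z ws c h0 h1, fun F => Fintype.sum_sigma fun n : (Σ z, (c z).In) =>
    F (ws n.1 * (c n.1).win n.2), fun F => Fintype.sum_sigma fun n : (Σ z, (c z).Out) =>
    F (ws n.1 * (c n.1).wout n.2)⟩

end Pool.Agent.P.MP_c77070_an
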