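import Pool.Agent.P.MP_c77070_an.Basic

/-! The triangular kernel lemma and the parabola pencil. -/

noncomputable section

namespace Pool.Agent.P.MP_c77070_an

open Filter Topology Finset
open scoped Classical ComplexConjugate

namespace PenA

theorem maxl {F : Type} [Field F] {L : Type} [Fintype L] (ξ : L → ℤ) (m : L → L → F)
    (hm : ∀ u u', m u u' ≠ 0 → u' = u ∨ ξ u < ξ u') (a : L → F) (ha : a ≠ 0) :
    ∃ u, a u ≠ 0 ∧ ∑ u', m u u' * a u' = m u u * a u := by
  have hne : (univ.filter (fun u => a u ≠ 0)).Nonempty := by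
    obtain ⟨u, hu⟩ := Function.ne_iff.1 ha
    exact ⟨u, by simpa using hu⟩
  obtain ⟨u, hu, hmax⟩ := exists_max_image _ ξ hne
  refine ⟨u, (mem_filter.1 hu).2, ?_⟩
  refine sum_eq_single u (fun u' _ hne' => ?_) (by simp)
  by_contra h
  have h1 : m u u' ≠ 0 := left_ne_zero_of_mul h
  have h2 : a u' ≠ 0 := right_ne_zero_of_mul h
  rcases hm u u' h1 with h3 | h3
  · exact hne' h3
  · exact absurd (hmax u' (by simp [h2])) (not_le.2 h3)

end PenA

theorem tri : S_Tri := by
  intro F _ _ L _ ξ m u₀ hm hd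
  split_ifs with h0
  · have hinj : ∀ a : L → F, (∀ u, ∑ u', m u u' * a u' = 0) → a u₀ = 0 → a = 0 := by
      intro a ha h1
      by_contra hne
      obtain ⟨u, hu, hs⟩ := PenA.maxl ξ m hm a hne
      rw [ha u] at hs
      have hu0 : u ≠ u₀ := fun h => hu (h ▸ h1)
      exact mul_ne_zero (hd u hu0) hu hs.symm
    let m' : L → L → F := fun u u' => if u = u₀ ∧ u' = u₀ then 1 else m u u'
    have hm' : ∀ u u', m' u u' ≠ 0 → u' = u ∨ ξ u < ξ u' := by
      intro u u' h
      by_cases hc : u = u₀ ∧ u' = u₀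
      · exact Or.inl (hc.2.trans hc.1.symm)
      · simp only [m', hc, if_false] at h
        exact hm u u' h
    have hd' : ∀ u, m' u u ≠ 0 := by
      intro u
      by_cases hc : u = u₀
      · simp [m', hc]
      · simp [m', hc, hd u hc]
    have hrel : ∀ (a : L → F) u, ∑ u', m' u u' * a u' =
        ∑ u', m u u' * a u' + if u = u₀ then a u₀ else 0 := by
      intro a u
      by_cases hc : u = u₀
      · subst hc
        have : ∀ u', m' u u' * a u' = m u u' * a u' + if u' = u then a u else 0 := by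
          intro u'
          by_cases h : u' = u
          · subst h; simp [m', h0]
          · simp [m', h]
        simp [this, sum_add_distrib]
      · simp [m', hc]
    let G : (L → F) → (L → F) := fun a u => ∑ u', m' u u' * a u'
    have hG : Function.Injective G := by
      intro a b hab
      by_contra hne
      obtain ⟨u, hu, hs⟩ := PenA.maxl ξ m' hm' (a - b) (sub_ne_zero.2 hne)
      have h1 : ∑ u', m' u u' * (a - b) u' = 0 := by
        have := congrFun hab u
        simp only [G] at this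
        simp only [Pi.sub_apply, mul_sub, sum_sub_distrib, this, sub_self]
      rw [h1] at hs
      exact mul_ne_zero (hd' u) hu hs.symm
    obtain ⟨a₀, ha₀⟩ := Finite.injective_iff_surjective.1 hG (fun u => if u = u₀ then 1 else 0)
    have ha₀' : ∀ u, ∑ u', m' u u' * a₀ u' = if u = u₀ then 1 else 0 := fun u => congrFun ha₀ u
    have hne : a₀ ≠ 0 := by
      intro h
      have := ha₀' u₀
      simp [h] at this
    have h1 : a₀ u₀ = 1 := by
      obtain ⟨u, hu, hs⟩ := PenA.maxl ξ m' hm' a₀ hne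
      rw [ha₀'] at hs
      by_cases hc : u = u₀
      · subst hc
        simpa [m'] using hs.symm
      · simp only [hc, if_false] at hs
        exact absurd hs.symm (mul_ne_zero (hd' u) hu)
    have hker : ∀ u, ∑ u', m u u' * a₀ u' = 0 := by
      intro u
      have := hrel a₀ u
      rw [ha₀', h1] at this
      exact (add_eq_right.1 this.symm)
    rw [← Nat.card_eq_fintype_card]
    refine Nat.card_eq_of_bijective (fun a => a.1 u₀) ⟨fun a b hab => ?_, fun c => ?_⟩
    · apply Subtype.ext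
      refine sub_eq_zero.1 (hinj (a.1 - b.1) (fun u => ?_) (sub_eq_zero.2 hab))
      simp only [Pi.sub_apply, mul_sub, sum_sub_distrib, a.2 u, b.2 u, sub_self]
    · refine ⟨⟨fun u => c * a₀ u, fun u => ?_⟩, by simp [h1]⟩
      have : ∀ u', m u u' * (c * a₀ u') = c * (m u u' * a₀ u') := fun u' => by ring
      simp only [this, ← mul_sum, hker, mul_zero]
  · have hz : ∀ a : L → F, (∀ u, ∑ u', m u u' * a u' = 0) → a = 0 := by
      intro a ha
      by_contra hne
      obtain ⟨u, hu, hs⟩ := PenA.maxl ξ m hm a hne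
      rw [ha u] at hs
      have : m u u ≠ 0 := by
        by_cases hc : u = u₀
        · rw [hc]; exact h0
        · exact hd u hc
      exact mul_ne_zero this hu hs.symm
    rw [Nat.card_eq_one_iff_unique]
    exact ⟨⟨fun a b => Subtype.ext ((hz a.1 a.2).trans (hz b.1 b.2).symm)⟩, ⟨⟨0, by simp⟩⟩⟩

namespace PenA

abbrev L (t : ℕ) : Type := Fin t × Fin (t ^ 2)

abbrev R (t : ℕ) : Type := Fin (2 * t) × Fin (2 * t ^ 2)

def sh {t : ℕ} (g : Fin t) (u : L t) : R t :=
  (⟨u.1 + g, by have := u.1.2; have := g.2; omega⟩,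
   ⟨u.2 + g ^ 2, by
    have h1 := u.2.2
    have h2 : (g : ℕ) ^ 2 < t ^ 2 := Nat.pow_lt_pow_left g.2 (by norm_num)
    omega⟩)

def En {t : ℕ} (g : ℕ) (ρ : R t) : Prop := (ρ.1 : ℕ) < t + g ∧ (ρ.2 : ℕ) < t ^ 2 + g ^ 2

def Ex {t : ℕ} (g : ℕ) (ρ : R t) : Prop := (ρ.1 : ℕ) < g ∨ (ρ.2 : ℕ) < g ^ 2

theorem sh_eq {t : ℕ} {g g' : Fin t} {u u' : L t} : sh g' u' = sh g u ↔
    (u'.1 : ℕ) + g' = u.1 + g ∧ (u'.2 : ℕ) + (g' : ℕ) ^ 2 = u.2 + (g : ℕ) ^ 2 := by
  simp [sh, Prod.ext_iff, Fin.ext_iff]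

theorem window {t : ℕ} (g : Fin t) (ρ : R t) : (En g ρ ∧ ¬ Ex g ρ) ↔ ∃ u, sh g u = ρ := by
  constructor
  · rintro ⟨⟨h1, h2⟩, h3⟩
    simp only [Ex, not_or, not_lt] at h3
    refine ⟨(⟨ρ.1 - g, by omega⟩, ⟨ρ.2 - g ^ 2, by omega⟩), ?_⟩
    simp only [sh, Prod.ext_iff, Fin.ext_iff]
    omega
  · rintro ⟨u, rfl⟩
    have h1 := u.1.2
    have h2 := u.2.2
    simp only [En, Ex, sh]
    omega

theorem En_mono {t : ℕ} {g g' : ℕ} (h : g ≤ g') {ρ : R t} (hE : En g ρ) : En g' ρ := by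
  have : g ^ 2 ≤ g' ^ 2 := Nat.pow_le_pow_left h 2
  unfold En at *
  omega

theorem Ex_mono {t : ℕ} {g g' : ℕ} (h : g ≤ g') {ρ : R t} (hE : Ex g ρ) : Ex g' ρ := by
  have : g ^ 2 ≤ g' ^ 2 := Nat.pow_le_pow_left h 2
  unfold Ex at *
  omega

theorem En_ex {t : ℕ} (ρ : R t) : ∃ g, En g ρ := by
  refine ⟨2 * t, ?_⟩
  have h1 := ρ.1.2
  have h2 := ρ.2.2
  have : (2 * t) ^ 2 = 4 * t ^ 2 := by ring
  unfold En
  omega

theorem Ex_ex {t : ℕ} (ρ : R t) : ∃ g, Ex g ρ := ⟨2 * t, Or.inl ρ.1.2⟩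

section Ker

variable {F : Type} [Field F] {t : ℕ} {Dg : Type} (act : Fin t × L t → Dg) (rev mask : R t → Dg)

def Cm (ε : F) (e : Dg → F) (a : L t → F) (ρ : R t) : F :=
  ∑ x : Fin t × L t, if sh x.1 x.2 = ρ then (1 - ε * e (act x)) * a x.2 else 0

theorem Cm_add (ε : F) (e : Dg → F) (a a' : L t → F) (ρ : R t) :
    Cm act ε e (a + a') ρ = Cm act ε e a ρ + Cm act ε e a' ρ := by
  simp only [Cm, ← sum_add_distrib]
  refine sum_congr rfl fun x _ => ?_
  split_ifs
  · simp [mul_add]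
  · simp

abbrev WW (F : Type) (t : ℕ) : Type := (L t → F) × (R t → F) × (R t → F) × F

abbrev OO (F : Type) (t : ℕ) : Type := (R t → F) × (R t → F) × F

def TT (ε : F) (e : Dg → F) : WW F t →+ OO F t :=
  AddMonoidHom.mk' (fun w => (fun ρ => Cm act ε e w.1 ρ + w.2.1 ρ + e (mask ρ) * w.2.2.1 ρ,
    fun ρ => e (rev ρ) * w.2.1 ρ, ε * w.2.2.2)) (by
      intro w w'
      refine Prod.ext (funext fun ρ => ?_) (Prod.ext (funext fun ρ => ?_) ?_)
      · simp only [Prod.fst_add, Prod.snd_add, Pi.add_apply, Cm_add]; ring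
      · simp only [Prod.fst_add, Prod.snd_add, Pi.add_apply]; ring
      · simp only [Prod.snd_add]; ring)

theorem mem_ker (ε : F) (e : Dg → F) (w : WW F t) : w ∈ (TT act rev mask ε e).ker ↔
    (∀ ρ, Cm act ε e w.1 ρ + w.2.1 ρ + e (mask ρ) * w.2.2.1 ρ = 0) ∧
    (∀ ρ, e (rev ρ) * w.2.1 ρ = 0) ∧ ε * w.2.2.2 = 0 := by
  simp only [AddMonoidHom.mem_ker, TT, AddMonoidHom.mk'_apply, Prod.ext_iff, funext_iff,
    Prod.fst_zero, Prod.snd_zero, Pi.zero_apply]

theorem TT_aff (ε : F) (w : WW F t) : IsAff (fun e : Dg → F => TT act rev mask ε e w) := by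
  have hev : ∀ (k : Dg) (c : F), IsAff (fun e : Dg → F => e k * c) := fun k c =>
    IsAff.hom ((AddMonoidHom.mulRight c).comp (Pi.evalAddMonoidHom (fun _ : Dg => F) k))
  refine IsAff.prod (IsAff.pi fun ρ => ?_) (IsAff.prod (IsAff.pi fun ρ => hev _ _)
    (IsAff.const _))
  refine IsAff.add (IsAff.add ?_ (IsAff.const _)) (hev _ _)
  refine IsAff.sum univ fun x _ => ?_
  by_cases h : sh x.1 x.2 = ρ
  · simp only [h, if_true]
    have : (fun e : Dg → F => (1 - ε * e (act x)) * w.1 x.2) =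
        fun e => w.1 x.2 + e (act x) * (-(ε * w.1 x.2)) := by
      funext e; ring
    rw [this]
    exact (IsAff.const _).add (hev _ _)
  · simp only [h, if_false]
    exact IsAff.const _

theorem card_ker [Fintype F] (ε : F) (e : Dg → F) (P Q : R t → Prop)
    (hP : ∀ ρ, e (rev ρ) ≠ 0 ↔ P ρ) (hQ : ∀ ρ, e (mask ρ) ≠ 0 ↔ Q ρ) :
    Nat.card (TT act rev mask ε e).ker =
      Nat.card {a : L t → F // ∀ ρ, P ρ ∧ ¬ Q ρ → Cm act ε e a ρ = 0} *
        (Fintype.card F ^ (univ.filter (fun ρ => ¬ (P ρ ∧ Q ρ))).card *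
          Nat.card {z : F // ε * z = 0}) := by
  have hc : Fintype.card F ^ (univ.filter (fun ρ => ¬ (P ρ ∧ Q ρ))).card =
      Nat.card ({ρ // ¬ (P ρ ∧ Q ρ)} → F) := by
    rw [Nat.card_fun, Nat.card_eq_fintype_card, Nat.card_eq_fintype_card, Fintype.card_subtype]
  rw [hc, ← Nat.card_prod, ← Nat.card_prod]
  have ho : ∀ w ∈ (TT act rev mask ε e).ker, ∀ ρ, P ρ → w.2.1 ρ = 0 := by
    intro w hw ρ hρ
    exact (mul_eq_zero.1 (((mem_ker act rev mask ε e w).1 hw).2.1 ρ)).resolve_left ((hP ρ).2 hρ)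
  refine Nat.card_eq_of_bijective (fun w => (⟨w.1.1, fun ρ hρ => ?_⟩, fun ρ => w.1.2.2.1 ρ.1,
    ⟨w.1.2.2.2, ((mem_ker act rev mask ε e w.1).1 w.2).2.2⟩)) ⟨fun w w' h => ?_, ?_⟩
  · have h1 := ((mem_ker act rev mask ε e w.1).1 w.2).1 ρ
    have h2 : e (mask ρ) = 0 := by
      by_contra h; exact hρ.2 ((hQ ρ).1 h)
    rw [ho w.1 w.2 ρ hρ.1, h2] at h1
    simpa using h1
  · simp only [Prod.mk.injEq, Subtype.mk.injEq] at h
    obtain ⟨h1, h2, h3⟩ := h
    have hw := (mem_ker act rev mask ε e w.1).1 w.2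
    have hw' := (mem_ker act rev mask ε e w'.1).1 w'.2
    have h4 : w.1.2.2.1 = w'.1.2.2.1 := by
      funext ρ
      by_cases hρ : P ρ ∧ Q ρ
      · have a1 := hw.1 ρ
        have a2 := hw'.1 ρ
        rw [ho w.1 w.2 ρ hρ.1] at a1
        rw [ho w'.1 w'.2 ρ hρ.1, ← h1] at a2
        exact mul_left_cancel₀ ((hQ ρ).2 hρ.2) (by linear_combination a1 - a2)
      · exact congrFun h2 ⟨ρ, hρ⟩
    have h5 : w.1.2.1 = w'.1.2.1 := by
      funext ρ
      have a1 := hw.1 ρ
      have a2 := hw'.1 ρ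
      rw [← h1, ← h4] at a2
      linear_combination a1 - a2
    exact Subtype.ext (Prod.ext h1 (Prod.ext h5 (Prod.ext h4 h3)))
  · rintro ⟨a, o'', z⟩
    let o' : R t → F := fun ρ =>
      if h : P ρ ∧ Q ρ then -Cm act ε e a.1 ρ / e (mask ρ) else o'' ⟨ρ, h⟩
    let o : R t → F := fun ρ => if P ρ then 0 else -Cm act ε e a.1 ρ - e (mask ρ) * o' ρ
    refine ⟨⟨(a.1, o, o', z.1), (mem_ker act rev mask ε e _).2 ⟨fun ρ => ?_, fun ρ => ?_, z.2⟩⟩, ?_⟩
    · by_cases hp : P ρ
      · by_cases hq : Q ρ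
        · have h0 := (hQ ρ).2 hq
          simp only [o, o', hp, hq, and_self, if_true, dif_pos]
          field_simp
          ring
        · have h2 : e (mask ρ) = 0 := by
            by_contra h; exact hq ((hQ ρ).1 h)
          simp [o, hp, h2, a.2 ρ ⟨hp, hq⟩]
      · simp only [o, hp, if_false]
        ring
    · by_cases hp : P ρ
      · simp [o, hp]
      · have h2 : e (rev ρ) = 0 := by
          by_contra h; exact hp ((hP ρ).1 h)
        simp [h2]
    · refine Prod.ext rfl (Prod.ext (funext fun ρ => ?_) rfl)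
      simp only [o', dif_neg ρ.2]

theorem card_Z [Fintype F] (ht : S_Tri) (ε : F) (e : Dg → F) (g : Fin t) (u₀ : L t)
    (hd : ∀ u, u ≠ u₀ → 1 - ε * e (act (g, u)) ≠ 0) :
    Nat.card {a : L t → F // ∀ ρ, En g ρ ∧ ¬ Ex g ρ → Cm act ε e a ρ = 0} =
      if 1 - ε * e (act (g, u₀)) = 0 then Fintype.card F else 1 := by
  let m : L t → L t → F := fun u u' =>
    ∑ g' : Fin t, if sh g' u' = sh g u then 1 - ε * e (act (g', u')) else 0
  have hC : ∀ a u, Cm act ε e a (sh g u) = ∑ u', m u u' * a u' := by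
    intro a u
    rw [Cm, Fintype.sum_prod_type_right]
    simp only [m, sum_mul]
    refine sum_congr rfl fun u' _ => sum_congr rfl fun g' _ => ?_
    split_ifs <;> simp
  have hdiag : ∀ u, m u u = 1 - ε * e (act (g, u)) := by
    intro u
    simp only [m]
    rw [sum_eq_single g]
    · simp
    · intro g' _ hg'
      rw [if_neg]
      intro h
      exact hg' (Fin.ext (by have := (sh_eq.1 h).1; omega))
    · simp
  have h := ht F (L t) (fun u => 2 * (g : ℤ) * (u.1 : ℤ) - (u.2 : ℤ)) m u₀ (fun u u' hne => ?_)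
    (fun u hu => by rw [hdiag]; exact hd u hu)
  · rw [hdiag] at h
    rw [← h]
    refine Nat.card_congr (Equiv.subtypeEquivRight fun a => ⟨fun ha u => ?_, fun ha ρ hρ => ?_⟩)
    · rw [← hC]; exact ha _ ((window g _).2 ⟨u, rfl⟩)
    · obtain ⟨u, rfl⟩ := (window g ρ).1 hρ
      rw [hC]; exact ha u
  · obtain ⟨g', -, hg'⟩ := exists_ne_zero_of_sum_ne_zero hne
    have hs : sh g' u' = sh g u := by
      by_contra h; simp [h] at hg'
    obtain ⟨h1, h2⟩ := sh_eq.1 hs
    by_cases hgg : g' = g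
    · subst hgg
      exact Or.inl (Prod.ext (Fin.ext (by omega)) (Fin.ext (by omega)))
    · right
      have h1' : (u'.1 : ℤ) + g' = u.1 + g := by exact_mod_cast h1
      have h2' : (u'.2 : ℤ) + (g' : ℤ) ^ 2 = u.2 + (g : ℤ) ^ 2 := by exact_mod_cast h2
      have h3 : (g : ℤ) - g' ≠ 0 := by
        intro h; exact hgg (Fin.ext (by omega))
      have h4 : 0 < ((g : ℤ) - g') ^ 2 := by positivity
      have h5 : (u'.1 : ℤ) = u.1 + g - g' := by linarith
      have h6 : (u'.2 : ℤ) = u.2 + (g : ℤ) ^ 2 - (g' : ℤ) ^ 2 := by linarith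
      show 2 * (g : ℤ) * (u.1 : ℤ) - (u.2 : ℤ) < 2 * (g : ℤ) * (u'.1 : ℤ) - (u'.2 : ℤ)
      rw [h5, h6]
      nlinarith

end Ker

def nf (t g : ℕ) : ℕ := (univ.filter (fun ρ : R t => ¬ (En g ρ ∧ Ex g ρ))).card

theorem card_R (t : ℕ) : Fintype.card (R t) = 4 * t ^ 3 := by
  simp only [R, Fintype.card_prod, Fintype.card_fin]; ring

theorem card_L (t : ℕ) : Fintype.card (L t) = t ^ 3 := by
  simp only [L, Fintype.card_prod, Fintype.card_fin]; ring

theorem nf_le (t g : ℕ) : nf t g ≤ 4 * t ^ 3 := by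
  rw [← card_R]; exact card_le_univ _

theorem card_WW (F : Type) [Fintype F] (t : ℕ) :
    Nat.card (WW F t) = Fintype.card F ^ (9 * t ^ 3 + 1) := by
  rw [Nat.card_eq_fintype_card]
  simp only [WW, Fintype.card_prod, Fintype.card_fun, Fintype.card_fin]
  ring

theorem pen_abs (ht : S_Tri) (F : Type) [Field F] [Fintype F] [CharP F 3] (b t : ℕ) (Dg : Type)
    [Fintype Dg] [LinearOrder Dg] (act : Fin t × L t → Dg) (rev mask : R t → Dg)
    (hact : Function.Injective act)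
    (hrev : ∀ (g : Fin t) u ρ, (En g ρ → rev ρ < act (g, u)) ∧ (¬ En g ρ → act (g, u) < rev ρ))
    (hmask : ∀ (g : Fin t) u ρ, (Ex g ρ → mask ρ < act (g, u)) ∧ (¬ Ex g ρ → act (g, u) < mask ρ))
    (Act : Finset Dg) (hA : Act.Nonempty) (hAct : ∀ k ∈ Act, ∃ x, act x = k) (ν : Dg → ℕ)
    (hν : ∀ g u, ν (act (g, u)) = 9 * t ^ 3 - nf t g) (τ : ℕ) (hτ : τ ≤ 1) :
    Nonempty (Pen (fieldDig F b Dg Act hA) (Fintype.card F) τ ν) := by
  set d := fieldDig F b Dg Act hA with hd
  have h3 : (3 : F) = 0 := by simpa using CharP.cast_eq_zero F 3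
  have key : ∀ (g : Fin t) (u₀ : L t) (e : Dg → F) (s : F), s ≠ 0 → d.ge (act (g, u₀)) e →
      Nat.card (TT act rev mask (τ : F) (d.tr (act (g, u₀)) s e)).ker =
        (if 1 - (τ : F) * s = 0 then Fintype.card F else 1) *
          (Fintype.card F ^ nf t g * Nat.card {z : F // (τ : F) * z = 0}) := by
    intro g u₀ e s hs hge
    rw [card_ker act rev mask _ _ (En g) (Ex g), card_Z act ht _ _ g u₀, d.tr_self]
    · rfl
    · intro u hu
      have hne : act (g, u) ≠ act (g, u₀) := fun h => hu (congrArg Prod.snd (hact h))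
      rcases lt_or_gt_of_ne hne with h | h
      · rw [d.tr_lt _ _ _ h]
        have := (hge _ h).2.1
        interval_cases τ
        · simp
        · simpa [sub_eq_zero] using this.symm
      · rw [d.tr_gt _ _ _ h]
        simp
    · intro ρ
      by_cases h : En g ρ
      · rw [d.tr_lt _ _ _ ((hrev g u₀ ρ).1 h)]
        simpa [h] using (hge _ ((hrev g u₀ ρ).1 h)).1
      · rw [d.tr_gt _ _ _ ((hrev g u₀ ρ).2 h)]
        simp [h]
    · intro ρ
      by_cases h : Ex g ρ
      · rw [d.tr_lt _ _ _ ((hmask g u₀ ρ).1 h)]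
        simpa [h] using (hge _ ((hmask g u₀ ρ).1 h)).1
      · rw [d.tr_gt _ _ _ ((hmask g u₀ ρ).2 h)]
        simp [h]
  have hz0 : Nat.card {z : F // ((0 : ℕ) : F) * z = 0} = Fintype.card F := by
    rw [← Nat.card_eq_fintype_card]
    exact Nat.card_congr (Equiv.subtypeUnivEquiv (by simp))
  have hz1 : Nat.card {z : F // ((1 : ℕ) : F) * z = 0} = 1 := by
    rw [Nat.card_eq_one_iff_unique]
    refine ⟨⟨fun a b => Subtype.ext ?_⟩, ⟨⟨0, by simp⟩⟩⟩
    have ha := a.2
    have hb := b.2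
    simp only [Nat.cast_one, one_mul] at ha hb
    rw [ha, hb]
  have h2 : (1 : F) - ((1 : ℕ) : F) * -1 ≠ 0 := by
    intro h
    have : (1 : F) = 0 := by
      simp only [Nat.cast_one] at h
      linear_combination h3 - h
    exact one_ne_zero this
  refine ⟨{
    W := WW F t
    O := OO F t
    T := TT act rev mask (τ : F)
    aff := TT_aff act rev mask _
    cardP := ?_
    cardM := ?_ }⟩
  · intro k hk e hge
    obtain ⟨⟨g, u₀⟩, rfl⟩ := hAct k hk
    refine card_range_of_ker _ _ ?_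
    have hn := nf_le t g
    rw [key g u₀ e d.u one_ne_zero hge, card_WW, hν]
    have e1 : 9 * t ^ 3 + 1 = 1 + nf t g + (9 * t ^ 3 - nf t g) := by omega
    rw [e1]
    interval_cases τ
    · rw [hz0, if_neg (by simp)]; ring
    · rw [hz1, if_pos (show (1 : F) - ((1 : ℕ) : F) * 1 = 0 by simp)]; ring
  · intro k hk e hge
    obtain ⟨⟨g, u₀⟩, rfl⟩ := hAct k hk
    refine card_range_of_ker _ _ ?_
    have hn := nf_le t g
    rw [key g u₀ e (-d.u) (neg_ne_zero.2 one_ne_zero) hge, card_WW, hν]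
    have e1 : 9 * t ^ 3 + 1 = 1 + nf t g + (9 * t ^ 3 - nf t g) := by omega
    rw [e1]
    interval_cases τ
    · rw [hz0, if_neg (by simp)]; ring
    · rw [hz1, if_neg h2]; ring

/-- The digit places. -/
def DD (t : ℕ) : Type := (Fin t × L t) ⊕ R t ⊕ R t

instance (t : ℕ) : Fintype (DD t) := inferInstanceAs (Fintype ((Fin t × L t) ⊕ R t ⊕ R t))

def time {t : ℕ} : DD t → ℕ
  | Sum.inl x => 2 * x.1 + 1
  | Sum.inr (Sum.inl ρ) => 2 * Nat.find (En_ex ρ)
  | Sum.inr (Sum.inr ρ) => 2 * Nat.find (Ex_ex ρ)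

def key {t : ℕ} (k : DD t) : ℕ ×ₗ ℕ := toLex (time k, (Fintype.equivFin (DD t) k : ℕ))

theorem key_inj {t : ℕ} : Function.Injective (key (t := t)) := by
  intro k k' h
  have h1 := congrArg (fun x => (ofLex x).2) h
  exact (Fintype.equivFin (DD t)).injective (Fin.ext h1)

instance (t : ℕ) : LinearOrder (DD t) := LinearOrder.lift' key key_inj

theorem lt_of_time {t : ℕ} {k k' : DD t} (h : time k < time k') : k < k' := by
  show key k < key k'
  exact Prod.Lex.toLex_lt_toLex.2 (Or.inl h)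

end PenA

open PenA in
theorem pen (ht : S_Tri) : S_Pen := by
  intro F _ _ _ b t h1
  let act : Fin t × L t → DD t := Sum.inl
  let rev : R t → DD t := fun ρ => Sum.inr (Sum.inl ρ)
  let mask : R t → DD t := fun ρ => Sum.inr (Sum.inr ρ)
  have hact : Function.Injective act := Sum.inl_injective
  have hcard : (univ.image act).card = t ^ 4 := by
    rw [card_image_of_injective _ hact, card_univ, Fintype.card_prod, card_L, Fintype.card_fin]
    ring
  have hA : (univ.image act).Nonempty := by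
    rw [← card_pos, hcard]; positivity
  let ν : DD t → ℕ := Sum.elim (fun x => 9 * t ^ 3 - nf t x.1) (fun _ => 0)
  have hrev : ∀ (g : Fin t) u ρ, (En g ρ → rev ρ < act (g, u)) ∧ (¬ En g ρ → act (g, u) < rev ρ) := by
    intro g u ρ
    refine ⟨fun h => lt_of_time ?_, fun h => lt_of_time ?_⟩
    · have := Nat.find_min' (En_ex ρ) h
      show 2 * Nat.find (En_ex ρ) < 2 * g + 1
      omega
    · have : (g : ℕ) < Nat.find (En_ex ρ) := by
        by_contra hc
        exact h (En_mono (not_lt.1 hc) (Nat.find_spec (En_ex ρ)))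
      show 2 * g + 1 < 2 * Nat.find (En_ex ρ)
      omega
  have hmask : ∀ (g : Fin t) u ρ, (Ex g ρ → mask ρ < act (g, u)) ∧ (¬ Ex g ρ → act (g, u) < mask ρ) := by
    intro g u ρ
    refine ⟨fun h => lt_of_time ?_, fun h => lt_of_time ?_⟩
    · have := Nat.find_min' (Ex_ex ρ) h
      show 2 * Nat.find (Ex_ex ρ) < 2 * g + 1
      omega
    · have : (g : ℕ) < Nat.find (Ex_ex ρ) := by
        by_contra hc
        exact h (Ex_mono (not_lt.1 hc) (Nat.find_spec (Ex_ex ρ)))
      show 2 * g + 1 < 2 * Nat.find (Ex_ex ρ)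
      omega
  have hAct : ∀ k ∈ univ.image act, ∃ x, act x = k := by
    intro k hk
    obtain ⟨x, -, hx⟩ := mem_image.1 hk
    exact ⟨x, hx⟩
  refine ⟨DD t, inferInstance, inferInstance, univ.image act, hA, ν, hcard, ?_, ?_,
    pen_abs ht F b t (DD t) act rev mask hact hrev hmask _ hA hAct ν (fun _ _ => rfl) 0 zero_le_one,
    pen_abs ht F b t (DD t) act rev mask hact hrev hmask _ hA hAct ν (fun _ _ => rfl) 1 le_rfl⟩
  · have : Fintype.card (DD t) = t * t ^ 3 + (4 * t ^ 3 + 4 * t ^ 3) := by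
      show Fintype.card ((Fin t × L t) ⊕ R t ⊕ R t) = _
      rw [Fintype.card_sum, Fintype.card_sum, Fintype.card_prod, card_L, card_R, Fintype.card_fin]
    rw [this]
    have h2 : t ^ 3 ≤ t ^ 4 := Nat.pow_le_pow_right h1 (by norm_num)
    have h3 : t * t ^ 3 = t ^ 4 := by ring
    omega
  · rintro (x | x)
    · show 9 * t ^ 3 - nf t x.1 ≤ 10 * t ^ 3
      omega
    · exact Nat.zero_le _

end Pool.Agent.P.MP_c77070_an
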