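import Pool.Agent.P.MP_c77070_an.Basic

/-! The identity between the two sides of a link, and the algebraic telescoping identity. -/

noncomputable section

namespace Pool.Agent.P.MP_c77070_an

open Filter Topology Finset
open scoped Classical ComplexConjugate

namespace QA

variable {G H : Type} [AddCommGroup G] [Fintype G] [AddCommGroup H] [Fintype H]

theorem two (a a' : G) (b b' : H) (z : ℂ) :
    ((Fintype.card G : ℂ) * (Fintype.card H : ℂ))⁻¹ *
      ∑ γ : Ch G, ∑ ζ : Ch H, conj (γ a * ζ b) * (γ a' * ζ b' * z) =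
      if (a', b') = (a, b) then z else 0 := by
  have hG : (Fintype.card G : ℂ) ≠ 0 := by exact_mod_cast Fintype.card_ne_zero
  have hH : (Fintype.card H : ℂ) ≠ 0 := by exact_mod_cast Fintype.card_ne_zero
  have h : ∑ γ : Ch G, ∑ ζ : Ch H, conj (γ a * ζ b) * (γ a' * ζ b' * z) =
      (∑ γ : Ch G, conj (γ a) * γ a') * (∑ ζ : Ch H, conj (ζ b) * ζ b') * z := by
    rw [sum_mul_sum, sum_mul]
    refine sum_congr rfl fun γ _ => ?_
    rw [sum_mul]
    refine sum_congr rfl fun ζ _ => ?_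
    rw [map_mul]
    ring
  rw [h, sum_ch, sum_ch]
  by_cases h1 : a = a'
  · by_cases h2 : b = b'
    · rw [if_pos h1, if_pos h2, if_pos (by rw [h1, h2])]
      field_simp
    · rw [if_neg h2, if_neg fun e => h2 (congrArg Prod.snd e).symm]
      simp
  · rw [if_neg h1, if_neg (c := (a', b') = (a, b)) fun e => h1 (congrArg Prod.fst e).symm]
    simp

omit [AddCommGroup H] in
theorem one {a a' : G} (h : a' ≠ a) (w : H → ℂ) (z : H → ℂ) :
    ∑ γ : Ch G, ∑ ζ : H, conj (γ a * w ζ) * (γ a' * z ζ) = 0 := by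
  rw [sum_comm]
  refine sum_eq_zero fun ζ _ => ?_
  have e : ∑ γ : Ch G, conj (γ a * w ζ) * (γ a' * z ζ) =
      (∑ γ : Ch G, conj (γ a) * γ a') * (conj (w ζ) * z ζ) := by
    rw [sum_mul]
    refine sum_congr rfl fun γ _ => ?_
    rw [map_mul]
    ring
  rw [e, sum_ch, if_neg h.symm, zero_mul]

theorem eval (s : Sys) {I J : Type} [Fintype I] [Fintype J] (c : ℂ) (a : I → J → ℂ)
    (y : I → J → s.W) (j : ℕ) (η : Ch (s.K (j + 2))) (ω : s.Ω j) (e : (s.d j).E) :
    (c • ∑ γ, ∑ ζ, a γ ζ • y γ ζ) j η ω e = c * ∑ γ, ∑ ζ, a γ ζ * y γ ζ j η ω e := by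
  simp only [DFinsupp.smul_apply, DFinsupp.finsetSum_apply, Finset.sum_apply, Pi.smul_apply,
    smul_eq_mul]

theorem reorder {M I J Ξ : Type} [AddCommGroup M] [Module ℂ M] [Fintype I] [Fintype J]
    [Fintype Ξ] (N N' : ℂ) (a : Ξ → I → J → ℂ) (c : Ξ → ℂ) (y : I → J → M) :
    ∑ γ, ∑ ζ, ((N * N')⁻¹ * ∑ ξ, a ξ γ ζ * c ξ) • y γ ζ =
      ∑ ξ, (c ξ * N'⁻¹) • N⁻¹ • ∑ γ, ∑ ζ, a ξ γ ζ • y γ ζ := by
  simp only [mul_sum, sum_smul, smul_sum, smul_smul]
  rw [sum_comm (s := (univ : Finset Ξ))]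
  refine sum_congr rfl fun γ _ => ?_
  rw [sum_comm (s := (univ : Finset Ξ))]
  refine sum_congr rfl fun ζ _ => sum_congr rfl fun ξ _ => ?_
  congr 1
  rw [mul_inv]
  ring

end QA

theorem sq : S_Q := by
  intro s i ξ η η'
  refine DFinsupp.ext fun j => funext fun η'' => funext fun ω => funext fun e => ?_
  rw [QA.eval, QA.eval]
  by_cases h1 : j = i
  · subst h1
    simp only [Sys.yfam_self, Sys.yfam_pred, Sys.own, Sys.fwc, Sys.ownv]
    by_cases h : η'' = η
    · simp only [if_pos h]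
      have e2 : ∀ (γ : Ch (s.A (j + 2))) (ζ : Ch (s.K (j + 4))),
          γ (s.fw j ω e) * η' (s.kp j ω) * ζ (s.cf j ω) =
            γ (s.fw j ω e) * ζ (s.cf j ω) * η' (s.kp j ω) := fun _ _ => by ring
      simp only [e2]
      rw [QA.two, QA.two]
      exact if_congr (s.C1 j ξ ω e) rfl rfl
    · simp [h]
  by_cases h2 : j = i + 1
  · subst h2
    simp only [Sys.yfam_self, Sys.yfam_succ, Sys.own, Sys.bwc, Sys.ownv]
    by_cases h : η'' = η'
    · simp only [if_pos h]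
      have e2 : ∀ (γ : Ch (s.A (i + 2))) (ζ : Ch (s.K (i + 4))),
          γ (s.x (i + 1) ω e) * η (s.km (i + 1) ω) * ζ (s.kp (i + 1) ω) =
            γ (s.x (i + 1) ω e) * ζ (s.kp (i + 1) ω) * η (s.km (i + 1) ω) := fun _ _ => by ring
      simp only [e2]
      rw [QA.two, QA.two]
      exact if_congr (s.C2 i ξ ω e) rfl rfl
    · simp [h]
  by_cases h3 : j + 1 = i
  · subst h3
    have e1 := QA.one (H := Ch (s.K (j + 2))) (s.C3 j ξ ω e) (fun ζ => ζ (s.o (j + 1) ξ).2)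
      fun ζ => if η'' = ζ then η (s.kp j ω) * η' (s.cf j ω) else 0
    simp only [Sys.yfam_pred, Sys.fwc,
      fun g => s.yfam_other (j + 1 + 1) j g (by omega) (by omega) (by omega)]
    simp only [Pi.zero_apply, mul_zero, sum_const_zero]
    rw [mul_eq_zero]
    refine Or.inr (Eq.trans (sum_congr rfl fun γ _ => sum_congr rfl fun ζ _ => ?_) e1)
    split_ifs <;> ring
  by_cases h4 : j = i + 2
  · subst h4
    have e1 := QA.one (H := Ch (s.K (i + 4))) (s.C4 i ξ ω e) (fun ζ => ζ (s.n i ξ).2)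
      fun ζ => if η'' = ζ then η (s.cb (i + 2) ω) * η' (s.km (i + 2) ω) else 0
    have e2 : ∀ g, s.yfam (i + 1) g (i + 2) = s.bwc (i + 1) g := s.yfam_succ (i + 1)
    simp only [e2, Sys.bwc,
      fun g => s.yfam_other i (i + 2) g (by omega) (by omega) (by omega)]
    simp only [Pi.zero_apply, mul_zero, sum_const_zero]
    rw [eq_comm, mul_eq_zero]
    refine Or.inr (Eq.trans (sum_congr rfl fun γ _ => sum_congr rfl fun ζ _ => ?_) e1)
    split_ifs <;> ring
  simp only [fun g => s.yfam_other i j g h1 h2 h3,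
    fun g => s.yfam_other (i + 1) j g h2 (by omega) (by omega), Pi.zero_apply, mul_zero,
    sum_const_zero]

theorem alg (hq : S_Q) (hc : S_Cons) : S_Alg := by
  intro s i j g'
  obtain ⟨c, h1, h2⟩ := hc s i j g'
  have l : ∑ g, s.FOut i g (s.yfam j g') • s.yfam i g =
      ∑ η, ∑ η', ∑ γ, ∑ ζ, s.FOut i (γ, ζ, η, η') (s.yfam j g') • s.yfam i (γ, ζ, η, η') := by
    let E : Ch (s.K (i + 2)) × Ch (s.K (i + 3)) × Ch (s.A (i + 1)) × Ch (s.K (i + 1)) ≃ s.Pt i :=
      ⟨fun x => (x.2.2.1, x.2.2.2, x.1, x.2.1), fun g => (g.2.2.1, g.2.2.2, g.1, g.2.1),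
        fun _ => rfl, fun _ => rfl⟩
    rw [← E.sum_comp]
    simp only [Fintype.sum_prod_type]
    rfl
  have r : ∑ g, s.FIn (i + 1) g (s.yfam j g') • s.yfam (i + 1) g =
      ∑ η, ∑ η', ∑ γ, ∑ ζ,
        s.FIn (i + 1) (γ, η, η', ζ) (s.yfam j g') • s.yfam (i + 1) (γ, η, η', ζ) := by
    let E : Ch (s.K (i + 2)) × Ch (s.K (i + 3)) × Ch (s.A (i + 2)) × Ch (s.K (i + 4)) ≃
        s.Pt (i + 1) :=
      ⟨fun x => (x.2.2.1, x.1, x.2.1, x.2.2.2), fun g => (g.2.1, g.2.2.1, g.1, g.2.2.2),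
        fun _ => rfl, fun _ => rfl⟩
    rw [← E.sum_comp]
    simp only [Fintype.sum_prod_type]
    rfl
  rw [l, r]
  refine sum_congr rfl fun η _ => sum_congr rfl fun η' _ => ?_
  have c1 : (Fintype.card (s.Pt i) : ℂ) =
      ((Fintype.card (s.A (i + 1)) : ℂ) * Fintype.card (s.K (i + 1))) *
        ((Fintype.card (s.K (i + 2)) : ℂ) * Fintype.card (s.K (i + 3))) := by
    rw [s.card_Pt]
    push_cast
    ring
  have c2 : (Fintype.card (s.Pt (i + 1)) : ℂ) =
      ((Fintype.card (s.A (i + 2)) : ℂ) * Fintype.card (s.K (i + 4))) *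
        ((Fintype.card (s.K (i + 2)) : ℂ) * Fintype.card (s.K (i + 3))) := by
    rw [s.card_Pt]
    push_cast
    ring
  simp only [h1, h2, c1, c2]
  rw [QA.reorder, QA.reorder]
  exact sum_congr rfl fun ξ _ => by rw [hq s i ξ η η']

end Pool.Agent.P.MP_c77070_an
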