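import Pool.Agent.P.MP_c77070_an.Basic

/-! Task REAL: the iterated limit norm is finitely represented in the space. -/

noncomputable section

namespace Pool.Agent.P.MP_c77070_an

open Filter Topology Finset
open scoped Classical ComplexConjugate

universe u

namespace RealA

/-- Pointwise limits of uniformly Lipschitz functions are uniform on compact sets. -/
theorem unif {ι T : Type*} [PseudoMetricSpace T] {l : Filter ι} {F : ι → T → ℝ} {f : T → ℝ}
    {S : Set T} (hS : IsCompact S) {L : ℝ} (hL : 0 < L)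
    (hF : ∀ᶠ y in l, ∀ s t, |F y s - F y t| ≤ L * dist s t)
    (hf : ∀ s t, |f s - f t| ≤ L * dist s t)
    (h : ∀ t, Tendsto (fun y => F y t) l (𝓝 (f t))) {ε : ℝ} (hε : 0 < ε) :
    ∀ᶠ y in l, ∀ t ∈ S, |F y t - f t| ≤ ε := by
  refine hS.induction_on (p := fun u => ∀ᶠ y in l, ∀ t ∈ u, |F y t - f t| ≤ ε) (by simp)
    (fun s t hst h => h.mono fun y hy r hr => hy r (hst hr))
    (fun s t hs ht => (hs.and ht).mono fun y hy r hr => hr.elim (hy.1 r) (hy.2 r))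
    fun t _ => ⟨Metric.ball t (ε / (3 * L)),
      mem_nhdsWithin_of_mem_nhds (Metric.ball_mem_nhds _ (by positivity)), ?_⟩
  filter_upwards [hF, Metric.tendsto_nhds.1 (h t) (ε / 3) (by positivity)] with y h1 h2 s hs
  have h3 : L * dist s t ≤ ε / 3 := by
    have h4 := mul_le_mul_of_nonneg_left (Metric.mem_ball.1 hs).le hL.le
    rwa [show L * (ε / (3 * L)) = ε / 3 by field_simp] at h4
  have h5 := abs_le.1 ((h1 s t).trans h3)
  have h6 := abs_le.1 ((hf s t).trans h3)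
  rw [Real.dist_eq] at h2
  have h7 := abs_lt.1 h2
  rw [abs_le]
  constructor <;> linarith [h5.1, h5.2, h6.1, h6.2, h7.1, h7.2]

variable {𝕜 : Type} [RCLike 𝕜] {X : Type u} [NormedAddCommGroup X] [NormedSpace 𝕜 X]
  {U : Ultrafilter X} {ρ δ : ℝ}

theorem lip_le (h : ItFacts 𝕜 U ρ) (hρ : 0 ≤ ρ) {n : ℕ} (a a' : Fin n → 𝕜) (x x' : X) :
    itN U (List.ofFn a) x ≤ itN U (List.ofFn a') x' + (‖x - x'‖ + ρ * (n * ‖a - a'‖)) := by
  have h1 := h.sub (List.ofFn a') (List.ofFn (a - a')) x' (x - x') (by simp)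
  have h2 : List.zipWith (· + ·) (List.ofFn a') (List.ofFn (a - a')) = List.ofFn a :=
    List.ext_getElem (by simp) (by simp)
  have h3 := h.bound (List.ofFn (a - a')) (x - x')
  have h4 : ((List.ofFn (a - a')).map (‖·‖)).sum ≤ n * ‖a - a'‖ := by
    rw [List.map_ofFn, List.sum_ofFn]
    refine (sum_le_card_nsmul univ _ ‖a - a'‖ fun i _ => norm_le_pi_norm (a - a') i).trans ?_
    simp
  rw [h2, add_sub_cancel] at h1
  have h5 := mul_le_mul_of_nonneg_left h4 hρ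
  linarith

theorem lip_abs (h : ItFacts 𝕜 U ρ) (hρ : 0 ≤ ρ) {n : ℕ} (a a' : Fin n → 𝕜) (x x' : X) :
    |itN U (List.ofFn a) x - itN U (List.ofFn a') x'| ≤ ‖x - x'‖ + ρ * (n * ‖a - a'‖) := by
  have h1 := lip_le h hρ a a' x x'
  have h2 := lip_le h hρ a' a x' x
  rw [norm_sub_rev x', norm_sub_rev a'] at h2
  rw [abs_le]
  constructor <;> linarith

/-- One step of the iterated limit, uniformly on compact sets. -/
theorem step (h : ItFacts 𝕜 U ρ) (hb : Metric.closedBall (0 : X) ρ ∈ U) (n : ℕ) {K : Set X}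
    (hK : IsCompact K) {ε : ℝ} (hε : 0 < ε) : ∀ᶠ y in (U : Filter X), ∀ x ∈ K,
      ∀ a : Fin (n + 1) → 𝕜, ‖a‖ ≤ 1 →
        |itN U (List.ofFn (Fin.tail a)) (x + a 0 • y) - itN U (List.ofFn a) x| ≤ ε := by
  have hρ : 0 ≤ ρ := Metric.nonempty_closedBall.1 (U.nonempty_of_mem hb)
  have : ProperSpace (Fin (n + 1) → 𝕜) := FiniteDimensional.proper_rclike 𝕜 _
  have d1 : ∀ s t : X × (Fin (n + 1) → 𝕜), ‖s.1 - t.1‖ ≤ dist s t := fun s t => by
    rw [← dist_eq_norm, Prod.dist_eq]; exact le_max_left _ _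
  have d2 : ∀ s t : X × (Fin (n + 1) → 𝕜), ‖s.2 - t.2‖ ≤ dist s t := fun s t => by
    rw [← dist_eq_norm, Prod.dist_eq]; exact le_max_right _ _
  have key := unif (l := (U : Filter X)) (T := X × (Fin (n + 1) → 𝕜))
    (F := fun y t => itN U (List.ofFn (Fin.tail t.2)) (t.1 + t.2 0 • y))
    (f := fun t => itN U (List.ofFn t.2) t.1)
    (hK.prod (isCompact_closedBall (0 : Fin (n + 1) → 𝕜) 1)) (L := 1 + ρ * (n + 1))
    (by positivity) ?_ ?_ ?_ hε
  · exact key.mono fun y hy x hx a ha => hy (x, a) ⟨hx, by simpa using ha⟩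
  · filter_upwards [hb] with y hy s t
    refine (lip_abs h hρ _ _ _ _).trans ?_
    have h1 : ‖s.1 + s.2 0 • y - (t.1 + t.2 0 • y)‖ ≤ dist s t + dist s t * ρ := by
      rw [show s.1 + s.2 0 • y - (t.1 + t.2 0 • y) = (s.1 - t.1) + (s.2 - t.2) 0 • y by
        rw [Pi.sub_apply, sub_smul]; abel]
      refine (norm_add_le _ _).trans (add_le_add (d1 s t) ?_)
      rw [norm_smul]
      exact mul_le_mul ((norm_le_pi_norm _ _).trans (d2 s t)) (by simpa using hy)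
        (norm_nonneg _) dist_nonneg
    have h2 : ‖Fin.tail s.2 - Fin.tail t.2‖ ≤ dist s t :=
      (pi_norm_le_iff_of_nonneg dist_nonneg).2 fun i =>
        (norm_le_pi_norm (s.2 - t.2) i.succ).trans (d2 s t)
    have h3 := mul_le_mul_of_nonneg_left
      (mul_le_mul_of_nonneg_left h2 (Nat.cast_nonneg (α := ℝ) n)) hρ
    linarith
  · intro s t
    refine (lip_abs h hρ _ _ _ _).trans ?_
    have h3 := mul_le_mul_of_nonneg_left
      (mul_le_mul_of_nonneg_left (d2 s t) (Nat.cast_nonneg (α := ℝ) (n + 1))) hρ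
    have h4 := d1 s t
    push_cast at h3 ⊢
    linarith
  · intro t
    rw [List.ofFn_succ]
    exact h.tend _ _ _

theorem approx (h : ItFacts 𝕜 U ρ) (hb : Metric.closedBall (0 : X) ρ ∈ U) {W : Set X}
    (hW : W ∈ U) (n : ℕ) : ∀ K : Set X, IsCompact K → ∀ ε : ℝ, 0 < ε → ∃ y : Fin n → X,
      (∀ i, y i ∈ W) ∧ ∀ x ∈ K, ∀ a : Fin n → 𝕜, ‖a‖ ≤ 1 →
        |itN U (List.ofFn a) x - ‖x + ∑ i, a i • y i‖| ≤ ε := by
  induction n with
  | zero => exact fun K _ ε hε => ⟨Fin.elim0, fun i => i.elim0, fun x _ a _ => by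
      simpa [itN] using hε.le⟩
  | succ n ih =>
    intro K hK ε hε
    have : ProperSpace 𝕜 := FiniteDimensional.proper_rclike 𝕜 _
    obtain ⟨y₀, h1, h2⟩ := ((step h hb n hK (half_pos hε)).and hW).exists
    obtain ⟨y, h3, h4⟩ := ih ((fun t : X × 𝕜 => t.1 + t.2 • y₀) '' (K ×ˢ Metric.closedBall 0 1))
      ((hK.prod (isCompact_closedBall _ _)).image (by fun_prop)) _ (half_pos hε)
    refine ⟨Fin.cons y₀ y, fun i => Fin.cases h2 h3 i, fun x hx a ha => ?_⟩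
    have h5 := abs_le.1 (h1 x hx a ha)
    have h6 := abs_le.1 (h4 (x + a 0 • y₀)
      ⟨(x, a 0), ⟨hx, by simpa using (norm_le_pi_norm a 0).trans ha⟩, rfl⟩ (Fin.tail a)
      ((pi_norm_le_iff_of_nonneg zero_le_one).2 fun i => (norm_le_pi_norm a i.succ).trans ha))
    rw [Fin.sum_univ_succ, Fin.cons_zero, ← add_assoc]
    simp only [Fin.cons_succ]
    simp only [Fin.tail] at h6
    rw [abs_le]
    constructor <;> linarith [h5.1, h5.2, h6.1, h6.2]

theorem low (h : ItFacts 𝕜 U ρ) (hl : Lower 𝕜 U δ) (hδ : 0 < δ) {n : ℕ} (a : Fin n → 𝕜) :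
    ‖a‖ * δ ≤ 2 * itN U (List.ofFn a) (0 : X) := by
  have h0 := h.nonneg (List.ofFn a) 0
  rw [← le_div_iff₀ hδ]
  refine (pi_norm_le_iff_of_nonneg (by positivity)).2 fun i => ?_
  have h1 := hl ((List.ofFn a).take i) ((List.ofFn a).drop i) 0
  have h2 := hl ((List.ofFn a).take (i + 1)) ((List.ofFn a).drop (i + 1)) 0
  rw [List.take_append_drop] at h1 h2
  rw [List.drop_eq_getElem_cons (by simp), List.sum_cons, List.getElem_ofFn] at h1
  have h3 : ‖a i‖ ≤ ‖a i + ((List.ofFn a).drop (i + 1)).sum‖ +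
      ‖((List.ofFn a).drop (i + 1)).sum‖ := by
    simpa using norm_sub_le (a i + ((List.ofFn a).drop (i + 1)).sum)
      ((List.ofFn a).drop (i + 1)).sum
  have h4 := mul_le_mul_of_nonneg_left h3 hδ.le
  rw [le_div_iff₀ hδ]
  simp only [Fin.eta] at h1
  linarith

end RealA

theorem realS (𝕜 : Type) [RCLike 𝕜] (X : Type u) [NormedAddCommGroup X] [NormedSpace 𝕜 X] :
    S_Real 𝕜 X := by
  intro _ U z δ ρ hU h hl Φ n
  have hδ := hU.pos
  have hW : {y : X | ∀ φ ∈ Φ, φ y = z φ} ∈ U :=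
    (Filter.eventually_all_finset Φ).2 fun φ _ => hU.wk φ
  obtain ⟨y, h1, h2⟩ := RealA.approx h hU.ball hW n {0} isCompact_singleton (δ / 4)
    (by positivity)
  refine ⟨y, fun φ hφ i j => (h1 i φ hφ).trans (h1 j φ hφ).symm, fun a => ?_⟩
  obtain ⟨b, hb, hab⟩ : ∃ b : Fin n → 𝕜, ‖b‖ ≤ 1 ∧ a = ((‖a‖ : ℝ) : 𝕜) • b := by
    by_cases ha : a = 0
    · exact ⟨0, by simp, by simp [ha]⟩
    · have h3 : ‖a‖ ≠ 0 := norm_ne_zero_iff.2 ha
      have h4 : ((‖a‖ : ℝ) : 𝕜) ≠ 0 := by exact_mod_cast h3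
      refine ⟨((‖a‖ : ℝ) : 𝕜)⁻¹ • a, ?_, by rw [smul_inv_smul₀ h4]⟩
      rw [norm_smul, norm_inv, RCLike.norm_ofReal, abs_norm, inv_mul_cancel₀ h3]
  have h3 := abs_le.1 (h2 0 rfl b hb)
  have h4 : itN U (List.ofFn a) (0 : X) = ‖a‖ * itN U (List.ofFn b) (0 : X) := by
    have h5 := h.smul ((‖a‖ : ℝ) : 𝕜) (List.ofFn b) 0
    rw [List.map_ofFn, smul_zero, RCLike.norm_ofReal, abs_norm] at h5
    rw [← h5]
    exact congrArg (fun c => itN U (List.ofFn c) (0 : X)) hab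
  have h5 : ‖∑ i, a i • y i‖ = ‖a‖ * ‖∑ i, b i • y i‖ := by
    have h6 : ∑ i, a i • y i = ((‖a‖ : ℝ) : 𝕜) • ∑ i, b i • y i := by
      rw [smul_sum]
      exact sum_congr rfl fun i _ => by rw [smul_smul, congrFun hab i]; rfl
    rw [h6, norm_smul, RCLike.norm_ofReal, abs_norm]
  have h6 := RealA.low h hl hδ a
  have h7 := mul_le_mul_of_nonneg_left h3.1 (norm_nonneg a)
  have h8 := mul_le_mul_of_nonneg_left h3.2 (norm_nonneg a)
  have h9 := h.nonneg (List.ofFn a) 0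
  rw [zero_add] at h7 h8
  constructor <;> nlinarith

end Pool.Agent.P.MP_c77070_an
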