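import Pool.Agent.P.MP_c77070_an.Basic

/-! A minimising ultrafilter converging weak-star to a point of the bidual far from the space. -/

noncomputable section

namespace Pool.Agent.P.MP_c77070_an

open Filter Topology Finset
open scoped Classical ComplexConjugate

universe u

namespace UltraA

variable {𝕜 : Type} [RCLike 𝕜] {X : Type u} [NormedAddCommGroup X] [NormedSpace 𝕜 X]

/-- Algebraic interpolation of an element of the bidual on finitely many functionals. -/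
theorem interp (z : StrongDual 𝕜 (StrongDual 𝕜 X)) (Φ : Finset (StrongDual 𝕜 X)) :
    ∃ x : X, ∀ φ ∈ Φ, φ x = z φ := by
  let T : X →ₗ[𝕜] (Φ → 𝕜) := LinearMap.pi fun φ => (φ.1 : X →ₗ[𝕜] 𝕜)
  by_cases h : (fun φ : Φ => z φ.1) ∈ LinearMap.range T
  · obtain ⟨x, hx⟩ := h
    exact ⟨x, fun φ hφ => congrFun hx ⟨φ, hφ⟩⟩
  obtain ⟨g, hg, hg'⟩ := Submodule.exists_dual_map_eq_bot_of_notMem h inferInstance
  refine absurd ?_ hg
  have h1 : ∑ φ : Φ, g (fun ψ => if φ = ψ then 1 else 0) • φ.1 = 0 := by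
    ext y
    have h2 : g (T y) = 0 := by
      rw [← Submodule.mem_bot 𝕜, ← hg']
      exact Submodule.mem_map_of_mem (LinearMap.mem_range_self T y)
    rw [LinearMap.pi_apply_eq_sum_univ] at h2
    simpa [T, mul_comm] using h2
  have h3 := congrArg z h1
  rw [LinearMap.pi_apply_eq_sum_univ]
  simpa [mul_comm] using h3

/-- Helly theorem. -/
theorem helly (z : StrongDual 𝕜 (StrongDual 𝕜 X)) (Φ : Finset (StrongDual 𝕜 X)) :
    ∃ y : X, ‖y‖ ≤ ‖z‖ + 1 ∧ ∀ φ ∈ Φ, φ y = z φ := by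
  obtain ⟨x, hx⟩ := interp z Φ
  let M : Submodule 𝕜 X := ⨅ φ : Φ, LinearMap.ker (φ.1 : X →ₗ[𝕜] 𝕜)
  obtain ⟨g, hg1, hg2⟩ := exists_dual_vector'' 𝕜 (Submodule.Quotient.mk x : X ⧸ M)
  have hb : ∀ y : X, ‖((g : X ⧸ M →ₗ[𝕜] 𝕜) ∘ₗ M.mkQ) y‖ ≤ 1 * ‖y‖ := fun y =>
    (g.le_of_opNorm_le hg1 _).trans (by
      simpa using Submodule.Quotient.norm_mk_le M y)
  let ψ : StrongDual 𝕜 X := LinearMap.mkContinuous _ 1 hb
  have hψ : ‖ψ‖ ≤ 1 := LinearMap.mkContinuous_norm_le _ zero_le_one hb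
  have h1 : M ≤ LinearMap.ker (ψ : X →ₗ[𝕜] 𝕜) := fun y hy => by
    show g (M.mkQ y) = 0
    rw [Submodule.mkQ_apply, (Submodule.Quotient.mk_eq_zero M).2 hy, map_zero]
  obtain ⟨c, hc⟩ := (Submodule.mem_span_range_iff_exists_fun 𝕜).1 (mem_span_of_iInf_ker_le_ker h1)
  have h2 : ψ = ∑ φ : Φ, c φ • φ.1 := by
    ext y
    simpa using (LinearMap.congr_fun hc y).symm
  have h3 : ψ x = z ψ := by
    rw [h2]
    simp only [map_sum, map_smul, _root_.sum_apply, smul_apply]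
    exact sum_congr rfl fun φ _ => by rw [hx φ.1 φ.2]
  have h4 : ‖(Submodule.Quotient.mk x : X ⧸ M)‖ ≤ ‖z‖ := by
    have h5 : z ψ = (‖(Submodule.Quotient.mk x : X ⧸ M)‖ : ℝ) := h3.symm.trans hg2
    have h6 := z.le_opNorm ψ
    rw [h5, RCLike.norm_ofReal, abs_norm] at h6
    exact h6.trans (mul_le_of_le_one_right (norm_nonneg _) hψ)
  obtain ⟨y, hy, hy'⟩ := Submodule.Quotient.norm_mk_lt (Submodule.Quotient.mk x : X ⧸ M) one_pos
  refine ⟨y, by linarith, fun φ hφ => ?_⟩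
  have h7 : φ (y - x) = 0 := (Submodule.mem_iInf _).1 ((Submodule.Quotient.eq M).1 hy) ⟨φ, hφ⟩
  rw [← hx φ hφ, ← sub_eq_zero, ← map_sub, h7]

/-- The slices of the ball. -/
def N (z : StrongDual 𝕜 (StrongDual 𝕜 X)) (ρ : ℝ) (Φ : Finset (StrongDual 𝕜 X)) : Set X :=
  {y | ‖y‖ ≤ ρ ∧ ∀ φ ∈ Φ, φ y = z φ}

theorem N_anti (z : StrongDual 𝕜 (StrongDual 𝕜 X)) (ρ : ℝ) {Φ Ψ : Finset (StrongDual 𝕜 X)}
    (h : Φ ⊆ Ψ) : N z ρ Ψ ⊆ N z ρ Φ := fun _ hy => ⟨hy.1, fun φ hφ => hy.2 φ (h hφ)⟩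

variable [NormedSpace ℝ X] [IsScalarTower ℝ 𝕜 X]

theorem N_convex (z : StrongDual 𝕜 (StrongDual 𝕜 X)) (ρ : ℝ) (Φ : Finset (StrongDual 𝕜 X)) :
    Convex ℝ (N z ρ Φ) := by
  intro y hy y' hy' a b ha hb hab
  refine ⟨?_, fun φ hφ => ?_⟩
  · simpa using convex_closedBall (0 : X) ρ (by simpa using hy.1) (by simpa using hy'.1) ha hb hab
  · rw [map_add, φ.map_smul_of_tower, φ.map_smul_of_tower, hy.2 φ hφ, hy'.2 φ hφ, ← add_smul, hab,
      one_smul]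

theorem compat_inter (z : StrongDual 𝕜 (StrongDual 𝕜 X)) (ρ : ℝ) {s t : Set X} (hs : IsOpen s)
    (hs' : Convex ℝ s) (ht : Convex ℝ t) (h1 : ∀ Φ, (s ∩ N z ρ Φ).Nonempty)
    (h2 : ∀ Φ, (t ∩ N z ρ Φ).Nonempty) (Φ : Finset (StrongDual 𝕜 X)) :
    (s ∩ t ∩ N z ρ Φ).Nonempty := by
  by_contra h
  rw [Set.inter_assoc, Set.not_nonempty_iff_eq_empty, ← Set.disjoint_iff_inter_eq_empty] at h
  obtain ⟨f, u, hf, hf'⟩ := RCLike.geometric_hahn_banach_open (𝕜 := 𝕜) hs' hs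
    (ht.inter (N_convex z ρ Φ)) h
  obtain ⟨y, hy, hy'⟩ := h1 {f}
  obtain ⟨w, hw, hw'⟩ := h2 (insert f Φ)
  have h3 := hf y hy
  have h4 := hf' w ⟨hw, N_anti z ρ (subset_insert f Φ) hw'⟩
  rw [hy'.2 f (mem_singleton_self f)] at h3
  rw [hw'.2 f (mem_insert_self f Φ)] at h4
  exact absurd h3 (not_lt.2 h4)

/-- The filter generated by the slices and the compatible open convex sets. -/
def F (z : StrongDual 𝕜 (StrongDual 𝕜 X)) : Filter X where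
  sets := {A | ∃ s Φ, IsOpen s ∧ Convex ℝ s ∧ (∀ Ψ, (s ∩ N z (‖z‖ + 1) Ψ).Nonempty) ∧
    s ∩ N z (‖z‖ + 1) Φ ⊆ A}
  univ_sets := ⟨Set.univ, ∅, isOpen_univ, convex_univ,
    fun Ψ => (helly z Ψ).imp fun _ h => ⟨trivial, h⟩, Set.subset_univ _⟩
  sets_of_superset := fun ⟨s, Φ, h1, h2, h3, h4⟩ h => ⟨s, Φ, h1, h2, h3, h4.trans h⟩
  inter_sets := fun ⟨s, Φ, h1, h2, h3, h4⟩ ⟨t, Ψ, k1, k2, k3, k4⟩ =>
    ⟨s ∩ t, Φ ∪ Ψ, h1.inter k1, h2.inter k2, compat_inter z _ h1 h2 k2 h3 k3, fun _ hy =>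
      ⟨h4 ⟨hy.1.1, N_anti z _ subset_union_left hy.2⟩,
        k4 ⟨hy.1.2, N_anti z _ subset_union_right hy.2⟩⟩⟩

theorem F_neBot (z : StrongDual 𝕜 (StrongDual 𝕜 X)) : (F z).NeBot :=
  forall_mem_nonempty_iff_neBot.1 fun _ ⟨_, Φ, _, _, h3, h4⟩ => (h3 Φ).mono h4

theorem N_mem (z : StrongDual 𝕜 (StrongDual 𝕜 X)) (Φ : Finset (StrongDual 𝕜 X)) :
    N z (‖z‖ + 1) Φ ∈ F z :=
  ⟨Set.univ, Φ, isOpen_univ, convex_univ, fun Ψ => (helly z Ψ).imp fun _ h => ⟨trivial, h⟩,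
    Set.inter_subset_right⟩

end UltraA

theorem ultra (𝕜 : Type) [RCLike 𝕜] (X : Type u) [NormedAddCommGroup X] [NormedSpace 𝕜 X] :
    S_Ultra 𝕜 X := by
  intro _ _ _ h
  obtain ⟨z, hz⟩ := not_forall.1 h
  have hc : IsClosed (Set.range (NormedSpace.inclusionInDoubleDual 𝕜 X)) := by
    have h1 : Isometry (NormedSpace.inclusionInDoubleDual 𝕜 X) :=
      (NormedSpace.inclusionInDoubleDualLi 𝕜 (E := X)).isometry
    have h2 := h1.isClosedEmbedding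
    exact h2.isClosed_range
  have := UltraA.F_neBot z
  have hle := Ultrafilter.of_le (UltraA.F z)
  refine ⟨Ultrafilter.of (UltraA.F z), z,
    Metric.infDist z (Set.range (NormedSpace.inclusionInDoubleDual 𝕜 X)), ‖z‖ + 1,
    (hc.notMem_iff_infDist_pos (Set.range_nonempty _)).1 hz, fun x => ?_, hle ?_,
    fun φ => hle ?_, fun s hs hs' hs'' => hle ?_⟩
  · exact (Metric.infDist_le_dist_of_mem (Set.mem_range_self x)).trans_eq
      ((dist_comm _ _).trans (dist_eq_norm _ z))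
  · exact mem_of_superset (UltraA.N_mem z ∅) fun y hy => mem_closedBall_zero_iff.2 hy.1
  · exact mem_of_superset (UltraA.N_mem z {φ}) fun y hy => hy.2 φ (mem_singleton_self φ)
  · exact ⟨s, ∅, hs, hs', hs'', Set.inter_subset_left⟩

end Pool.Agent.P.MP_c77070_an
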